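import Pool.Agent.P.MP_d66c6d_pr.M.Iface
import Pool.Agent.P.MP_d66c6d_pr.D.Iface
import Pool.Agent.P.MP_d66c6d_pr.F.Iface

/-! Step BASE of the carpet project. -/

namespace Pool.Agent.P.MP_d66c6d_pr

open MeasureTheory ProbabilityTheory Set Metric Filter Topology
open scoped ENNReal

namespace BaseA

theorem small (C : ℝ) : ∃ g : ℝ, 0 < g ∧ g ≤ 2 ∧ 2 * g ≤ 1 / 100 ∧
    C * (2 / g) ^ 2 * (1 / 100 / g) ^ (-(3 : ℝ)) < 1 := by
  obtain ⟨g, g0, g1, g2⟩ : ∃ g : ℝ, 0 < g ∧ g ≤ 1 / 200 ∧ 4 * 10 ^ 6 * C * g < 1 := by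
    have h : ∀ᶠ g in 𝓝[>] (0 : ℝ), g ≤ 1 / 200 ∧ 4 * 10 ^ 6 * C * g < 1 :=
      eventually_nhdsWithin_of_eventually_nhds ((eventually_le_nhds (by norm_num)).and
        (ContinuousAt.eventually_lt (by fun_prop) continuousAt_const (by simp)))
    obtain ⟨g, h1, h2⟩ := (h.and self_mem_nhdsWithin).exists
    exact ⟨g, h2, h1.1, h1.2⟩
  refine ⟨g, g0, by linarith, by linarith, lt_of_eq_of_lt ?_ g2⟩
  rw [Real.rpow_neg (by positivity), show (3 : ℝ) = (3 : ℕ) by norm_num, Real.rpow_natCast]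
  field_simp
  norm_num

theorem en_ne {x : ℝ≥0∞} (hx : x ≠ ∞) : en x ≠ 0 := by
  rw [← ENNReal.ofReal_toReal hx, en_ofReal ENNReal.toReal_nonneg]
  exact (ENNReal.ofReal_pos.2 (Real.exp_pos _)).ne'

end BaseA

theorem p_BASE (hSMP : S_SMP) (hDETT : S_DETT) (hDMEA : S_DMEA) (hPPO : S_PPO) (hPPA : S_PPA) (hMUK : S_MUK) :
    S_BASE := by
  intro ν hν c ρ hc
  obtain ⟨s1, s2⟩ := hSMP ν hν c hc
  obtain ⟨C, hC⟩ := s2 3 (by norm_num)
  obtain ⟨g, g0, g1, g2, g3⟩ := BaseA.small C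
  obtain ⟨-, m1, -, ⟨C', -, m2⟩, -⟩ := hMUK ν hν
  have hI : MeasurableSet (inK (ball 0 ρ)) := (isOpen_inK isOpen_ball).measurableSet
  have hB := measurableSet_bigK g
  have hD : MeasurableSet (inK (ball 0 ρ) \ bigK g) := hI.diff hB
  have h1 := hC 0 2 g (1 / 100) _ g0 g1 g2 hD fun _ h => h.2
  have h2 := s1 ρ _ hD sdiff_subset
  have h3 : PP (ENNReal.ofReal c • (muK ν).restrict (inK (ball 0 ρ) \ bigK g))
      (NE 0 1 2 1) ≠ 0 := fun h0 => by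
    have h4 : ∀ᵐ S ∂PP (ENNReal.ofReal c • (muK ν).restrict (inK (ball 0 ρ) \ bigK g)),
        S ∈ univ → S ∈ {S | ¬ Sm (sets S) (ball 0 2) (1 / 100)} := by
      filter_upwards [h2, compl_mem_ae_iff.2 h0] with S a1 a2 _ a3
      exact a2 (hDETT.2 _ a1 a3)
    have h5 := (measure_mono_ae (s := univ) h4).trans h1
    rw [measure_univ, ENNReal.one_le_ofReal] at h5
    linarith
  have hf : (muK ν) (inK (ball 0 ρ) ∩ bigK g) ≠ ∞ := by
    refine ne_top_of_le_ne_top ENNReal.ofReal_ne_top ((measure_mono ?_).trans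
      (m2 0 (max ρ 1) g (lt_max_of_lt_right one_pos) g0))
    exact inter_subset_inter_left _ fun K hK => hK.trans (ball_subset_ball (le_max_left _ _))
  have hm : (ENNReal.ofReal c • (muK ν).restrict (inK (ball 0 ρ) ∩ bigK g)) univ ≠ ∞ := by
    rw [Measure.smul_apply, Measure.restrict_apply_univ]
    exact ENNReal.mul_ne_top ENNReal.ofReal_ne_top hf
  have h6 := (hPPA KC (ENNReal.ofReal c • (muK ν).restrict (inK (ball 0 ρ) \ bigK g)) _).2.2.1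
    inferInstance ⟨hm.lt_top⟩ _ (hDMEA.2.2.1 0 1 2 1)
  rw [← smul_add, add_comm, Measure.restrict_inter_add_sdiff _ hB] at h6
  exact fun h0 => mul_ne_zero (BaseA.en_ne hm) h3 (nonpos_iff_eq_zero.1 (h6.trans h0.le))

end Pool.Agent.P.MP_d66c6d_pr
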