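import Pool.Agent.P.MP_d66c6d_pr.M.Iface

/-! Step CHEB of the carpet project. -/

namespace Pool.Agent.P.MP_d66c6d_pr

open MeasureTheory ProbabilityTheory Set Metric Filter Topology
open scoped ENNReal

namespace ChebA

variable {ρ : ℝ} {k : ℕ}

theorem prob (h0 : 0 < ρ) (h1 : ρ ≤ 1) : IsProbabilityMeasure (coin ρ) := ⟨by
  simp only [coin, Measure.add_apply, Measure.smul_apply, measure_univ, smul_eq_mul, mul_one]
  rw [← ENNReal.ofReal_add (by linarith) h0.le]
  simp⟩

theorem coin_true (ρ : ℝ) : coin ρ {true} = ENNReal.ofReal ρ := by simp [coin]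

/-- All coins of `S` show `true`. -/
def A (S : Finset (Fin k)) : Set (Fin k → Bool) := {ω | ∀ l ∈ S, ω l = true}

theorem meas_A (h0 : 0 < ρ) (h1 : ρ ≤ 1) (S : Finset (Fin k)) :
    (Measure.pi fun _ : Fin k => coin ρ).real (A S) = ρ ^ S.card := by
  have := prob h0 h1
  have e : A S = Set.pi univ fun l => if l ∈ S then {true} else univ := by
    ext ω
    simp only [A, mem_ofPred_eq, mem_univ_pi]
    refine forall_congr' fun l => ?_
    split_ifs with h <;> simp [h]
  rw [Measure.real, e, Measure.pi_pi]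
  simp only [apply_ite (coin ρ), measure_univ, coin_true]
  rw [Finset.prod_ite_mem, Finset.univ_inter, Finset.prod_const, ENNReal.toReal_pow,
    ENNReal.toReal_ofReal h0.le]

theorem ind_mul (S S' : Finset (Fin k)) (ω : Fin k → Bool) :
    (A S).indicator (1 : (Fin k → Bool) → ℝ) ω * (A S').indicator 1 ω =
      (A (S ∪ S')).indicator 1 ω := by
  have e : A (S ∪ S') = A S ∩ A S' := by
    ext ω
    simp only [A, mem_ofPred_eq, mem_inter_iff, Finset.mem_union, or_imp, forall_and]
  rw [e, inter_indicator_one]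
  rfl

theorem int_A (h0 : 0 < ρ) (h1 : ρ ≤ 1) (S : Finset (Fin k)) :
    ∫ ω, (A S).indicator (1 : (Fin k → Bool) → ℝ) ω ∂(Measure.pi fun _ : Fin k => coin ρ) =
      ρ ^ S.card := by
  rw [integral_indicator_one (toFinite _).measurableSet, meas_A h0 h1]

end ChebA

open ChebA in
theorem p_CHEB :
    S_CHEB := by
  classical
  intro ρ k n₀ J I D h0 h1 hI hD hn
  have := prob h0 h1
  set P := Measure.pi fun _ : Fin k => coin ρ with hP
  set N : (Fin k → Bool) → ℝ := fun ω => ∑ j ∈ I, (A (D j)).indicator 1 ω with hN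
  set e : ℝ := ∑ j ∈ I, ρ ^ (D j).card with he
  have hE : P[N] = e := by
    rw [hN, integral_finsetSum _ fun _ _ => Integrable.of_finite]
    exact Finset.sum_congr rfl fun j _ => int_A h0 h1 _
  have hE2 : P[N ^ 2] ≤ e ^ 2 + e := by
    have h2 : N ^ 2 = fun ω => ∑ i ∈ I, ∑ j ∈ I, (A (D i ∪ D j)).indicator 1 ω := by
      ext ω
      rw [Pi.pow_apply, hN, sq, Finset.sum_mul_sum]
      simp only [ind_mul]
    rw [h2, integral_finsetSum _ fun _ _ => Integrable.of_finite, sq, he, Finset.sum_mul_sum,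
      ← Finset.sum_add_distrib]
    refine Finset.sum_le_sum fun i hi => ?_
    rw [integral_finsetSum _ fun _ _ => Integrable.of_finite]
    have h3 : ρ ^ (D i).card = ∑ j ∈ I, if i = j then ρ ^ (D i).card else 0 := by
      rw [Finset.sum_ite_eq, if_pos hi]
    conv_rhs => rw [h3, ← Finset.sum_add_distrib]
    rw [← h3]
    refine Finset.sum_le_sum fun j hj => ?_
    rw [int_A h0 h1]
    split_ifs with h
    · subst h
      rw [Finset.union_self]
      exact le_add_of_nonneg_left (by positivity)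
    · rw [Finset.card_union_of_disjoint (hD i hi j hj h), pow_add, add_zero]
  have hq : 0 < ρ ^ n₀ * I.card := mul_pos (pow_pos h0 _) (Nat.cast_pos.2 hI.card_pos)
  have hqe : ρ ^ n₀ * I.card ≤ e := by
    rw [he, mul_comm, ← nsmul_eq_mul]
    exact Finset.card_nsmul_le_sum _ _ _ fun j hj => pow_le_pow_of_le_one h0.le h1 (hn j hj)
  have he0 : 0 < e := hq.trans_le hqe
  have hL : MemLp N 2 P := MemLp.of_discrete
  have hV : Var[N; P] ≤ e := by
    rw [variance_eq_sub hL, hE]
    linarith
  refine (measure_mono fun ω hω => ?_).trans ((meas_ge_le_variance_div_sq hL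
    (half_pos he0)).trans (ENNReal.ofReal_le_ofReal ?_))
  · have h2 : ({j | j ∈ I ∧ ∀ l ∈ D j, ω l = true}.ncard : ℝ) = N ω := by
      have h3 : {j | j ∈ I ∧ ∀ l ∈ D j, ω l = true} = ↑(I.filter fun j => ω ∈ A (D j)) := by
        ext j
        simp [A]
      rw [h3, ncard_coe_finset, Finset.card_filter, hN]
      push_cast
      exact Finset.sum_congr rfl fun j _ => by rw [indicator_apply]; rfl
    rw [mem_ofPred_eq, h2] at hω
    rw [mem_ofPred_eq, hE, le_abs]
    exact Or.inr (by linarith)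
  · calc Var[N; P] / (e / 2) ^ 2 ≤ e / (e / 2) ^ 2 := by gcongr
      _ = 4 / e := by field_simp; norm_num
      _ ≤ 4 / (ρ ^ n₀ * I.card) := by gcongr

end Pool.Agent.P.MP_d66c6d_pr
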