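import Pool.Agent.P.MP_d66c6d_pr.M.Iface
import Pool.Agent.P.MP_d66c6d_pr.D.Iface

/-! Step FAR of the carpet project. -/

namespace Pool.Agent.P.MP_d66c6d_pr

open MeasureTheory ProbabilityTheory Set Metric Filter Topology
open scoped ENNReal

namespace FarA

theorem partner {z : ℂ} {ρ : ℝ} {T T' : Set (Set ℂ)} (h : OLe z ρ T T') {K : Set ℂ} (hK : K ∈ T)
    {x : ℂ} (hx : x ∈ K) (hx' : x ∉ ball z (10 * ρ)) : ∃ K' ∈ T', x ∈ K' ∧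
      K \ ball z (10 * ρ) = K' \ ball z (10 * ρ) ∧
      (K = K' ∨ (K' ∩ closedBall z (10 * ρ)).Nonempty) := by
  obtain ⟨K', h1, h2, h3⟩ := h K hK fun h => hx' (h hx)
  have h4 : x ∈ K' \ ball z (10 * ρ) := h2 ▸ ⟨hx, hx'⟩
  exact ⟨K', h1, h4.1, h2, h3.imp_right And.right⟩

theorem tt_sub {z z' : ℂ} {r ρ ξ : ℝ} {T T' : Set (Set ℂ)} (hT : Cpt T') (h : OLe z' ρ T T')
    (hr : 0 < r) (hd : 3 * r + 10 * ρ ≤ dist z z') (hξ : ξ ≤ r / 25) :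
    TT ξ T ∩ ball z (2 * r) ⊆ TT ξ T' ∩ ball z (2 * r) := by
  rintro x ⟨⟨K, ⟨hK, hK'⟩, hx⟩, hx'⟩
  have h0 : r + 10 * ρ < dist x z' := by
    have := dist_triangle_left z z' x
    rw [mem_ball] at hx'
    linarith
  obtain ⟨K', h1, h2, -, h3⟩ := partner h hK hx (by rw [mem_ball]; linarith)
  refine ⟨⟨K', ⟨h1, ?_⟩, h2⟩, hx'⟩
  rcases h3 with rfl | ⟨y, h4, h5⟩
  · exact hK'
  · have h6 := dist_le_diam_of_mem (hT K' h1).isBounded h2 h4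
    have := dist_triangle x y z'
    rw [mem_closedBall] at h5
    linarith

theorem fill_ne {A : Set ℂ} {x : ℂ} (h : x ∈ fill A) : A.Nonempty := by
  rw [nonempty_iff_ne_empty]
  rintro rfl
  simp only [fill, compl_empty, connectedComponentIn_univ, mem_setOf_eq,
    PreconnectedSpace.connectedComponent_eq_univ] at h
  exact NormedSpace.unbounded_univ ℝ ℂ h

theorem noc {z z' : ℂ} {ρ ρ' : ℝ} {T T' : Set (Set ℂ)} (h : OLe z' ρ' T' T) (hρ : 0 < ρ)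
    (hd : 9 * ρ + 10 * ρ' ≤ dist z z') (hN : NoC T z ρ) : NoC T' z ρ := by
  intro K hK hs
  have h0 : ∀ x ∈ closedBall z (9 * ρ), x ∉ ball z' (10 * ρ') := fun x hx => by
    have := dist_triangle_left z z' x
    rw [mem_closedBall] at hx
    rw [mem_ball]
    linarith
  obtain ⟨x, h1, h2⟩ := fill_ne (hs (mem_closedBall_self hρ.le))
  obtain ⟨K', h3, -, h4, -⟩ := partner h hK h1 (h0 x h2)
  refine hN K' h3 ?_
  have e : K' ∩ closedBall z (9 * ρ) = K ∩ closedBall z (9 * ρ) := by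
    ext y
    refine and_congr_left fun hy => ⟨fun h5 => ?_, fun h5 => ?_⟩
    · exact (show y ∈ K \ ball z' (10 * ρ') from h4 ▸ ⟨h5, h0 y hy⟩).1
    · exact (show y ∈ K' \ ball z' (10 * ρ') from h4 ▸ ⟨h5, h0 y hy⟩).1
  rwa [e]

theorem ole_mono {z z' : ℂ} {ρ ρ' : ℝ} {T T' : Set (Set ℂ)} (hd : dist z' z + 10 * ρ' ≤ 10 * ρ)
    (h : OLe z' ρ' T T') : OLe z ρ T T' := by
  have h1 : ball z' (10 * ρ') ⊆ ball z (10 * ρ) := ball_subset_ball' (by linarith)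
  have h2 : closedBall z' (10 * ρ') ⊆ closedBall z (10 * ρ) :=
    closedBall_subset_closedBall' (by linarith)
  intro K hK hs
  obtain ⟨K', h3, h4, h5⟩ := h K hK fun h => hs (h.trans h1)
  refine ⟨K', h3, ?_, h5.imp_right fun h => ⟨h.1.mono (inter_subset_inter_right _ h2),
    h.2.mono (inter_subset_inter_right _ h2)⟩⟩
  ext y
  refine and_congr_left fun hy => ⟨fun h6 => ?_, fun h6 => ?_⟩
  · exact (show y ∈ K' \ ball z' (10 * ρ') from h4 ▸ ⟨h6, fun h => hy (h1 h)⟩).1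
  · exact (show y ∈ K \ ball z' (10 * ρ') from h4 ▸ ⟨h6, fun h => hy (h1 h)⟩).1

end FarA

open FarA in
theorem p_FAR (hDLOC : S_DLOC) (hDMEA : S_DMEA) (hDMEZ : S_DMEZ) (hDMEB : S_DMEB) :
    S_FAR := by
  refine ⟨fun z r ε t hr => ⟨⟨(hDMEZ _ z r ε t).compl, fun S S' h h1 h2 => h1 ?_⟩,
    hDMEA.2.2.1 z r ε t, fun S S' h h1 => ?_⟩, fun z r δ hr hδ => ⟨hDMEB.1 z r δ, fun S S' h h1 => ?_⟩,
    fun z r E hr h => ⟨h.1, fun z' ρ _ hd => ⟨h.1, fun S S' h1 h2 => h.2 S S' fun ξ _ hξ => ?_⟩⟩,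
    fun z ρ hρ => ⟨hDMEA.2.2.2.2.1 z ρ, fun z' ρ' _ hd => ⟨hDMEA.2.2.2.2.1 z ρ,
      fun S S' _ h2 h3 => noc h2 hρ hd h3⟩⟩,
    fun z z' s s' E hd h => ⟨h.1, fun w ρ hρ hw => h.2 w ρ hρ ?_⟩,
    fun z s E E' h h' => ⟨⟨h.1.inter h'.1, fun w ρ hρ hw => ⟨h.1.inter h'.1, fun S S' h1 h2 h3 =>
      ⟨(h.2 w ρ hρ hw).2 S S' h1 h2 h3.1, (h'.2 w ρ hρ hw).2 S S' h1 h2 h3.2⟩⟩⟩,
      h.1.union h'.1, fun w ρ hρ hw => ⟨h.1.union h'.1, fun S S' h1 h2 h3 =>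
        h3.imp ((h.2 w ρ hρ hw).2 S S' h1 h2) ((h'.2 w ρ hρ hw).2 S S' h1 h2)⟩⟩,
    fun ι I z s E h => ?_, fun z ρ => ⟨MeasurableSet.univ, fun _ _ _ _ _ => mem_univ _⟩,
    fun z ρ F F' h h' => ⟨h.1.inter h'.1, fun S S' h1 h2 h3 =>
      ⟨h.2 S S' h1 h2 h3.1, h'.2 S S' h1 h2 h3.2⟩⟩,
    fun z z' ρ ρ' F hd h => ⟨h.1, fun S S' h1 h2 => h.2 S S' (ole_mono hd h1) (ole_mono hd h2)⟩,
    ?_⟩
  · exact ((hDLOC _ _ z r _ hr (by linarith) h.symm).1 ε t).1 h2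
  · exact ((hDLOC _ _ z r _ hr (by linarith) h).1 ε t).2.1 h1
  · exact (hDLOC _ _ z r _ hr (by linarith) h).2 δ le_rfl hδ h1
  · exact Subset.antisymm (tt_sub (cpt_sets S') h1 hr hd hξ) (tt_sub (cpt_sets S) h2 hr hd hξ)
  · linarith [dist_triangle_left z' w z]
  · have hm : MeasurableSet (⋃ i ∈ I, E i) := I.measurableSet_biUnion fun i hi => (h i hi).1
    refine ⟨hm, fun w ρ hρ hw => ⟨hm, fun S S' h1 h2 h3 => ?_⟩⟩
    obtain ⟨i, hi, h4⟩ := mem_iUnion₂.1 h3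
    exact mem_iUnion₂.2 ⟨i, hi, ((h i hi).2 w ρ hρ hw).2 S S' h1 h2 h4⟩
  · rintro ν κ c lam z z' ρ ρ' m hl hd ⟨V, f, h1, h2, h3, h4, h5, h6, h7⟩
    refine ⟨V, f, h1, h2, (closedBall_subset_closedBall' (by linarith)).trans h3, h4, h5,
      fun K hK => h6 K (hK.trans_le (mul_le_mul_of_nonneg_left ?_ hl.le)), h7⟩
    linarith [dist_nonneg (x := z') (y := z)]

end Pool.Agent.P.MP_d66c6d_pr
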