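import Pool.Agent.P.MP_d66c6d_pr.M.Iface
import Pool.Agent.P.MP_d66c6d_pr.D.Iface

/-! Step FEW of the carpet project. -/

namespace Pool.Agent.P.MP_d66c6d_pr

open MeasureTheory ProbabilityTheory Set Metric Filter Topology
open scoped ENNReal

namespace FewA

theorem cube (m : ℕ) : (m + 1) ^ 3 ≤ 8 * 2 ^ m := by
  induction m with
  | zero => norm_num
  | succ m ih =>
    rcases Nat.lt_or_ge m 3 with h | h
    · interval_cases m <;> norm_num
    · obtain ⟨k, rfl⟩ := Nat.exists_eq_add_of_le h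
      rw [pow_succ 2]
      have : (3 + k + 1 + 1) ^ 3 ≤ 2 * (3 + k + 1) ^ 3 := by ring_nf; omega
      omega

end FewA

theorem p_FEW (hGA : S_GA) (hGRID : S_GRID) :
    S_FEW := by
  intro k
  obtain ⟨p₀, hp₀, C, hC, H⟩ := hGA k
  have hl : 8 * C ≤ (⌈8 * C⌉₊ : ℝ) := Nat.le_ceil _
  have hl1 : 1 ≤ ⌈8 * C⌉₊ := Nat.ceil_pos.2 (by positivity)
  generalize ⌈8 * C⌉₊ = l at hl hl1
  have hl0 : (0 : ℝ) < l := by linarith
  refine ⟨ENNReal.ofReal (p₀ / l ^ 2), (ENNReal.ofReal_pos.2 (by positivity)).ne',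
    392 * C * (64 * C) ^ 3, 1, one_pos, fun h hh Ω _ P bad hb => ?_⟩
  have h0 := hh.1
  obtain ⟨Q, hQ, hc⟩ := hGRID.1 h 3 0 h0 (by norm_num)
  have hm1 : (⌊1 / (64 * C * h)⌋₊ : ℝ) ≤ 1 / (64 * C * h) := Nat.floor_le (by positivity)
  have hm2 := Nat.lt_floor_add_one (1 / (64 * C * h))
  generalize ⌊1 / (64 * C * h)⌋₊ = m at hm1 hm2
  refine (measure_mono ?_).trans ((H Ω P bad Q (p₀ / l ^ 2) l m (by positivity) hl1
    (le_of_eq (by field_simp)) fun B hB h1 h2 => hb B h1 h2 fun c hc => by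
      simpa using (hQ c).1 (hB hc)).trans (ENNReal.ofReal_le_ofReal ?_))
  · rintro ω ⟨B, ⟨a1, a2, a3⟩, a4⟩
    refine ⟨B, fun c hc => (hQ c).2 (by simpa using a2 c hc), a1, ?_⟩
    have b1 : (B.card : ℝ) < 4 * ({c | c ∈ B ∧ ω ∈ bad c}.ncard : ℝ) := by exact_mod_cast a4
    have b2 : C * (B.card / l) ≤ B.card / 8 := by
      rw [← mul_div_assoc, div_le_div_iff₀ hl0 (by norm_num)]
      nlinarith [(Nat.cast_nonneg B.card : (0 : ℝ) ≤ B.card)]
    have b3 : C * m ≤ B.card / 8 := by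
      rw [le_div_iff₀ (by positivity)] at hm1
      refine le_of_mul_le_mul_left ?_ (show 0 < 64 * h by positivity)
      nlinarith
    rw [mul_add]
    linarith
  · have b1 : (Q.card : ℝ) ≤ (7 / h) ^ 2 := by
      refine hc.trans (pow_le_pow_left₀ (by positivity) ?_ 2)
      have : 1 ≤ 1 / h := (one_le_div h0).2 hh.2
      have e : 7 / h = 2 * 3 / h + 1 / h := by ring
      linarith
    have b2 : (1 / (64 * C * h)) ^ 3 ≤ 8 * 2 ^ m :=
      (pow_le_pow_left₀ (by positivity) hm2.le 3).trans (by exact_mod_cast FewA.cube m)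
    rw [div_le_iff₀ (by positivity)]
    have b3 := mul_le_mul_of_nonneg_left b2 (show 0 ≤ 49 * C * (64 * C) ^ 3 * h by positivity)
    have e : 49 * C * (64 * C) ^ 3 * h * (1 / (64 * C * h)) ^ 3 = C * (7 / h) ^ 2 := by
      field_simp
      norm_num
    have b4 := mul_le_mul_of_nonneg_left b1 hC.le
    linarith

end Pool.Agent.P.MP_d66c6d_pr
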