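import Pool.Agent.P.MP_d66c6d_pr.M.Iface
import Pool.Agent.P.MP_d66c6d_pr.A.Iface
import Pool.Agent.P.MP_d66c6d_pr.G.IfaceX

/-! Step FULL of the carpet project. -/

namespace Pool.Agent.P.MP_d66c6d_pr

open MeasureTheory ProbabilityTheory Set Metric Filter Topology
open scoped ENNReal

theorem p_FULL (hDAT : S_DAT) (hTH1 : S_TH1) (hSUB : S_SUB) (hTIGH : S_TIGH) (hTAIL : S_TAIL) (hLOWN : S_LOWN) (hHUG : S_HUG) (hUPN : S_UPN) :
    S_FULL := by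
  intro ν κ L β Θ h c hc
  obtain ⟨a, ha, R, hR, hd⟩ := hDAT ν h.br c _ (h.all c hc)
  have h1 : 1 < Θ c := hTH1 ν h.br c _ ((c + 1 / 2) / 2) _ hc.1 (by linarith [hc.2])
    (by linarith [hc.2]) (h.all c hc) (h.all _ ⟨by linarith [hc.1], by linarith [hc.2]⟩)
  have h2 : SubP ν c := hSUB ν h.br c _ hc.1 (h.all c hc)
  have h3 := hTAIL ν h.br κ L c _ a h.str.ten ha h1.le
    (hTIGH ν κ L β Θ h c hc _ R a ha hR (hd R le_rfl))
  exact ⟨a, ha, h1, h2, h3, hLOWN ν κ L β Θ h c hc _ R a ha hR (hd R le_rfl),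
    hHUG ν κ L β Θ h c hc,
    hUPN ν h.br κ L c _ a h.kap.le h.str.ten hc.1.le ha (by linarith) h2 h3⟩

end Pool.Agent.P.MP_d66c6d_pr
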