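import Pool.Agent.P.MP_d66c6d_pr.M.Iface
import Pool.Agent.P.MP_d66c6d_pr.S.Iface
import Pool.Agent.P.MP_d66c6d_pr.D.Iface
import Pool.Agent.P.MP_d66c6d_pr.S.Ani

/-! Step GA of the carpet project. -/

namespace Pool.Agent.P.MP_d66c6d_pr

open MeasureTheory ProbabilityTheory Set Metric Filter Topology
open scoped ENNReal

namespace GaA

open AniA

/-- the block of a cell -/
def blk (l : ℕ) (c : ℤ × ℤ) : ℤ × ℤ := (c.1 / l, c.2 / l)

/-- the cells near a block -/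
noncomputable def nb (l : ℕ) (c : ℤ × ℤ) : Finset (ℤ × ℤ) :=
  Finset.Icc (l * c.1 - 2 * l) (l * c.1 + 3 * l) ×ˢ Finset.Icc (l * c.2 - 2 * l) (l * c.2 + 3 * l)

theorem card_nb {l : ℕ} (hl : 1 ≤ l) (c : ℤ × ℤ) : (nb l c).card ≤ 36 * l ^ 2 := by
  have e : ∀ x : ℤ, (x + 3 * l + 1 - (x - 2 * l)).toNat = 5 * l + 1 := fun x => by omega
  rw [nb, Finset.card_product, Int.card_Icc, Int.card_Icc, e, e]
  nlinarith

theorem near {l : ℕ} {u v : ℤ × ℤ} (h : dist u v ≤ 2 * l) :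
    (u.1 ≤ v.1 + 2 * l ∧ v.1 ≤ u.1 + 2 * l) ∧ u.2 ≤ v.2 + 2 * l ∧ v.2 ≤ u.2 + 2 * l := by
  rw [Prod.dist_eq, max_le_iff, Int.dist_eq, Int.dist_eq, abs_le, abs_le] at h
  obtain ⟨⟨h1, h2⟩, h3, h4⟩ := h
  have e1 : -(2 * l : ℤ) ≤ u.1 - v.1 := by exact_mod_cast h1
  have e2 : u.1 - v.1 ≤ (2 * l : ℤ) := by exact_mod_cast h2
  have e3 : -(2 * l : ℤ) ≤ u.2 - v.2 := by exact_mod_cast h3
  have e4 : u.2 - v.2 ≤ (2 * l : ℤ) := by exact_mod_cast h4
  omega

theorem div_le {l : ℕ} (hl : 1 ≤ l) {a b : ℤ} (h : a ≤ b + 2 * l) : a / l ≤ b / l + 2 := by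
  rw [← Int.add_mul_ediv_right _ _ (by omega)]
  exact Int.ediv_le_ediv (by omega) h

theorem blk_box {l : ℕ} (hl : 1 ≤ l) {u v : ℤ × ℤ} (h : dist u v ≤ 2 * l) :
    blk l v - blk l u ∈ AniA.box := by
  obtain ⟨⟨h1, h2⟩, h3, h4⟩ := near h
  have e1 := div_le hl h1
  have e2 := div_le hl h2
  have e3 := div_le hl h3
  have e4 := div_le hl h4
  simp only [AniA.box, blk, Finset.mem_product, Finset.mem_Icc, Prod.fst_sub, Prod.snd_sub]
  omega

theorem mem_nb {l : ℕ} (hl : 1 ≤ l) {u v : ℤ × ℤ} (h : dist u v ≤ 2 * l) :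
    v ∈ nb l (blk l u) := by
  obtain ⟨⟨h1, h2⟩, h3, h4⟩ := near h
  have h0 : (0 : ℤ) < l := by omega
  have e1 := Int.mul_ediv_add_emod u.1 l
  have e2 := Int.mul_ediv_add_emod u.2 l
  have e3 := Int.emod_nonneg u.1 h0.ne'
  have e4 := Int.emod_nonneg u.2 h0.ne'
  have e5 := Int.emod_lt_of_pos u.1 h0
  have e6 := Int.emod_lt_of_pos u.2 h0
  simp only [nb, blk, Finset.mem_product, Finset.mem_Icc]
  refine ⟨⟨?_, ?_⟩, ?_, ?_⟩ <;> linarith

/-- the cells near a walk of blocks -/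
noncomputable def cov (l : ℕ) (c : ℤ × ℤ) (M : ℕ) (s : Fin M → ℤ × ℤ) : Finset (ℤ × ℤ) :=
  (trc (blk l c) M s).biUnion (nb l)

theorem card_cov {l : ℕ} (hl : 1 ≤ l) (c : ℤ × ℤ) (M : ℕ) (s : Fin M → ℤ × ℤ) :
    (cov l c M s).card ≤ M * (36 * l ^ 2) :=
  (Finset.card_biUnion_le_card_mul _ _ _ fun a _ => card_nb hl a).trans
    (Nat.mul_le_mul_right _ (Finset.card_image_le.trans (Finset.card_range M).le))

theorem cover {l : ℕ} (hl : 1 ≤ l) (w : ℕ → ℤ × ℤ) (hw : ∀ i, dist (w i) (w (i + 1)) ≤ 2)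
    (M : ℕ) : ∃ s ∈ Fintype.piFinset fun _ : Fin M => AniA.box,
      ∀ i < M * l, w i ∈ cov l (w 0) M s := by
  have h1 : ∀ i r : ℕ, r ≤ l → dist (w i) (w (i + r)) ≤ 2 * l := fun i r hr => by
    have : dist (w i) (w (i + r)) ≤ 2 * r := by
      clear hr
      induction r with
      | zero => simp
      | succ r ih =>
        rw [← add_assoc, Nat.cast_succ]
        linarith [dist_triangle (w i) (w (i + r)) (w (i + r + 1)), hw (i + r)]
    exact this.trans (by gcongr)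
  refine ⟨fun j => blk l (w ((j + 1) * l)) - blk l (w (j * l)), Fintype.mem_piFinset.2 fun j =>
    blk_box hl (by rw [add_mul, one_mul]; exact h1 _ _ le_rfl), fun i hi => ?_⟩
  have hi' : i / l < M := (Nat.div_lt_iff_lt_mul hl).2 hi
  refine Finset.mem_biUnion.2 ⟨blk l (w (i / l * l)),
    Finset.mem_image.2 ⟨i / l, Finset.mem_range.2 hi', ?_⟩, mem_nb hl ?_⟩
  · rw [Finset.sum_congr rfl (g := fun j => blk l (w ((j + 1) * l)) - blk l (w (j * l)))
      fun j hj => dif_pos ((Finset.mem_range.1 hj).trans hi'),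
      Finset.sum_range_sub fun j => blk l (w (j * l)), zero_mul]
    abel
  · have := h1 (i / l * l) (i % l) (Nat.mod_lt _ hl).le
    rwa [Nat.div_add_mod'] at this

theorem num {l M N : ℕ} {p : ℝ} (hp : 0 ≤ p) (h : (l : ℝ) ^ 2 * p ≤ 1 / 5400)
    (hN : N ≤ M * (36 * l ^ 2)) :
    (25 : ℝ≥0∞) ^ M * (N.choose M * ENNReal.ofReal p ^ M) ≤ 2⁻¹ ^ M := by
  have h1 : (N.choose M : ℝ) ≤ (3 * (36 * l ^ 2)) ^ M := by
    calc (N.choose M : ℝ) ≤ (N : ℝ) ^ M / M.factorial := Nat.choose_le_pow_div M N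
      _ ≤ ((M : ℝ) * (36 * l ^ 2)) ^ M / M.factorial := by
          gcongr
          exact_mod_cast hN
      _ = (M : ℝ) ^ M / M.factorial * (36 * l ^ 2) ^ M := by rw [mul_pow]; ring
      _ ≤ 3 ^ M * (36 * l ^ 2) ^ M := by
          gcongr
          refine (Real.pow_div_factorial_le_exp _ M.cast_nonneg M).trans ?_
          rw [← Real.exp_one_pow]
          exact pow_le_pow_left₀ (Real.exp_pos _).le
            (Real.exp_one_lt_d9.le.trans (by norm_num)) _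
      _ = _ := (mul_pow _ _ _).symm
  have h2 : (25 : ℝ) ^ M * (N.choose M * p ^ M) ≤ 2⁻¹ ^ M := by
    calc (25 : ℝ) ^ M * (N.choose M * p ^ M) ≤ 25 ^ M * ((3 * (36 * l ^ 2)) ^ M * p ^ M) := by
          gcongr
      _ = (2700 * (l ^ 2 * p)) ^ M := by rw [← mul_pow, ← mul_pow]; congr 1; ring
      _ ≤ _ := pow_le_pow_left₀ (by positivity) (by linarith) _
  have := ENNReal.ofReal_le_ofReal h2
  rwa [ENNReal.ofReal_mul (by positivity), ENNReal.ofReal_mul (by positivity),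
    ENNReal.ofReal_pow hp, ENNReal.ofReal_pow (by norm_num), ENNReal.ofReal_pow (by norm_num),
    ENNReal.ofReal_natCast, ENNReal.ofReal_ofNat, ENNReal.ofReal_inv_of_pos two_pos,
    ENNReal.ofReal_ofNat] at this

end GaA

open AniA GaA in
theorem p_GA (hWALK : S_WALK) (hGRID : S_GRID) :
    S_GA := by
  classical
  intro k
  have hK : (1 : ℝ) ≤ (2 * k + 1) ^ 2 := one_le_pow₀ (by linarith [k.cast_nonneg (α := ℝ)])
  refine ⟨1 / 5400, by norm_num, 2 * (2 * k + 1) ^ 2, by positivity, ?_⟩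
  intro Ω _ P bad Q p l m hp hl hlp hbad
  have hsub : {ω | ∃ B ⊆ Q, (∃ c₀, Anim c₀ B) ∧ 2 * (2 * k + 1 : ℝ) ^ 2 * (B.card / l + m) <
      ({c | c ∈ B ∧ ω ∈ bad c}.ncard : ℝ)} ⊆ ⋃ i : ℕ, ⋃ c ∈ Q,
      ⋃ s ∈ Fintype.piFinset fun _ : Fin (m + 1 + i) => AniA.box,
      ⋃ B ∈ ((cov l c _ s).powersetCard (m + 1 + i)).filter fun B => B ⊆ Q ∧ Sep k B,
        ⋂ c ∈ B, bad c := by
    rintro ω ⟨B, hBQ, ⟨c₀, hA⟩, hc⟩
    have e : {c | c ∈ B ∧ ω ∈ bad c} = (B.filter fun c => ω ∈ bad c : Finset (ℤ × ℤ)) := by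
      ext c; simp
    rw [e, Set.ncard_coe_finset] at hc
    obtain ⟨B', hB, hs, hcard⟩ := hGRID.2.2.2.1 k (B.filter fun c => ω ∈ bad c)
    have h1 : ((B.filter fun c => ω ∈ bad c).card : ℝ) ≤ (2 * k + 1) ^ 2 * B'.card := by
      exact_mod_cast hcard
    have h2 : 2 * ((B.card : ℝ) / l + m) < B'.card :=
      lt_of_mul_lt_mul_left (a := (2 * k + 1 : ℝ) ^ 2) (by linarith) (by positivity)
    have hl0 : (0 : ℝ) < l := by exact_mod_cast hl
    have h3 : (0 : ℝ) ≤ B.card / l := by positivity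
    have h4 : m < B'.card := by
      have : (m : ℝ) < B'.card := by linarith [m.cast_nonneg (α := ℝ)]
      exact_mod_cast this
    have h5 : 2 * B.card ≤ B'.card * l := by
      have : 2 * (B.card : ℝ) / l ≤ B'.card := by
        rw [mul_div_assoc]; linarith [m.cast_nonneg (α := ℝ)]
      rw [div_le_iff₀ hl0] at this
      exact_mod_cast this
    obtain ⟨i, hi⟩ := Nat.exists_eq_add_of_le (Nat.succ_le_of_lt h4)
    obtain ⟨w, h0, hw, hB'⟩ := hWALK c₀ B hA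
    obtain ⟨s, hs1, hs2⟩ := cover hl w hw (m + 1 + i)
    have h6 : B' ⊆ B := hB.trans (Finset.filter_subset _ _)
    refine mem_iUnion.2 ⟨i, mem_iUnion₂.2 ⟨c₀, hBQ hA.1, mem_iUnion₂.2 ⟨s, hs1, mem_iUnion₂.2
      ⟨B', Finset.mem_filter.2 ⟨Finset.mem_powersetCard.2 ⟨fun c hc => ?_, hi⟩, h6.trans hBQ, hs⟩,
        mem_iInter₂.2 fun c hc => (Finset.mem_filter.1 (hB hc)).2⟩⟩⟩⟩
    obtain ⟨j, hj, rfl⟩ := Finset.mem_image.1 (hB'.le (h6 hc))
    exact h0 ▸ hs2 j ((Finset.mem_range.1 hj).trans_le (hi ▸ h5))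
  refine (measure_mono hsub).trans ((measure_iUnion_le _).trans ?_)
  have hterm : ∀ M : ℕ, 0 < M → P (⋃ c ∈ Q, ⋃ s ∈ Fintype.piFinset fun _ : Fin M => AniA.box,
      ⋃ B ∈ ((cov l c _ s).powersetCard M).filter fun B => B ⊆ Q ∧ Sep k B, ⋂ c ∈ B, bad c) ≤
      Q.card * 2⁻¹ ^ M := fun M hM => by
    rw [← nsmul_eq_mul]
    refine (measure_biUnion_finset_le _ _).trans (Finset.sum_le_card_nsmul _ _ _ fun c _ => ?_)
    refine (measure_biUnion_finset_le _ _).trans ((Finset.sum_le_card_nsmul _ _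
      ((M * (36 * l ^ 2)).choose M * ENNReal.ofReal p ^ M) fun s _ => ?_).trans ?_)
    · refine (measure_biUnion_finset_le _ _).trans ((Finset.sum_le_card_nsmul _ _
        (ENNReal.ofReal p ^ M) fun B hB => ?_).trans ?_)
      · obtain ⟨h1, h2, h3⟩ := Finset.mem_filter.1 hB
        have h4 := (Finset.mem_powersetCard.1 h1).2
        exact h4 ▸ hbad B h2 (Finset.card_pos.1 (h4 ▸ hM)) h3
      · rw [nsmul_eq_mul]
        refine mul_le_mul_left (Nat.cast_le.2 ((Finset.card_filter_le _ _).trans ?_)) _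
        rw [Finset.card_powersetCard]
        exact Nat.choose_le_choose _ (card_cov hl _ _ _)
    · rw [nsmul_eq_mul, Fintype.card_piFinset, Finset.prod_const, AniA.card_box,
        Finset.card_univ, Fintype.card_fin, Nat.cast_pow]
      exact GaA.num hp hlp le_rfl
  refine (ENNReal.tsum_le_tsum fun i => hterm (m + 1 + i) (by omega)).trans ?_
  simp only [pow_add, ← mul_assoc]
  rw [ENNReal.tsum_mul_left, ENNReal.tsum_geometric, ENNReal.one_sub_inv_two, inv_inv, pow_one,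
    mul_assoc, ENNReal.inv_mul_cancel (by simp) (by simp), mul_one,
    ENNReal.ofReal_div_of_pos (by positivity), ENNReal.ofReal_pow two_pos.le,
    ENNReal.ofReal_ofNat, div_eq_mul_inv, ENNReal.inv_pow, ← ENNReal.ofReal_natCast]
  exact mul_le_mul_left (ENNReal.ofReal_le_ofReal
    (le_mul_of_one_le_left Q.card.cast_nonneg (by linarith))) _

end Pool.Agent.P.MP_d66c6d_pr
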