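import Pool.Agent.P.MP_d66c6d_pr.M.Iface
import Pool.Agent.P.MP_d66c6d_pr.D.Iface

/-! Step GAW of the carpet project. -/

namespace Pool.Agent.P.MP_d66c6d_pr

open MeasureTheory ProbabilityTheory Set Metric Filter Topology
open scoped ENNReal

namespace GawA

open Classical in
theorem first (b : ℕ → Prop) {J : ℕ} (hJ : ¬ b J) :
    ∃ i, ¬ b i ∧ (2 : ℝ) ^ i ≤ 1 + ∑ j ∈ Finset.range J, 2 * 2 ^ j * if b j then 1 else 0 := by
  have hex : ∃ i, ¬ b i := ⟨J, hJ⟩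
  have hnn : ∀ j ∈ Finset.range J, (0 : ℝ) ≤ 2 * 2 ^ j * if b j then 1 else 0 := fun j _ => by
    split_ifs <;> positivity
  refine ⟨Nat.find hex, Nat.find_spec hex, ?_⟩
  have h1 : Nat.find hex ≤ J := Nat.find_min' hex hJ
  rcases h : Nat.find hex with _ | j
  · have := Finset.sum_nonneg hnn
    rw [pow_zero]
    linarith
  · have h2 : b j := not_not.1 (Nat.find_min hex (by omega))
    have h3 := Finset.single_le_sum hnn (Finset.mem_range.2 (by omega : j < J))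
    rw [if_pos h2] at h3
    rw [pow_succ]
    linarith

theorem geo (J : ℕ) : ∑ j ∈ Finset.range J, (2 : ℝ) ^ j / 16 ^ j ≤ 2 - 2 / 2 ^ J ∧
    ∑ j ∈ Finset.range J, (2 : ℝ) ^ j ≤ 2 ^ J ∧ (J : ℝ) ≤ 2 ^ J := by
  refine ⟨?_, ?_, by exact_mod_cast (Nat.lt_two_pow_self (n := J)).le⟩
  · induction J with
    | zero => simp
    | succ J ih =>
      rw [Finset.sum_range_succ]
      have h1 : (2 : ℝ) ^ J / 16 ^ J ≤ 1 / 2 ^ J := by
        rw [div_le_div_iff₀ (by positivity) (by positivity), ← mul_pow, one_mul]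
        exact pow_le_pow_left₀ (by norm_num) (by norm_num) J
      have h2 : (2 : ℝ) / 2 ^ (J + 1) = 1 / 2 ^ J := by rw [pow_succ]; field_simp
      have h3 : (2 : ℝ) / 2 ^ J = 2 * (1 / 2 ^ J) := by ring
      linarith
  · induction J with
    | zero => simp
    | succ J ih => rw [Finset.sum_range_succ, pow_succ]; linarith

theorem det {B : Finset (ℤ × ℤ)} {b : ℤ × ℤ → ℕ → Prop} {J : ℕ} {C h : ℝ} (hC : 0 < C)
    (hh : 0 < h) (hJ : ((2 : ℝ) ^ J) ^ 2 * h ≤ 1) (hB : 1 ≤ 8 * h * B.card)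
    (h1 : ∀ c ∈ B, ¬ b c J)
    (h2 : ∀ j ∈ Finset.range J, ({c | c ∈ B ∧ b c j}.ncard : ℝ) ≤
      C * (B.card / ((16 ^ j : ℕ) : ℝ) + ((8 * J : ℕ) : ℝ))) :
    ∃ i : ℤ × ℤ → ℕ, (∀ c ∈ B, ¬ b c (i c)) ∧
      ∑ c ∈ B, (2 : ℝ) ^ i c ≤ (1 + 132 * C) * B.card := by
  classical
  have h3 : ∀ c : ℤ × ℤ, ∃ i, c ∈ B → ¬ b c i ∧
      (2 : ℝ) ^ i ≤ 1 + ∑ j ∈ Finset.range J, 2 * 2 ^ j * if b c j then 1 else 0 := fun c => by
    by_cases hc : c ∈ B
    · obtain ⟨i, hi⟩ := first (b c) (h1 c hc)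
      exact ⟨i, fun _ => hi⟩
    · exact ⟨0, fun h => absurd h hc⟩
  choose i hi using h3
  refine ⟨i, fun c hc => (hi c hc).1, (Finset.sum_le_sum fun c hc => (hi c hc).2).trans ?_⟩
  rw [Finset.sum_add_distrib, Finset.sum_comm]
  have h4 : ∀ j ∈ Finset.range J, ∑ c ∈ B, (2 : ℝ) * 2 ^ j * (if b c j then 1 else 0) ≤
      2 * C * B.card * (2 ^ j / 16 ^ j) + 16 * C * J * 2 ^ j := fun j hj => by
    rw [← Finset.mul_sum, Finset.sum_boole]
    have h5 : {c | c ∈ B ∧ b c j} = ((B.filter fun c => b c j : Finset _) : Set _) := by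
      ext c
      simp
    have h6 := h2 j hj
    rw [h5, ncard_coe_finset] at h6
    refine (mul_le_mul_of_nonneg_left h6 (by positivity)).trans (le_of_eq ?_)
    push_cast
    ring
  have h5 := Finset.sum_le_sum h4
  rw [Finset.sum_add_distrib, ← Finset.mul_sum, ← Finset.mul_sum] at h5
  obtain ⟨g1, g2, g3⟩ := geo J
  have g4 : ∑ j ∈ Finset.range J, (2 : ℝ) ^ j / 16 ^ j ≤ 2 := by
    have : (0 : ℝ) ≤ 2 / 2 ^ J := by positivity
    linarith
  have h6 := mul_le_mul_of_nonneg_left g4 (by positivity : (0 : ℝ) ≤ 2 * C * B.card)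
  have h7 := mul_le_mul_of_nonneg_left g2 (by positivity : (0 : ℝ) ≤ 16 * C * J)
  have h8 : (J : ℝ) * 2 ^ J ≤ 8 * B.card := by
    have k1 : (J : ℝ) * 2 ^ J ≤ (2 ^ J) ^ 2 := by
      rw [sq]
      exact mul_le_mul_of_nonneg_right g3 (by positivity)
    have k2 : ((2 : ℝ) ^ J) ^ 2 * h ≤ 8 * B.card * h := by linarith
    exact k1.trans (le_of_mul_le_mul_right k2 hh)
  have h9 := mul_le_mul_of_nonneg_left h8 (by positivity : (0 : ℝ) ≤ 16 * C)
  simp only [Finset.sum_const, nsmul_eq_mul, mul_one]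
  linarith

end GawA

theorem p_GAW (hGA : S_GA) (hGRID : S_GRID) :
    S_GAW := by
  intro k A
  obtain ⟨p₀, hp₀, C, hC, hG⟩ := hGA k
  obtain ⟨s, hs1, hs⟩ : ∃ s : ℝ, 1 ≤ s ∧ A ≤ p₀ * s ^ 8 := by
    refine ⟨max 1 (A / p₀), le_max_left _ _, ?_⟩
    have h1 : A / p₀ ≤ (max 1 (A / p₀)) ^ 8 :=
      (le_max_right _ _).trans (le_self_pow₀ (le_max_left _ _) (by norm_num))
    rw [div_le_iff₀ hp₀] at h1
    linarith
  have hs0 : 0 < s := by linarith
  refine ⟨s * (1 + 132 * C) + 3136 * (p₀ + C), by positivity, 1, one_pos,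
    fun h hh Ω _ P bad hbad => ?_⟩
  have h0 := hh.1
  obtain ⟨J, hJ1, hJ2⟩ := exists_nat_pow_near (x := 1 / h) (y := 4)
    (by rw [le_div_iff₀ h0]; linarith [hh.2]) (by norm_num)
  have h4 : (4 : ℝ) ^ J = (2 ^ J) ^ 2 := by rw [← pow_mul, mul_comm, pow_mul]; norm_num
  rw [h4, le_div_iff₀ h0] at hJ1
  rw [pow_succ, h4, div_lt_iff₀ h0] at hJ2
  obtain ⟨Q, hQ, hN⟩ := hGRID.1 h 3 0 h0 (by norm_num)
  have hQ' : ∀ c, c ∈ Q ↔ ‖gp h c‖ ≤ 3 := fun c => by rw [hQ, dist_zero_right]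
  have hlev : ∀ j : ℕ, ∀ B ⊆ Q, B.Nonempty → Sep k B →
      P (⋂ c ∈ B, bad c (s * 2 ^ j)) ≤ ENNReal.ofReal (p₀ / (2 ^ j) ^ 8) ^ B.card := by
    intro j B hB hne hsep
    have h1 : (1 : ℝ) ≤ 2 ^ j := one_le_pow₀ one_le_two
    refine (hbad _ (by nlinarith) B hne hsep fun c hc => (hQ' c).1 (hB hc)).trans ?_
    refine pow_le_pow_left' (ENNReal.ofReal_le_ofReal ?_) _
    rw [div_le_div_iff₀ (by positivity) (by positivity), mul_pow, ← mul_assoc]
    exact mul_le_mul_of_nonneg_right hs (by positivity)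
  have hx : (1 : ℝ) ≤ 2 ^ J := one_le_pow₀ one_le_two
  have hJx := (GawA.geo J).2.2
  have hN' : (Q.card : ℝ) ≤ 784 * (2 ^ J) ^ 4 := by
    have h1 : 2 * 3 / h + 1 ≤ 28 * (2 ^ J) ^ 2 := by
      have h2 : 2 * 3 / h ≤ 24 * (2 ^ J) ^ 2 := by rw [div_le_iff₀ h0]; linarith
      nlinarith
    refine hN.trans ((pow_le_pow_left₀ (by positivity) h1 2).trans (le_of_eq (by ring)))
  have hNh : (2 : ℝ) ^ J * (Q.card / (2 ^ J) ^ 8) ≤ 3136 * h := by
    generalize (2 : ℝ) ^ J = x at *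
    have hx0 : 0 < x := by linarith
    rw [← mul_div_assoc, div_le_iff₀ (by positivity)]
    have h1 : x * Q.card ≤ x * (784 * x ^ 4) := mul_le_mul_of_nonneg_left hN' hx0.le
    have h2 : x ^ 5 ≤ x ^ 6 := pow_le_pow_right₀ hx (by norm_num)
    have h3 : x ^ 6 * 1 ≤ x ^ 6 * (x ^ 2 * 4 * h) := mul_le_mul_of_nonneg_left hJ2.le (by positivity)
    nlinarith
  have hsub : {ω | ∃ B : Finset (ℤ × ℤ), Ani h B ∧ ∀ u : ℤ × ℤ → ℝ, (∀ c ∈ B, ω ∉ bad c (u c)) →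
      (s * (1 + 132 * C) + 3136 * (p₀ + C)) * B.card < ∑ c ∈ B, u c} ⊆
      (⋃ c ∈ Q, bad c (s * 2 ^ J)) ∪ ⋃ j ∈ Finset.range J, {ω | ∃ B ⊆ Q, (∃ c₀, Anim c₀ B) ∧
        C * (B.card / ((16 ^ j : ℕ) : ℝ) + ((8 * J : ℕ) : ℝ)) <
          ({c | c ∈ B ∧ ω ∈ bad c (s * 2 ^ j)}.ncard : ℝ)} := by
    rintro ω ⟨B, hB, hu⟩
    by_contra hn
    simp only [mem_union, mem_iUnion, mem_ofPred_eq, not_or, not_exists, not_and, not_lt] at hn
    have hBQ : B ⊆ Q := fun c hc => (hQ' c).2 (hB.2.1 c hc)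
    obtain ⟨i, hi1, hi2⟩ := GawA.det (b := fun c j => ω ∈ bad c (s * 2 ^ j)) hC h0 hJ1 hB.2.2
      (fun c hc => hn.1 c (hBQ hc)) (fun j hj => hn.2 j hj B hBQ hB.1)
    have h1 := hu (fun c => s * 2 ^ i c) hi1
    rw [← Finset.mul_sum] at h1
    have h2 := mul_le_mul_of_nonneg_left hi2 hs0.le
    have h3 : (0 : ℝ) ≤ 3136 * (p₀ + C) * B.card := by positivity
    linarith
  have e1 : P (⋃ c ∈ Q, bad c (s * 2 ^ J)) ≤ ENNReal.ofReal (p₀ * (3136 * h)) := by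
    refine (measure_biUnion_finset_le _ _).trans ((Finset.sum_le_card_nsmul _ _
      (ENNReal.ofReal (p₀ / (2 ^ J) ^ 8)) fun c hc => ?_).trans ?_)
    · have := hlev J {c} (Finset.singleton_subset_iff.2 hc) (Finset.singleton_nonempty c)
        (fun a ha b hb hab => absurd ((Finset.mem_singleton.1 ha).trans
          (Finset.mem_singleton.1 hb).symm) hab)
      simpa using this
    · rw [nsmul_eq_mul, ← ENNReal.ofReal_natCast, ← ENNReal.ofReal_mul (Nat.cast_nonneg _)]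
      refine ENNReal.ofReal_le_ofReal ?_
      have h1 : (Q.card : ℝ) / (2 ^ J) ^ 8 ≤ 3136 * h :=
        (le_mul_of_one_le_left (by positivity) hx).trans hNh
      refine le_trans (le_of_eq (by ring)) (mul_le_mul_of_nonneg_left h1 hp₀.le)
  refine (measure_mono hsub).trans ((measure_union_le _ _).trans ((add_le_add e1
    ((measure_biUnion_finset_le _ _).trans (Finset.sum_le_card_nsmul _ _
      (ENNReal.ofReal (C * Q.card / 2 ^ (8 * J))) fun j _ => ?_))).trans ?_))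
  · refine hG Ω P (fun c => bad c (s * 2 ^ j)) Q (p₀ / (2 ^ j) ^ 8) (16 ^ j) (8 * J)
      (by positivity) (Nat.one_le_pow _ _ (by norm_num)) (le_of_eq ?_) (hlev j)
    have h1 : (16 : ℝ) ^ j = (2 ^ j) ^ 4 := by rw [← pow_mul, mul_comm, pow_mul]; norm_num
    push_cast
    rw [h1]
    field_simp
  · rw [Finset.card_range, nsmul_eq_mul, ← ENNReal.ofReal_natCast,
      ← ENNReal.ofReal_mul (Nat.cast_nonneg _),
      ← ENNReal.ofReal_add (by positivity) (by positivity)]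
    refine ENNReal.ofReal_le_ofReal ?_
    have h1 : (J : ℝ) * (Q.card / (2 ^ J) ^ 8) ≤ 3136 * h :=
      (mul_le_mul_of_nonneg_right hJx (by positivity)).trans hNh
    have h2 := mul_le_mul_of_nonneg_left h1 hC.le
    have h3 : (J : ℝ) * (C * Q.card / 2 ^ (8 * J)) = C * (J * (Q.card / (2 ^ J) ^ 8)) := by
      rw [mul_comm 8 J, pow_mul]
      ring
    have h5 : 0 ≤ s * (1 + 132 * C) * h := by positivity
    rw [h3]
    linarith

end Pool.Agent.P.MP_d66c6d_pr
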