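import Pool.Agent.P.MP_d66c6d_pr.M.Iface
import Pool.Agent.P.MP_d66c6d_pr.H.Iface
import Pool.Agent.P.MP_d66c6d_pr.N.Iface
import Pool.Agent.P.MP_d66c6d_pr.L.Iface
import Pool.Agent.P.MP_d66c6d_pr.F.Iface
import Pool.Agent.P.MP_d66c6d_pr.D.Iface

/-! Step GHU of the carpet project. -/

namespace Pool.Agent.P.MP_d66c6d_pr

open MeasureTheory ProbabilityTheory Set Metric Filter Topology
open scoped ENNReal

namespace GhuA

/-- Hugging crossings at all scales. -/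
def HH (R : ℝ) : Set (Cfg KC) :=
  {S | Near (sets S) ∧ ∀ k : ℕ, BBA (sets S) (ball 0 R)ᶜ (1 / ((k : ℝ) + 20))}

theorem measurableSet_HH (hDMEA : S_DMEA) (hDMEB : S_DMEB) (R : ℝ) : MeasurableSet (HH R) := by
  have h : HH R = {S | Near (sets S)} ∩
      ⋂ k : ℕ, {S | BBA (sets S) (ball 0 R)ᶜ (1 / ((k : ℝ) + 20))} := by
    ext S
    simp [HH]
  rw [h]
  exact hDMEA.2.2.2.2.2.inter (MeasurableSet.iInter fun k => hDMEB.2 _ _)

/-- A change of the intensity on a set of finite mass. -/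
theorem null_of_half (hPPO : S_PPO) (hPPA : S_PPA) {μ : Measure KC} [SFinite μ] {B : Set KC}
    (hB : MeasurableSet B) (hfin : μ B ≠ ∞) {c : ℝ≥0∞} (hc0 : c ≠ 0) (hc : c ≠ ∞)
    {H : Set (Cfg KC)} (hH : MeasurableSet H)
    (h : PP (c • μ) {S | PP ((c • μ).restrict Bᶜ) {S' | S ∪ S' ∈ H} ≠ 0} = 0) :
    PP ((c + c) • μ) H = 0 := by
  have hu : Measurable fun p : Cfg KC × Cfg KC => p.1 ∪ p.2 := by fun_prop
  have hf : ∀ d : ℝ≥0∞, d ≠ ∞ → IsFiniteMeasure ((d • μ).restrict B) := fun d hd =>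
    ⟨by
      rw [Measure.restrict_apply_univ, Measure.smul_apply, smul_eq_mul]
      exact ENNReal.mul_lt_top hd.lt_top hfin.lt_top⟩
  have hcc : c + c ≠ ∞ := ENNReal.add_ne_top.2 ⟨hc, hc⟩
  have hac : PP (((c + c) • μ).restrict B) ≪ PP ((c • μ).restrict B) := by
    refine (hPPA KC _ _).1 (hf _ hcc) (hf _ hc) ?_
    rw [Measure.restrict_smul, Measure.restrict_smul]
    exact (Measure.smul_absolutelyContinuous).trans (Measure.absolutelyContinuous_smul hc0)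
  have h1 : PP (((c + c) • μ).restrict B + (c • μ).restrict Bᶜ) ≪ PP (c • μ) := by
    conv_rhs => rw [← Measure.restrict_add_restrict_compl (μ := c • μ) hB]
    rw [← (hPPO KC _ inferInstance).1 _ inferInstance, ← (hPPO KC _ inferInstance).1 _ inferInstance]
    exact (hac.prod Measure.AbsolutelyContinuous.rfl).map hu
  have e : (c + c) • μ = ((c + c) • μ).restrict B + (c • μ).restrict Bᶜ + (c • μ).restrict Bᶜ := by
    conv_lhs => rw [← Measure.restrict_add_restrict_compl (μ := (c + c) • μ) hB]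
    rw [add_assoc, ← Measure.restrict_add, ← add_smul]
  rw [e, ← (hPPO KC _ inferInstance).1 _ inferInstance, Measure.map_apply hu hH,
    Measure.measure_prod_null (hu hH)]
  exact h1 h

/-- The deterministic contradiction. -/
theorem det (hBBG : S_BBG) (hDMON : S_DMON) {V : Set ℂ} {T : ℝ → Set (Set ℂ)} {c c₁ R : ℝ}
    {S : Cfg KC} (hV : IsJordan V) (h3 : ball 0 3 ⊆ V) (hR : V ⊆ ball 0 R) (hL : Lay V T c c₁)
    (hH : Hol V (T c)) (hT : T c = ins V (sets S)) :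
    ∃ D : Set ℂ, D.Countable ∧ D ⊆ closedBall 0 2 ∧ ∀ S' : Cfg KC,
      (∀ x ∈ D, ∀ r > (0 : ℝ), ∃ K : KC, K ∈ S'.pts ∧ ∃ s > (0 : ℝ),
        ball x s ⊆ fill (K : Set ℂ) ∧ (K : Set ℂ) ⊆ ball x r) →
      S ∪ S'.res (bigK (1 / 25))ᶜ ∉ HH R := by
  obtain ⟨D, hD, hD2, hD3⟩ := hBBG V T c c₁ hV h3 hL hH
  refine ⟨D, hD, hD2, fun S' hS' hS => ?_⟩
  have b1 : T c ⊆ sets (S ∪ S'.res (bigK (1 / 25))ᶜ) := by
    rw [hT, sets_union]
    exact fun K hK => Or.inl hK.1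
  have b2 : ∀ K ∈ sets (S ∪ S'.res (bigK (1 / 25))ᶜ), 1 / 25 ≤ diam K →
      (K ∩ closedBall 0 2).Nonempty → K ∈ T c := by
    intro K hK h1 h2
    rw [hT]
    refine ⟨?_, (hS.1 K hK h2).trans h3⟩
    rw [sets_union] at hK
    rcases hK with hK | ⟨K', hK', rfl⟩
    · exact hK
    · exact absurd h1 hK'.2
  have b3 : ∀ x ∈ D, ∀ r > (0 : ℝ), ∃ K ∈ sets (S ∪ S'.res (bigK (1 / 25))ᶜ), ∃ s > (0 : ℝ),
      ball x s ⊆ fill K ∧ K ⊆ ball x r := by
    intro x hx r hr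
    obtain ⟨K, hK, s, hs, h1, h2⟩ := hS' x hx (min r (1 / 100)) (by positivity)
    refine ⟨K, ⟨K, Or.inr ⟨hK, fun h => ?_⟩, rfl⟩, s, hs, h1,
      h2.trans (ball_subset_ball (min_le_left _ _))⟩
    have h4 : diam (K : Set ℂ) ≤ 2 * (1 / 100) :=
      (diam_mono (h2.trans (ball_subset_ball (min_le_right _ _))) isBounded_ball).trans
        (diam_ball (by norm_num))
    have h5 : (1 : ℝ) / 25 ≤ diam (K : Set ℂ) := h
    linarith
  obtain ⟨δ, hδ, hn⟩ := hD3 _ b1 b2 b3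
  obtain ⟨k, hk⟩ := exists_nat_one_div_lt hδ
  have h1 : 1 / ((k : ℝ) + 20) ≤ δ :=
    (one_div_le_one_div_of_le (by positivity) (by linarith)).trans hk.le
  refine hn fun ξ hξ => ?_
  obtain ⟨γ, a1, a2, a3⟩ := hDMON.2.2.2.2.2.2.2.2.1 _ _ _ _ h1 (hS.2 k) ξ hξ
  exact ⟨γ, a1, compl_subset_compl.2 hR a2, a3⟩

end GhuA

theorem p_GHU (hTRX : S_TRX) (hBBG : S_BBG) (hSURK : S_SURK) (hLVA : S_LVA) (hPPO : S_PPO) (hPPA : S_PPA) (hMUK : S_MUK) (hDMEA : S_DMEA) (hDMEB : S_DMEB) (hDMON : S_DMON) :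
    S_GHU := by
  intro ν hν c₀ c₂ θ₂ R a h0 h02 h21 hL hR hD
  have hH := GhuA.measurableSet_HH hDMEA hDMEB R
  have hB : MeasurableSet (bigK (1 / 25)) := measurableSet_bigK _
  obtain ⟨-, hsf, -, ⟨C, -, hC⟩, -⟩ := hMUK ν hν
  have hu : Measurable fun p : Cfg KC × Cfg KC => p.1 ∪ p.2 := by fun_prop
  have hlev : ∀ c : ℝ, 0 ≤ c → c ≤ 1 → ∀ E, MeasurableSet E →
      lsoup ν c R (lev c ⁻¹' E) = soupN ν c (ball 0 R) E := fun c h1 h2 E hE =>
    ((hLVA ν hν c ⟨h1, h2⟩ (ball 0 R) isOpen_ball).2.2.1 c ⟨le_rfl, h2⟩).measure_preimage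
      hE.nullMeasurableSet
  have hnull : soupN ν c₀ (ball 0 R) (GhuA.HH R) = 0 := by
    have e : ENNReal.ofReal c₀ = ENNReal.ofReal (c₀ / 2) + ENNReal.ofReal (c₀ / 2) := by
      rw [← ENNReal.ofReal_add (by linarith) (by linarith), add_halves]
    rw [soupN, e]
    refine GhuA.null_of_half hPPO hPPA hB ?_ (ENNReal.ofReal_pos.2 (by linarith)).ne'
      ENNReal.ofReal_ne_top hH ?_
    · rw [Measure.restrict_apply hB, inter_comm]
      exact ne_top_of_le_ne_top ENNReal.ofReal_ne_top (hC 0 R _ (by linarith) (by norm_num))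
    obtain ⟨φ, -, hφ⟩ := hTRX ν hν (c₀ / 2) c₂ θ₂ R a (by linarith) (by linarith) h21 hL hD
      (fun n => 1 / ((n : ℝ) + 1)) (fun n => by positivity) tendsto_one_div_add_atTop_nhds_zero_nat
    have hE : MeasurableSet {S : Cfg KC | PP ((ENNReal.ofReal (c₀ / 2) •
        (muK ν).restrict (inK (ball 0 R))).restrict (bigK (1 / 25))ᶜ)
          {S' | S ∪ S' ∈ GhuA.HH R} ≠ 0} :=
      ((measurable_measure_prodMk_left (hu hH)) (measurableSet_singleton 0)).compl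
    refine (hlev (c₀ / 2) (by linarith) (by linarith) _ hE).symm.trans
      (hφ _ (measurable_lev _ hE) fun S hS V c₁ hV h3 hVR hLay hHol _ _ => hS ?_)
    obtain ⟨D, hD1, hD2, hD3⟩ := GhuA.det hBBG hDMON (S := lev (c₀ / 2) S) hV h3 hVR hLay hHol rfl
    have hm : MeasurableSet {S' | lev (c₀ / 2) S ∪ S' ∈ GhuA.HH R} :=
      (Measurable.cfgUnion measurable_const measurable_id) hH
    rw [← (hPPO KC _ inferInstance).2.1 _ hB.compl, Measure.map_apply (measurable_res hB.compl) hm]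
    have hae := (ae_ball_iff hD1).2 fun x hx => hSURK ν hν (c₀ / 2) (by linarith) (ball 0 R)
      isOpen_ball x (closedBall_subset_ball (by linarith) (hD2 hx))
    exact measure_mono_null (fun S' h1 h2 => hD3 S' h2 h1) hae
  have hlim := tendsto_measure_iInter_atTop (μ := lsoup ν c₀ R)
    (s := fun k : ℕ => GH c₀ R (1 / ((k : ℝ) + 20)))
    (fun k => (measurable_lev c₀ (hDMEA.2.2.2.2.2.inter (hDMEB.2 _ _))).nullMeasurableSet)
    (fun k l hkl S hS => ⟨hS.1, hDMON.2.2.2.2.2.2.2.2.1 _ _ _ _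
      (one_div_le_one_div_of_le (by positivity) (by
        have : (k : ℝ) ≤ l := by exact_mod_cast hkl
        linarith)) hS.2⟩)
    ⟨0, measure_ne_top _ _⟩
  have e : ⋂ k : ℕ, GH c₀ R (1 / ((k : ℝ) + 20)) = lev c₀ ⁻¹' GhuA.HH R := by
    ext S
    simp only [GH, GhuA.HH, mem_iInter, mem_preimage, mem_ofPred_eq, forall_and, forall_const]
  rw [e, hlev c₀ h0.le (by linarith) _ hH, hnull] at hlim
  exact hlim

end Pool.Agent.P.MP_d66c6d_pr
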