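import Pool.Agent.P.MP_d66c6d_pr.M.Iface
import Pool.Agent.P.MP_d66c6d_pr.D.Iface
import Pool.Agent.P.MP_d66c6d_pr.F.Iface

/-! Step GONE of the carpet project. -/

namespace Pool.Agent.P.MP_d66c6d_pr

open MeasureTheory ProbabilityTheory Set Metric Filter Topology
open scoped ENNReal

namespace GoneA

theorem zon_mono {T : Set (Set ℂ)} {z : ℂ} {r ε t t' : ℝ} (h : Zon T z r ε t) (ht : t ≤ t') :
    Zon T z r ε t' := by
  intro ξ hξ
  obtain ⟨ξ', h1, h2⟩ := h ξ hξ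
  refine ⟨ξ', h1, fun y hy y' hy' => ?_⟩
  obtain ⟨γ, e0, e1, e2, Z, hZ, hc⟩ := h2 y hy y' hy'
  exact ⟨γ, e0, e1, e2, Z, hZ.trans ht, hc⟩

theorem cost {θ t₀ τ s x y : ℝ} {k : ℕ} (hk : 3 ≤ k * (θ - 1)) (hs : 1 ≤ s) (ht : 1 ≤ t₀)
    (hτ : 2 * 10 ^ 7 * t₀ ≤ τ * s) (hx : 0 < x) (hy : 0 < y) (h : (s ^ k) ^ θ * x ≤ t₀ * y) :
    10 ^ 7 * (7 / 4 * s ^ k) * s * (s * x) ≤ τ * y := by
  have hs0 : 0 < s := by linarith
  have h1 : s ^ k * s ^ 3 ≤ (s ^ k) ^ θ := by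
    rw [← pow_add, ← Real.rpow_natCast, ← Real.rpow_natCast, ← Real.rpow_mul hs0.le]
    refine Real.rpow_le_rpow_of_exponent_le hs ?_
    push_cast
    linarith
  have h2 : s ^ k * s ^ 3 * x ≤ t₀ * y := (mul_le_mul_of_nonneg_right h1 hx.le).trans h
  refine le_of_mul_le_mul_right ?_ hs0
  have h3 : 10 ^ 7 * (7 / 4 * s ^ k) * s * (s * x) * s = 10 ^ 7 * (7 / 4) * (s ^ k * s ^ 3 * x) := by
    ring
  rw [h3]
  have h4 : 0 < t₀ * y := by positivity
  nlinarith [mul_le_mul_of_nonneg_right hτ hy.le]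

end GoneA

open GoneA in
theorem p_GONE (hZSM : S_ZSM) (hSMP : S_SMP) (hZFIV : S_ZFIV) (hGRID : S_GRID) (hPPO : S_PPO) (hMUK : S_MUK) :
    S_GONE := by
  intro ν hν κ L c θ a hκ hL hc hN hθ hS hT τ hτ p hp
  obtain ⟨hpos, t₀, ht₀, hM, -⟩ := hN
  obtain ⟨δ, -, hδ, hδp⟩ := ENNReal.lt_iff_exists_real_btwn.1 (pos_iff_ne_zero.2 hp)
  rw [ENNReal.ofReal_pos] at hδ
  obtain ⟨k₀, hk₀⟩ := exists_nat_ge (3 / (θ - 1))
  rw [div_le_iff₀ (by linarith)] at hk₀
  set k : ℕ := k₀ + 2 with hkdef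
  have hk : 3 ≤ (k : ℝ) * (θ - 1) := by
    rw [hkdef]
    push_cast
    nlinarith
  obtain ⟨Cz, hCz, hZ⟩ := hZSM ν hν κ L c hκ hL hc
  obtain ⟨hTame, hSm⟩ := hSMP ν hν c hS
  obtain ⟨C, hC⟩ := hSm ((2 * k + 1 : ℕ) : ℝ) (Nat.cast_nonneg _)
  obtain ⟨A, ε₁, hε₁, hA⟩ := hT 1 one_pos (2 * k + 1)
  set K : ℝ := 13 * |C| + 225 * (Cz.toReal * |A|) with hK
  have hK0 : 0 ≤ K := by positivity
  obtain ⟨s, hs1, hs2, hs3, hs4⟩ : ∃ s : ℝ, 100 ≤ s ∧ 8 * L ≤ s ∧ 2 * 10 ^ 7 * t₀ / τ ≤ s ∧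
      K / δ ≤ s :=
    ⟨max (max 100 (8 * L)) (max (2 * 10 ^ 7 * t₀ / τ) (K / δ)),
      le_max_of_le_left (le_max_left _ _), le_max_of_le_left (le_max_right _ _),
      le_max_of_le_right (le_max_left _ _), le_max_of_le_right (le_max_right _ _)⟩
  have hs0 : 0 < s := by linarith
  have hs : 1 ≤ s := by linarith
  rw [div_le_iff₀ hτ] at hs3
  rw [div_le_iff₀ hδ] at hs4
  set M : ℝ := s ^ k with hMdef
  have hMs : s * s ≤ M := by
    have h1 : 1 ≤ s ^ k₀ := one_le_pow₀ hs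
    rw [hMdef, hkdef, pow_add]
    nlinarith [mul_pos hs0 hs0]
  have hM1 : s ≤ M := by nlinarith
  have hM0 : 0 < M := by linarith
  obtain ⟨ε₀, hε₀, hNM⟩ := hM M (by linarith)
  refine ⟨M⁻¹, ⟨inv_pos.2 hM0, ?_⟩, min ε₀ ε₁ / M, div_pos (lt_min hε₀ hε₁) hM0,
    fun z r hr ε hε => ?_⟩
  · rw [inv_lt_comm₀ hM0 (by norm_num)]
    linarith
  set g : ℝ := M⁻¹ * r with hg
  have hg0 : 0 < g := mul_pos (inv_pos.2 hM0) hr
  have hrg : r = M * g := by
    rw [hg]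
    field_simp
  have hx0 : 0 < ε / g := div_pos hε.1 hg0
  have hx1 : ε / g < min ε₀ ε₁ := by
    rw [div_lt_iff₀ hg0]
    refine hε.2.trans_le (le_of_eq ?_)
    rw [hg]
    field_simp
  obtain ⟨c', hc', hR⟩ := hA (ε / g) ⟨hx0, hx1.trans_le (min_le_right _ _)⟩
  have hR' := hR c ⟨le_rfl, hc'.le⟩ s hs
  have hN1 := (hNM (ε / g) ⟨hx0, hx1.trans_le (min_le_left _ _)⟩).1
  have e1 : ε / g / M = ε / r := by
    rw [hrg]
    field_simp
  rw [e1] at hN1
  have hcost := cost (τ := τ) hk hs ht₀ (by linarith) (hpos _ hx0) (hpos _ (div_pos hε.1 hr)) hN1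
  obtain ⟨Q, hQ, hQc⟩ := hGRID.1 (g / 2) (2 * (7 / 4 * r)) z (by linarith) (by linarith)
  have hD : MeasurableSet (locK z r g) :=
    (isOpen_inK isOpen_ball).measurableSet.inter (measurableSet_bigK _).compl
  set P := PP (ENNReal.ofReal c • (muK ν).restrict (locK z r g)) with hP
  have hsub : {S : Cfg KC | ¬ Zon (sets S) z (7 / 4 * r) ε (τ * a (ε / r))} ⊆
      {S | ¬ Tame (sets S)} ∪ ({S | ¬ Sm (sets S) (ball z (2 * (7 / 4 * r))) (s * g)} ∪
        ⋃ q ∈ Q, ZB (gp (g / 2) q) g ε (s * a (ε / g))) := by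
    intro S hS'
    by_contra hn
    simp only [mem_union, mem_ofPred_eq, not_or, not_not, mem_iUnion, not_exists, ZB] at hn
    refine hS' (zon_mono (hZFIV (sets S) z (7 / 4 * r) g (s * g) ε (s * a (ε / g)) hn.1 hg0
      (by nlinarith) ?_ (mul_pos hs0 (hpos _ hx0)).le hn.2.1
      fun q hq => hn.2.2 q ((hQ q).2 hq)) ?_)
    · rw [hrg]
      nlinarith [mul_le_mul_of_nonneg_right hMs hg0.le, mul_pos hs0 hg0]
    · have e2 : 7 / 4 * r / g = 7 / 4 * M := by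
        rw [hrg]
        field_simp
      have e3 : s * g / g = s := by field_simp
      rw [e2, e3]
      exact hcost
  have h1 : P {S | ¬ Tame (sets S)} = 0 := by
    refine hTame (‖z‖ + 5 * r) _ hD fun K hK x hx => ?_
    have h := mem_ball.1 (hK.1 hx)
    have h' := dist_triangle x z 0
    rw [dist_zero_right z] at h'
    exact mem_ball.2 (by linarith)
  have hpw : s ^ (2 * k + 1) = M ^ 2 * s := by
    rw [hMdef]
    ring
  have h2 : P {S | ¬ Sm (sets S) (ball z (2 * (7 / 4 * r))) (s * g)} ≤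
      ENNReal.ofReal (13 * |C| / s) := by
    refine (hC z _ g (s * g) _ hg0 (by rw [hrg]; nlinarith) (by nlinarith) hD
      inter_subset_right).trans (ENNReal.ofReal_le_ofReal ?_)
    have e2 : 2 * (7 / 4 * r) / g = 7 / 2 * M := by
      rw [hrg]
      field_simp
      norm_num
    have e3 : s * g / g = s := by field_simp
    rw [e2, e3, Real.rpow_neg hs0.le, Real.rpow_natCast, hpw]
    have e4 : C * (7 / 2 * M) ^ 2 * (M ^ 2 * s)⁻¹ = 49 / 4 * C / s := by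
      field_simp
      ring
    rw [e4]
    refine div_le_div_of_nonneg_right ?_ hs0.le
    linarith [le_abs_self C, abs_nonneg C]
  have h3 : ∀ q ∈ Q, P (ZB (gp (g / 2) q) g ε (s * a (ε / g))) ≤
      ENNReal.ofReal (Cz.toReal * |A| / (M ^ 2 * s)) := by
    intro q hq
    refine (hZ (gp (g / 2) q) g ε _ (ball z (5 * r)) _ hg0 isOpen_ball
      (ball_subset_ball' ?_) hR').trans ?_
    · have h := (hQ q).1 hq
      have : 8 * L * g ≤ r := by
        rw [hrg]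
        exact mul_le_mul_of_nonneg_right (by linarith) hg0.le
      nlinarith
    · rw [mul_div_assoc, ENNReal.ofReal_mul ENNReal.toReal_nonneg, ENNReal.ofReal_toReal hCz, hpw]
      gcongr
      exact le_abs_self A
  have h4 : P (⋃ q ∈ Q, ZB (gp (g / 2) q) g ε (s * a (ε / g))) ≤
      ENNReal.ofReal (225 * (Cz.toReal * |A|) / s) := by
    refine (measure_biUnion_finset_le Q _).trans ((Finset.sum_le_card_nsmul _ _ _ h3).trans ?_)
    rw [nsmul_eq_mul, ← ENNReal.ofReal_natCast, ← ENNReal.ofReal_mul (Nat.cast_nonneg _)]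
    refine ENNReal.ofReal_le_ofReal ?_
    have e2 : 2 * (2 * (7 / 4 * r)) / (g / 2) = 14 * M := by
      rw [hrg]
      field_simp
      norm_num
    rw [e2] at hQc
    have e3 : (Q.card : ℝ) ≤ 225 * M ^ 2 := by nlinarith
    refine (mul_le_mul_of_nonneg_right e3 (by positivity)).trans (le_of_eq ?_)
    field_simp
  refine (measure_mono hsub).trans ((measure_union_le _ _).trans ?_)
  rw [h1, zero_add]
  refine (measure_union_le _ _).trans ((add_le_add h2 h4).trans ?_)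
  rw [← ENNReal.ofReal_add (by positivity) (by positivity), ← add_div, ← hK]
  refine (ENNReal.ofReal_le_ofReal ?_).trans hδp.le
  rw [div_le_iff₀ hs0]
  linarith

end Pool.Agent.P.MP_d66c6d_pr
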