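import Pool.Agent.P.MP_d66c6d_pr.M.Iface
import Pool.Agent.P.MP_d66c6d_pr.H.Iface
import Pool.Agent.P.MP_d66c6d_pr.D.Iface

/-! Step GUL of the carpet project. -/

namespace Pool.Agent.P.MP_d66c6d_pr

open MeasureTheory ProbabilityTheory Set Metric Filter Topology
open scoped ENNReal

namespace GulA

theorem mGZ (hDMEA : S_DMEA) (hDMEZ : S_DMEZ) (c R ε t : ℝ) : MeasurableSet (GZ c R ε t) :=
  (measurable_lev c) (hDMEA.2.2.2.2.2.inter (hDMEZ (ball 0 R)ᶜ 0 1 ε t).compl)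

theorem mGN (hDMEA : S_DMEA) (c R ε t : ℝ) : MeasurableSet (GN c R ε t) :=
  (measurable_lev c) (hDMEA.2.2.2.1 (ball 0 R)ᶜ ε t)

end GulA

theorem p_GUL (hTRX : S_TRX) (hLS3 : S_LS3) (hAPRU : S_APRU) (hAPRL : S_APRL) (hCZN : S_CZN) (hDMEA : S_DMEA) (hDMEZ : S_DMEZ) (hDMON : S_DMON) :
    S_GUL := by
  intro ν hν c₀ c₂ θ θ₂ R a hc₀ hc₂ hc₂1 hL hN hD e he he0
  obtain ⟨φ, hφ, hT⟩ := hTRX ν hν c₀ c₂ θ₂ R a hc₀ hc₂ hc₂1 hL hD e he he0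
  obtain ⟨hapos, t₀, ht₀, -, ε₁, hε₁, hlow⟩ := hN
  have he' : ∀ j, 0 < (e ∘ φ) j := fun j => he _
  have he0' : Tendsto (e ∘ φ) atTop (𝓝 0) := he0.comp hφ.tendsto_atTop
  have ht0 : 0 < t₀ := by linarith
  have ha₀ : ∀ᶠ j in atTop, 1 / t₀ ≤ a ((e ∘ φ) j) := by
    filter_upwards [he0'.eventually (gt_mem_nhds hε₁)] with j hj
    rw [div_le_iff₀ ht0, mul_comm]
    exact (hlow _ ⟨he' j, hj⟩).1
  refine ⟨φ, hφ, fun τ hτ => ⟨?_, ?_⟩⟩
  · obtain ⟨C, hC⟩ := hLS3 _ (lsoup ν c₀ R)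
      (fun C j c => GZ c R (e (φ j)) ((C : ℝ) * a (e (φ j)))) c₀
      (fun C j c => GulA.mGZ hDMEA hDMEZ _ _ _ _) (fun E hE hS => hT E hE
        fun S hSE V c₁ hV h3 hR hLay hHol hXU _ => hS S hSE (by
          obtain ⟨C, hC⟩ := hAPRU V (fun c => ins V (sets (lev c S))) c₀ c₁ a (e ∘ φ) (1 / t₀)
            hV h3 hLay hHol hXU he' he0' (by positivity) ha₀
          refine ⟨⌈C⌉₊, hC.mono fun j ⟨c', hc', hj⟩ => ⟨c', hc', fun c hc C' hC' hmem => ?_⟩⟩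
          refine hmem.2 (hDMON.2.2.2.1 _ _ _ _ _ _ _ _ _ Subset.rfl le_rfl ?_
            (hCZN.2 R V _ hmem.1 h3 hR _ _ (hj c hc)))
          have h1 : C ≤ (C' : ℝ) := (Nat.le_ceil C).trans (by exact_mod_cast hC')
          exact mul_le_mul_of_nonneg_right h1 (hapos _ (he _)).le)) τ hτ
    exact ⟨C, Nat.cast_nonneg _, hC⟩
  · obtain ⟨C, hC⟩ := hLS3 _ (lsoup ν c₀ R)
      (fun C j _ => GN c₀ R (e (φ j)) (1 / ((C : ℝ) + 1) * a (e (φ j)))) c₀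
      (fun C j c => GulA.mGN hDMEA _ _ _ _) (fun E hE hS => hT E hE
        fun S hSE V c₁ hV h3 hR hLay hHol hXU hXL => hS S hSE (by
          obtain ⟨t, ht, hC⟩ := hAPRL V (fun c => ins V (sets (lev c S))) c₀ c₁ a (e ∘ φ)
            hV h3 hLay hHol hXU hXL he' he0'
          refine ⟨⌈1 / t⌉₊, hC.mono fun j hj =>
            ⟨c₀ + 1, by linarith, fun c _ C' hC' hmem => hj ?_⟩⟩
          refine hDMON.2.2.2.2.2.1 _ _ _ _ _ _ _ _ (fun K hK => hK.1)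
            (compl_subset_compl.2 hR) le_rfl ?_ hmem
          have h1 : 1 / t ≤ (C' : ℝ) := (Nat.le_ceil _).trans (by exact_mod_cast hC')
          have h2 : 1 / ((C' : ℝ) + 1) ≤ t := by
            rw [div_le_iff₀ ht] at h1
            rw [div_le_iff₀ (by positivity)]
            nlinarith
          exact mul_le_mul_of_nonneg_right h2 (hapos _ (he _)).le)) τ hτ
    refine ⟨1 / ((C : ℝ) + 1), by positivity, hC.mono fun j ⟨c', hc', hj⟩ => ?_⟩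
    exact hj c₀ ⟨le_rfl, hc'.le⟩

end Pool.Agent.P.MP_d66c6d_pr
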