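import Pool.Agent.P.MP_d66c6d_pr.M.Iface
import Pool.Agent.P.MP_d66c6d_pr.A.Iface
import Pool.Agent.P.MP_d66c6d_pr.D.Iface

/-! Step HUG of the carpet project. -/

namespace Pool.Agent.P.MP_d66c6d_pr

open MeasureTheory ProbabilityTheory Set Metric Filter Topology
open scoped ENNReal

namespace HugA

theorem pos (k : ℕ) : (0 : ℝ) < 1 / ((k : ℝ) + 20) := by positivity

theorem le (k : ℕ) : 1 / ((k : ℝ) + 20) ≤ 1 / 20 :=
  one_div_le_one_div_of_le (by norm_num) (by linarith [Nat.cast_nonneg (α := ℝ) k])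

end HugA

theorem p_HUG (hGHU : S_GHU) (hRZS : S_RZS) (hDAT : S_DAT) (hCZN : S_CZN) (hFAR : S_FAR) (hDMEA : S_DMEA) (hDMEB : S_DMEB) :
    S_HUG := by
  intro ν κ L β Θ hE c hc lam hlam p hp
  obtain ⟨hc0, hc1⟩ := hc
  obtain ⟨a, -, R, hR, hD⟩ := hDAT ν hE.br (c / 2) (Θ (c / 2))
    (hE.all _ ⟨by linarith, by linarith⟩)
  have h2 : Lvl ν ((c + 1 / 2) / 2) (Θ ((c + 1 / 2) / 2)) := hE.all _ ⟨by linarith, by linarith⟩
  have hG := hGHU ν hE.br c _ _ R a hc0 (by linarith) (by linarith) h2 hR (hD R le_rfl)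
  have hZ := hRZS ν hE.br L β hE.str c _ _ R hc0 (by linarith) (by linarith) h2 hR (fun _ => c)
    (fun k => BE 0 1 (1 / ((k : ℝ) + 20))) (fun k => GH c R (1 / ((k : ℝ) + 20)))
    (fun _ => le_rfl) tendsto_const_nhds
    (fun k => ⟨hDMEB.1 _ _ _,
      measurable_lev c (hDMEA.2.2.2.2.2.inter (hDMEB.2 (ball 0 R)ᶜ (1 / ((k : ℝ) + 20))))⟩) hG
    (fun J => Eventually.of_forall fun k X hX 𝒯 h𝒯 => by
      obtain ⟨i, hi⟩ := (hCZN.1 R _ J _ h𝒯).2.2 _ (HugA.le k) hX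
      exact ⟨i, h𝒯.near i, hi⟩)
  obtain ⟨k, hk⟩ := (hZ.2.2 κ hE.ucs (fun k => hFAR.2.1 0 1 _ one_pos
    ((HugA.le k).trans (by norm_num))) lam hlam p hp).exists
  exact ⟨_, ⟨HugA.pos k, (HugA.le k).trans (by norm_num)⟩, hk⟩

end Pool.Agent.P.MP_d66c6d_pr
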