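import Pool.Agent.P.MP_d66c6d_pr.H.Iface

/-!
The probabilistic chain: rare events, animals, tails, transfer, right continuity, strictness.
-/

namespace Pool.Agent.P.MP_d66c6d_pr

open MeasureTheory ProbabilityTheory Set Metric Filter Topology
open scoped ENNReal

/-- A coin that shows `true` with probability `ρ`. -/
noncomputable def coin (ρ : ℝ) : Measure Bool :=
  ENNReal.ofReal (1 - ρ) • Measure.dirac false + ENNReal.ofReal ρ • Measure.dirac true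

/-- A crossing of cost `n` visits the cells of `I`, all of which are ready for a shortcut. -/
def HE (R r g ε u : ℝ) (n₀ : ℕ) (G : ℤ × ℤ → Set (Cfg KC)) (n : ℕ) (I : Finset (ℤ × ℤ)) :
    Set (Cfg KC) :=
  {S | Via (sets S) {γ ∈ CrsB | Cov ε n (range γ) ∧
      ∀ c ∈ I, (range γ ∩ closedBall (gp (r / 2) c) (r / 2)).Nonempty} ∧
    ∀ c ∈ I, S ∈ vd (bigK (R / 25) ∩ hitK (ball (gp (r / 2) c) (4 * r))) ∧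
      S ∉ NE (gp (r / 2) c) r ε u ∧ S.res (locK (gp (r / 2) c) r g) ∈ G c ∧
      (S.pts ∩ midK (gp (r / 2) c) r g R).encard ≤ n₀}

-- deps: DLOC DMEA DMEZ DMEB
/-- Local, far and outside events. -/
def S_FAR : Prop :=
  (∀ z r ε t, 0 < r → LocE z r (ZB z r ε t) ∧ LocE z r (NE z r ε t)) ∧
  (∀ z r δ, 0 < r → δ ≤ r / 2 → LocE z r (BE z r δ)) ∧
  (∀ z r E, 0 < r → LocE z r E → FarE z (3 * r) E) ∧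
  (∀ z ρ, 0 < ρ → FarE z (9 * ρ) (NoCE z ρ)) ∧
  (∀ z z' s s' E, dist z z' + s ≤ s' → FarE z s E → FarE z' s' E) ∧
  (∀ z s E E', FarE z s E → FarE z s E' → FarE z s (E ∩ E') ∧ FarE z s (E ∪ E')) ∧
  (∀ (ι : Type) (I : Finset ι) z s (E : ι → Set (Cfg KC)), (∀ i ∈ I, FarE z s (E i)) →
    FarE z s (⋃ i ∈ I, E i)) ∧
  (∀ z ρ, OutE z ρ univ) ∧ (∀ z ρ F F', OutE z ρ F → OutE z ρ F' → OutE z ρ (F ∩ F')) ∧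
  (∀ z z' ρ ρ' F, dist z' z + 10 * ρ' ≤ 10 * ρ → OutE z ρ F → OutE z' ρ' F) ∧
  ∀ ν κ c lam z z' ρ ρ' m, 0 < lam → dist z' z + 10 * ρ' ≤ 10 * ρ → Adm ν κ c lam z ρ m →
    Adm ν κ c lam z' ρ' m

-- deps: FAR
/-- The calculus of rare events. -/
def S_RARE : Prop := ∀ (ν : Measure Br) (κ c lam L : ℝ), 0 < lam → 0 < L →
  (∀ z r E E' p p', E ⊆ E' → p ≤ p' → Rare ν κ c lam L z r E' p → Rare ν κ c lam L z r E p') ∧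
  (∀ z r E p, 1 ≤ p → Rare ν κ c lam L z r E p) ∧
  (∀ z r E p q, Rare ν κ c lam L z r E p → Rare ν κ c lam L z r E q →
    Rare ν κ c lam L z r E (min p q)) ∧
  (∀ (ι : Type) (I : Finset ι) z r (E : ι → Set (Cfg KC)) (p : ι → ℝ≥0∞),
    (∀ i ∈ I, Rare ν κ c lam L z r (E i) (p i)) →
    Rare ν κ c lam L z r (⋃ i ∈ I, E i) (∑ i ∈ I, p i)) ∧
  (∀ z r E E' p p', Rare ν κ c lam L z r E p → Rare ν κ c lam L z r E' p' →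
    Rare ν κ c lam L z r (E ∪ E') (p + p')) ∧
  (∀ z z' r r' E p, dist z' z + 10 * (L * r') ≤ 10 * (L * r) → Rare ν κ c lam L z' r' E p →
    Rare ν κ c lam L z r (E ∩ NoCE z' (L * r')) p) ∧
  (∀ z z₁ z₂ r r' E₁ E₂ p₁ p₂, 0 < r' → dist z₁ z + 10 * (L * r') ≤ 10 * (L * r) →
    dist z₂ z + 10 * (L * r') ≤ 10 * (L * r) → 20 * (L * r') ≤ dist z₁ z₂ →
    FarE z₂ (10 * (L * r')) E₂ → Rare ν κ c lam L z₁ r' E₁ p₁ → Rare ν κ c lam L z₂ r' E₂ p₂ →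
    Rare ν κ c lam L z r (E₁ ∩ NoCE z₁ (L * r') ∩ (E₂ ∩ NoCE z₂ (L * r'))) (p₁ * p₂)) ∧
  ∀ (ι : Type) (I : Finset ι) (z : ι → ℂ) (r : ℝ) (E : ι → Set (Cfg KC)) (p : ℝ≥0∞)
    (m : Measure KC), 0 < r → (∀ i ∈ I, ∀ j ∈ I, i ≠ j → 20 * (L * r) ≤ dist (z i) (z j)) →
    (∀ i ∈ I, Adm ν κ c lam (z i) (L * r) m ∧ FarE (z i) (10 * (L * r)) (E i) ∧
      Rare ν κ c lam L (z i) r (E i) p) →
    PP m (⋂ i ∈ I, E i ∩ NoCE (z i) (L * r)) ≤ p ^ I.card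

-- deps: DSIM DMEA DMEZ DMEB PPO MUK
/-- Transport of rare events. -/
def S_RTR : Prop := ∀ ν : Measure Br, IsBridge ν → ∀ (κ c lam L : ℝ) (z : ℂ) (r : ℝ) (p : ℝ≥0∞),
  0 < r →
  (∀ ε t, Rare ν κ c lam L 0 1 (ZB 0 1 ε t) p → Rare ν κ c lam L z r (ZB z r (ε * r) t) p) ∧
  (∀ ε t, Rare ν κ c lam L 0 1 (NE 0 1 ε t) p → Rare ν κ c lam L z r (NE z r (ε * r) t) p) ∧
  ∀ δ, Rare ν κ c lam L 0 1 (BE 0 1 δ) p → Rare ν κ c lam L z r (BE z r (δ * r)) p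

-- deps: PPA MUK DMEA DMON
/-- The models. -/
def S_MDL : Prop := ∀ ν : Measure Br, IsBridge ν → ∀ κ L c : ℝ, 1 ≤ κ → 10 ≤ L → 0 ≤ c →
  (∀ lam r : ℝ, r ≤ 1 / 2 → ∀ z ∈ closedBall (0 : ℂ) 3, Adm ν κ c lam z (L * r)
    (ENNReal.ofReal c • (muK ν).restrict (inK (ball 0 (10 * L))))) ∧
  (∀ (lam ρ : ℝ) (z : ℂ), 0 < ρ → Adm ν κ c lam z ρ
    (ENNReal.ofReal c • (muK ν).restrict (inK (ball z (11 * ρ))))) ∧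
  ∀ c₁ : ℝ, c ≤ c₁ → c₁ ≤ κ * c → ∀ R : ℝ, SigmaFinite (mdl ν L c c₁ R) ∧
    mdl ν L c c₁ R ≤ ENNReal.ofReal c₁ • (muK ν).restrict (inK (ball 0 (10 * L))) ∧
    (∀ lam r : ℝ, r ≤ 1 / 2 → lam * (L * r) ≤ R / 25 → ∀ z ∈ closedBall (0 : ℂ) 3,
      Adm ν κ c lam z (L * r) (mdl ν L c c₁ R)) ∧
    (∀ A, MeasurableSet A → A ⊆ inK (ball 0 (10 * L)) ∩ (bigK (R / 25))ᶜ →
      (mdl ν L c c₁ R).restrict A = ENNReal.ofReal c • (muK ν).restrict A) ∧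
    (∀ R' ≤ R, mdl ν L c c₁ R' = mdl ν L c c₁ R + ENNReal.ofReal (c₁ - c) • (muK ν).restrict
      (inK (ball 0 (10 * L)) ∩ bigK (R' / 25) ∩ (bigK (R / 25))ᶜ)) ∧
    ∀ ε t, soup ν c₁ (ball 0 (10 * L)) (NE 0 1 ε t) ≤ PP (mdl ν L c c₁ R) (NE 0 1 ε t) ∧
      PP (mdl ν L c c₁ R) (NE 0 1 ε t) ≤ soup ν c (ball 0 (10 * L)) (NE 0 1 ε t)

-- deps: WALK GRID
/-- Animals contain few bad cells. -/
def S_GA : Prop := ∀ k : ℕ, ∃ p₀ > (0 : ℝ), ∃ C > (0 : ℝ), ∀ (Ω : Type) [MeasurableSpace Ω]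
  (P : Measure Ω) (bad : ℤ × ℤ → Set Ω) (Q : Finset (ℤ × ℤ)) (p : ℝ) (l m : ℕ), 0 ≤ p → 1 ≤ l →
  (l : ℝ) ^ 2 * p ≤ p₀ →
  (∀ B ⊆ Q, B.Nonempty → Sep k B → P (⋂ c ∈ B, bad c) ≤ ENNReal.ofReal p ^ B.card) →
  P {ω | ∃ B ⊆ Q, (∃ c₀, Anim c₀ B) ∧
    C * (B.card / l + m) < ({c | c ∈ B ∧ ω ∈ bad c}.ncard : ℝ)} ≤
    ENNReal.ofReal (C * Q.card / 2 ^ m)

-- deps: GA GRID
/-- Macroscopic animals have few bad cells. -/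
def S_FEW : Prop := ∀ k : ℕ, ∃ p : ℝ≥0∞, p ≠ 0 ∧ ∃ C : ℝ, ∃ h₀ > (0 : ℝ), ∀ h ∈ Ioc 0 h₀,
  ∀ (Ω : Type) [MeasurableSpace Ω] (P : Measure Ω) (bad : ℤ × ℤ → Set Ω),
  (∀ B : Finset (ℤ × ℤ), B.Nonempty → Sep k B → (∀ c ∈ B, ‖gp h c‖ ≤ 3) →
    P (⋂ c ∈ B, bad c) ≤ p ^ B.card) →
  P {ω | Many h fun c => ω ∈ bad c} ≤ ENNReal.ofReal (C * h)

-- deps: GA GRID
/-- Greedy animals with polynomial tails. -/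
def S_GAW : Prop := ∀ (k : ℕ) (A : ℝ), ∃ C > (0 : ℝ), ∃ h₀ > (0 : ℝ), ∀ h ∈ Ioc 0 h₀,
  ∀ (Ω : Type) [MeasurableSpace Ω] (P : Measure Ω) (bad : ℤ × ℤ → ℝ → Set Ω),
  (∀ t : ℝ, 1 ≤ t → ∀ B : Finset (ℤ × ℤ), B.Nonempty → Sep k B → (∀ c ∈ B, ‖gp h c‖ ≤ 3) →
    P (⋂ c ∈ B, bad c t) ≤ ENNReal.ofReal (A / t ^ 8) ^ B.card) →
  P {ω | ∃ B : Finset (ℤ × ℤ), Ani h B ∧ ∀ u : ℤ × ℤ → ℝ,
    (∀ c ∈ B, ω ∉ bad c (u c)) → C * B.card < ∑ c ∈ B, u c} ≤ ENNReal.ofReal (C * h)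

-- deps: RARE RTR FAR ZONE ZTWO GRID DMON
/-- The two recursions for the connection cost. -/
def S_ZRC : Prop := ∀ ν : Measure Br, IsBridge ν → ∀ L : ℝ, 10 ≤ L → ∃ C : ℝ, 1 ≤ C ∧
  ∀ κ c lam : ℝ, 0 < lam →
  (∀ (M ε t₁ t₂ : ℝ) (p₁ p₂ : ℝ≥0∞), 100 * L ≤ M → 0 ≤ t₁ → 0 ≤ t₂ →
    Rare ν κ c lam L 0 1 (ZB 0 1 (ε * M) t₁) p₁ → Rare ν κ c lam L 0 1 (ZB 0 1 (ε * M) t₂) p₂ →
    Rare ν κ c lam L 0 1 (ZB 0 1 ε (C * t₁ + C * M ^ 2 * t₂))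
      (ENNReal.ofReal (C * M ^ 2) * p₁ + ENNReal.ofReal (C * M ^ 4) * p₂ ^ 2)) ∧
  ∀ (t : ℝ) (p : ℝ≥0∞), 0 ≤ t → Rare ν κ c lam L 0 1 (ZB 0 1 3 t) p →
    Rare ν κ c lam L 0 1 (ZB 0 1 3 (C * t)) (ENNReal.ofReal C * p ^ 2)

-- deps: ZRC RARE DMON
/-- Tails of the number of classes. -/
def S_TAIW : Prop := ∀ ν : Measure Br, IsBridge ν → ∀ (κ L c₀ : ℝ) (a : ℝ → ℝ), 10 ≤ L →
  TightU ν κ L c₀ a → ∀ lam > (0 : ℝ), ∀ α : ℕ, ∃ A : ℝ, ∃ c' > c₀, ∀ c ∈ Icc c₀ c',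
    ∀ t : ℝ, 1 ≤ t → Rare ν κ c lam L 0 1 (ZB 0 1 3 t) (ENNReal.ofReal (A / t ^ α))

-- deps: TAIW ZRC ZTHR RARE DMON
/-- Tails of the connection cost. -/
def S_TAIL : Prop := ∀ ν : Measure Br, IsBridge ν → ∀ (κ L c₀ θ : ℝ) (a : ℝ → ℝ), 10 ≤ L →
  Nrm a θ → 1 ≤ θ → TightU ν κ L c₀ a → TailU ν κ L c₀ a

-- deps: GAW RARE RTR FAR GRID ZREP BLK
/-- Refinement of a skeleton. -/
def S_REF : Prop := ∀ ν : Measure Br, IsBridge ν → ∀ L A : ℝ, 10 ≤ L → ∃ C > (0 : ℝ),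
  ∃ r₀ > (0 : ℝ), ∀ κ c lam : ℝ, 0 < lam → ∀ r ∈ Ioc 0 r₀, ∀ (ε s : ℝ) (m : Measure KC), 0 ≤ s →
  (∀ t : ℝ, 1 ≤ t →
    Rare ν κ c lam L 0 1 (ZB 0 1 (ε / r) (t * s)) (ENNReal.ofReal (A / t ^ 8))) →
  (∀ z ∈ closedBall (0 : ℂ) 3, Adm ν κ c lam z (L * r) m) →
  PP m {S | ∃ B, Skel (sets S) r B ∧ ¬ Nle (sets S) 0 1 ε (C * s * B.card)} ≤
    ENNReal.ofReal (C * r)

-- deps:
/-- From an almost sure statement to a uniform statement in probability. -/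
def S_LS3 : Prop := ∀ (Ω : Type) [MeasurableSpace Ω] (μ : Measure Ω) [IsFiniteMeasure μ]
  (B : ℕ → ℕ → ℝ → Set Ω) (c₀ : ℝ), (∀ C j c, MeasurableSet (B C j c)) →
  (∀ E, MeasurableSet E → (∀ ω ∈ E, ¬ ∃ C₀ : ℕ, ∀ᶠ j in atTop, ∃ c' > c₀, ∀ c ∈ Icc c₀ c',
    ∀ C ≥ C₀, ω ∉ B C j c) → μ E = 0) →
  ∀ τ : ℝ≥0∞, τ ≠ 0 → ∃ C : ℕ, ∀ᶠ j in atTop, ∃ c' > c₀, ∀ c ∈ Icc c₀ c', μ (B C j c) ≤ τ

-- deps: LAY LVB HOL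
/-- Events that contradict the structure of the carpet are null. -/
def S_TRX : Prop := ∀ ν : Measure Br, IsBridge ν → ∀ (c₀ c₂ θ₂ R : ℝ) (a : ℝ → ℝ), 0 < c₀ →
  c₀ < c₂ → c₂ ≤ 1 → Lvl ν c₂ θ₂ → Dat ν c₀ a R → ∀ e : ℕ → ℝ, (∀ n, 0 < e n) →
  Tendsto e atTop (𝓝 0) → ∃ φ : ℕ → ℕ, StrictMono φ ∧ ∀ E : Set (Cfg (KC × ℝ)), MeasurableSet E →
    (∀ S ∈ E, ∀ (V : Set ℂ) (c₁ : ℝ), IsJordan V → ball 0 3 ⊆ V → V ⊆ ball 0 R →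
      Lay V (fun c => ins V (sets (lev c S))) c₀ c₁ → Hol V (ins V (sets (lev c₀ S))) →
      XU (carp (ins V (sets (lev c₀ S))) V) a (e ∘ φ) →
      ¬ XL (carp (ins V (sets (lev c₀ S))) V) a (e ∘ φ)) →
    lsoup ν c₀ R E = 0

-- deps: TRX LS3 APRU APRL CZN DMEA DMEZ DMON
/-- The global bounds in probability. -/
def S_GUL : Prop := ∀ ν : Measure Br, IsBridge ν → ∀ (c₀ c₂ θ θ₂ R : ℝ) (a : ℝ → ℝ), 0 < c₀ →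
  c₀ < c₂ → c₂ ≤ 1 → Lvl ν c₂ θ₂ → Nrm a θ → Dat ν c₀ a R → ∀ e : ℕ → ℝ, (∀ n, 0 < e n) →
  Tendsto e atTop (𝓝 0) → ∃ φ : ℕ → ℕ, StrictMono φ ∧ ∀ τ : ℝ≥0∞, τ ≠ 0 →
    (∃ C : ℝ, 0 ≤ C ∧ ∀ᶠ j in atTop, ∃ c' > c₀, ∀ c ∈ Icc c₀ c',
      lsoup ν c₀ R (GZ c R (e (φ j)) (C * a (e (φ j)))) ≤ τ) ∧
    ∃ t > (0 : ℝ), ∀ᶠ j in atTop, lsoup ν c₀ R (GN c₀ R (e (φ j)) (t * a (e (φ j)))) ≤ τ

-- deps: TRX BBG SURK LVA PPO PPA MUK DMEA DMEB DMON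
/-- Global hugging crossings are unlikely. -/
def S_GHU : Prop := ∀ ν : Measure Br, IsBridge ν → ∀ (c₀ c₂ θ₂ R : ℝ) (a : ℝ → ℝ), 0 < c₀ →
  c₀ < c₂ → c₂ ≤ 1 → Lvl ν c₂ θ₂ → 3 ≤ R → Dat ν (c₀ / 2) a R →
  Tendsto (fun k : ℕ => lsoup ν c₀ R (GH c₀ R (1 / ((k : ℝ) + 20)))) atTop (𝓝 0)

-- deps: RNUL LVA PPO MUK REV
/-- Transfer from global events to the reference measures. -/
def S_RZS : Prop := ∀ ν : Measure Br, IsBridge ν → ∀ (L : ℝ) (β : Measure TP), Str ν L β →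
  ∀ c₀ c₂ θ₂ R : ℝ, 0 < c₀ → c₀ < c₂ → c₂ ≤ 1 → Lvl ν c₂ θ₂ → 3 ≤ R → ∀ (cs : ℕ → ℝ)
  (E : ℕ → Set (Cfg KC)) (G : ℕ → Set (Cfg (KC × ℝ))), (∀ k, c₀ ≤ cs k) →
  Tendsto cs atTop (𝓝 c₀) → (∀ k, MeasurableSet (E k) ∧ MeasurableSet (G k)) →
  Tendsto (fun k => lsoup ν c₀ R (G k)) atTop (𝓝 0) →
  (∀ J : ℕ, ∀ᶠ k in atTop, ∀ X ∈ E k, ∀ 𝒯 : Fin J → Cfg (KC × ℝ),
    Compl R (sets X) (fun i => sets (lev (cs k) (𝒯 i))) → ∃ i, 𝒯 i ∈ G k) →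
  (∀ n, Tendsto (fun k => refM ν (cs k) L β n (E k)) atTop (𝓝 0)) ∧
  Tendsto (fun k => soup ν (cs k) (ball 0 (10 * L)) (E k)) atTop (𝓝 0) ∧
  ∀ κ, UCS ν κ L β → (∀ k, LocE 0 1 (E k)) → ∀ lam > (0 : ℝ), ∀ p : ℝ≥0∞, p ≠ 0 →
    ∀ᶠ k in atTop, Rare ν κ (cs k) lam L 0 1 (E k) p

-- deps: GUL RZS CZN FAR RARE DMEA DMEZ DMON
/-- Tightness of the connection cost. -/
def S_TIGH : Prop := ∀ ν κ L β Θ, Env ν κ L β Θ → ∀ c ∈ Ioo (0 : ℝ) (1 / 2),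
  ∀ (θ R : ℝ) (a : ℝ → ℝ), Nrm a θ → 3 ≤ R → Dat ν c a R → TightU ν κ L c a

-- deps: GUL RZS CZN FAR RARE DMEA DMON
/-- Cheap crossings are rare. -/
def S_LOWN : Prop := ∀ ν κ L β Θ, Env ν κ L β Θ → ∀ c ∈ Ioo (0 : ℝ) (1 / 2),
  ∀ (θ R : ℝ) (a : ℝ → ℝ), Nrm a θ → 3 ≤ R → Dat ν c a R → LowN ν κ L c a

-- deps: GHU RZS DAT CZN FAR DMEA DMEB
/-- Hugging crossings are rare. -/
def S_HUG : Prop := ∀ ν κ L β Θ, Env ν κ L β Θ → ∀ c ∈ Ioo (0 : ℝ) (1 / 2), RareB ν κ L c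

-- deps: PPO
/-- Increasing sets of configurations, measurable or not. -/
def S_PPM : Prop := ∀ (E : Type) [MeasurableSpace E] (m : Measure E), SFinite m →
  ∀ A B : Set E, MeasurableSet A → A ⊆ B → ∀ H : Set (Cfg E),
    (∀ S T : Cfg E, S.pts ⊆ T.pts → S ∈ H → T ∈ H) → PP (m.restrict A) H ≤ PP (m.restrict B) H

-- deps: PPM GRID MUK
/-- Large clusters of small loops are unlikely. -/
def S_SMP : Prop := ∀ ν : Measure Br, IsBridge ν → ∀ c : ℝ, SubP ν c →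
  (∀ (R : ℝ) (D : Set KC), MeasurableSet D → D ⊆ inK (ball 0 R) →
    ∀ᵐ S ∂PP (ENNReal.ofReal c • (muK ν).restrict D), Tame (sets S)) ∧
  ∀ A : ℝ, 0 ≤ A → ∃ C : ℝ, ∀ (z : ℂ) (ρ g w : ℝ) (D : Set KC), 0 < g → g ≤ ρ → 2 * g ≤ w →
    MeasurableSet D → D ⊆ (bigK g)ᶜ →
    PP (ENNReal.ofReal c • (muK ν).restrict D) {S | ¬ Sm (sets S) (ball z ρ) w} ≤
      ENNReal.ofReal (C * (ρ / g) ^ 2 * (w / g) ^ (-A))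

-- deps: SMP DETT DMEA PPO PPA MUK
/-- Free crossings exist with positive probability. -/
def S_BASE : Prop := ∀ ν : Measure Br, IsBridge ν → ∀ c ρ : ℝ, SubP ν c →
  soup ν c (ball 0 ρ) (NE 0 1 2 1) ≠ 0

-- deps: BASE REF MDL GRID DMON
/-- Crossings of typical cost exist with positive probability. -/
def S_UPN : Prop := ∀ ν : Measure Br, IsBridge ν → ∀ (κ L c θ : ℝ) (a : ℝ → ℝ), 1 ≤ κ → 10 ≤ L →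
  0 ≤ c → Nrm a θ → 0 ≤ θ → SubP ν c → TailU ν κ L c a → UpN ν L c a

-- deps: DAT TH1 SUB TIGH TAIL LOWN HUG UPN
/-- All properties of a level. -/
def S_FULL : Prop := ∀ ν κ L β Θ, Env ν κ L β Θ → ∀ c ∈ Ioo (0 : ℝ) (1 / 2),
  ∃ a, Full ν κ L c (Θ c) a

-- deps: UCS FULL REF BASE MDL EXP GRID DMON COV
/-- Upper semicontinuity of the exponent from the right. -/
def S_RIGHT : Prop := ∀ ν : Measure Br, IsBridge ν → ∀ Θ : ℝ → ℝ, AllL ν Θ →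
  ∀ c ∈ Ioo (0 : ℝ) (1 / 2), ∀ d > (0 : ℝ), ∀ᶠ c' in 𝓝[>] c, Θ c' ≤ Θ c + d

-- deps:
/-- Many of the disjoint small groups of coins show only `true`. -/
def S_CHEB : Prop := ∀ (ρ : ℝ) (k n₀ : ℕ) (J : Type) (I : Finset J) (D : J → Finset (Fin k)),
  0 < ρ → ρ ≤ 1 → I.Nonempty → (∀ i ∈ I, ∀ j ∈ I, i ≠ j → Disjoint (D i) (D j)) →
  (∀ j ∈ I, (D j).card ≤ n₀) →
  Measure.pi (fun _ : Fin k => coin ρ)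
    {ω | 2 * ({j | j ∈ I ∧ ∀ l ∈ D j, ω l = true}.ncard : ℝ) < ρ ^ n₀ * I.card} ≤
    ENNReal.ofReal (4 / (ρ ^ n₀ * I.card))

-- deps: CHEB PPF PPO
/-- Given the union, many of the selected classes contain only extra points. -/
def S_LABEL : Prop := ∀ (E : Type) [MeasurableSpace E] [StandardBorelSpace E]
  (μ m₀ : Measure E) (M : Set E) (c c' k₀ : ℝ) (n₀ : ℕ) (ι J : Type) [Countable ι]
  (I : ι → Finset J) (U : J → Set E) (H : ι → Set (Cfg E)), SFinite m₀ → MeasurableSet M →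
  μ M ≠ ∞ → (∀ x, μ {x} = 0) → 0 ≤ c → 0 < c' →
  m₀.restrict M = ENNReal.ofReal c • μ.restrict M → 0 < k₀ →
  (∀ j, MeasurableSet (U j) ∧ U j ⊆ M) →
  (∀ i, MeasurableSet (H i) ∧ k₀ ≤ (I i).card ∧
    (∀ j ∈ I i, ∀ j' ∈ I i, j ≠ j' → Disjoint (U j) (U j')) ∧
    ∀ S ∈ H i, ∀ j ∈ I i, (S.pts ∩ U j).encard ≤ n₀) →
  (PP m₀).prod (PP (ENNReal.ofReal c' • μ.restrict M))
    {p | (∃ i, p.1 ∪ p.2 ∈ H i) ∧ ∀ i, p.1 ∪ p.2 ∈ H i →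
      2 * ({j | j ∈ I i ∧ p.1 ∈ vd (U j)}.ncard : ℝ) < (c' / (c + c')) ^ n₀ * (I i).card} ≤
    ENNReal.ofReal (4 / ((c' / (c + c')) ^ n₀ * k₀))

-- deps: RTR MDL FAR DLOC BLK DMEA PPO PPA MUK
/-- Tails of the connection cost among small loops. -/
def S_ZSM : Prop := ∀ ν : Measure Br, IsBridge ν → ∀ κ L c : ℝ, 1 ≤ κ → 10 ≤ L → 0 ≤ c →
  ∃ C : ℝ≥0∞, C ≠ ∞ ∧ ∀ (z : ℂ) (g ε t : ℝ) (U : Set ℂ) (p : ℝ≥0∞), 0 < g → IsOpen U →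
    ball z (11 * (L * g)) ⊆ U → Rare ν κ c 1 L 0 1 (ZB 0 1 (ε / g) t) p →
    PP (ENNReal.ofReal c • (muK ν).restrict (inK U ∩ (bigK g)ᶜ)) (ZB z g ε t) ≤ C * p

-- deps: ZSM SMP ZFIV GRID PPO MUK
/-- Connections among small loops are very cheap. -/
def S_GONE : Prop := ∀ ν : Measure Br, IsBridge ν → ∀ (κ L c θ : ℝ) (a : ℝ → ℝ), 1 ≤ κ → 10 ≤ L →
  0 ≤ c → Nrm a θ → 1 < θ → SubP ν c → TailU ν κ L c a → ∀ τ > (0 : ℝ), ∀ p : ℝ≥0∞, p ≠ 0 →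
  ∃ η ∈ Ioo (0 : ℝ) (1 / 25), ∃ ε₂ > (0 : ℝ), ∀ (z : ℂ) (r : ℝ), 0 < r → ∀ ε ∈ Ioo 0 (ε₂ * r),
    PP (ENNReal.ofReal c • (muK ν).restrict (locK z r (η * r)))
      {S | ¬ Zon (sets S) z (7 / 4 * r) ε (τ * a (ε / r))} ≤ p

-- deps: FEW RARE RTR FAR GRID
/-- Few cells see a hugging crossing or a cheap crossing. -/
def S_STA : Prop := ∀ ν : Measure Br, IsBridge ν → ∀ (κ L c : ℝ) (a : ℝ → ℝ), 10 ≤ L →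
  RareB ν κ L c → LowN ν κ L c a → ∃ δ K : ℝ, 10 ≤ K ∧ 5 ≤ δ * K ∧ ∃ τ > (0 : ℝ),
  ∃ ε₂ > (0 : ℝ), ∃ C : ℝ, ∃ R₀ > (0 : ℝ), ∀ R ∈ Ioc 0 R₀, ∀ ε ∈ Ioo 0 (ε₂ * R),
    ∀ m : Measure KC, (∀ z ∈ closedBall (0 : ℂ) 3, Adm ν κ c (1 / (25 * L)) z (L * R) m) →
    PP m {S | Many (R / 2) (badA L R (R / K) δ ε (τ * a (ε / (R / K))) S)} ≤
      ENNReal.ofReal (C * R)

-- deps: GONE FEW MDL GRID JOINT ENUM PPO MUK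
/-- Few cells see bad small loops or many intermediate loops. -/
def S_STB : Prop := ∀ ν : Measure Br, IsBridge ν → ∀ (κ L c c₁ θ : ℝ) (a : ℝ → ℝ), 1 ≤ κ →
  10 ≤ L → 0 ≤ c → c ≤ c₁ → c₁ ≤ κ * c → Nrm a θ → 1 < θ → SubP ν c → TailU ν κ L c a →
  ∀ K : ℝ, 10 ≤ K → ∀ τ > (0 : ℝ), ∃ η ∈ Ioo (0 : ℝ) (1 / 25), ∃ n₀ : ℕ, ∃ ε₂ > (0 : ℝ),
  ∃ C : ℝ, ∃ R₀ > (0 : ℝ), ∀ R ∈ Ioc 0 R₀, ∀ ε ∈ Ioo 0 (ε₂ * R), ∃ G : ℤ × ℤ → Set (Cfg KC),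
    (∀ x, MeasurableSet (G x) ∧ ∀ S ∈ G x,
      Zon (sets S) (gp (R / K / 2) x) (7 / 4 * (R / K)) ε (τ * a (ε / (R / K)))) ∧
    PP (mdl ν L c c₁ (25 * (η * (R / K))))
      {S | Many (R / 2) (badC R (R / K) (η * (R / K)) n₀ G S)} ≤ ENNReal.ofReal (C * R)

-- deps: SEL ZGAI DLOC DMON DMEA GRID ENUM
/-- The deterministic part of the step. -/
def S_STD : Prop := ∀ (R r g ε u : ℝ) (n₀ : ℕ) (G : ℤ × ℤ → Set (Cfg KC)),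
  ((∀ x, MeasurableSet (G x)) → ∀ n I, MeasurableSet (HE R r g ε u n₀ G n I)) ∧
  (∀ (L δ s t : ℝ) (A S : Cfg KC), 10 ≤ L → 0 < r → 10 * r ≤ R → 100 * L * R ≤ 1 →
    5 * r ≤ δ * R → 0 ≤ s → A.pts ⊆ S.pts → (∀ K ∈ S.pts, K ∈ bigK (R / 25) → K ∈ A.pts) →
    ¬ Many (R / 2) (badA L R r δ ε u A) → ¬ Many (R / 2) (badC R r g n₀ G S) →
    (∀ B, Skel (sets S) R B → Nle (sets S) 0 1 ε (s * B.card)) → Nle (sets S) 0 1 ε t →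
    ∃ (n : ℕ) (I : Finset (ℤ × ℤ)), (n : ℝ) ≤ t ∧ (n : ℝ) ≤ 578 * s * I.card ∧
      1 ≤ 2312 * R * I.card ∧
      (∀ c ∈ I, ∀ c' ∈ I, c ≠ c' → R ≤ dist (gp (r / 2) c) (gp (r / 2) c')) ∧
      S ∈ HE R r g ε u n₀ G n I) ∧
  ∀ (v : ℝ) (A S : Cfg KC) (n : ℕ) (I I' : Finset (ℤ × ℤ)), 0 < ε → 40 * ε ≤ r → 10 * r ≤ R →
    R ≤ 1 → g ≤ r → 0 ≤ v → (∀ x, ∀ S' ∈ G x, Zon (sets S') (gp (r / 2) x) (7 / 4 * r) ε v) →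
    A.pts ⊆ S.pts → (∀ K ∈ S.pts, K ∉ bigK g → K ∈ A.pts) →
    (∀ c ∈ I, ∀ c' ∈ I, c ≠ c' → R ≤ dist (gp (r / 2) c) (gp (r / 2) c')) →
    S ∈ HE R r g ε u n₀ G n I → I' ⊆ I → (∀ c ∈ I', A ∈ vd (midK (gp (r / 2) c) r g R)) →
    Nle (sets A) 0 1 ε (n - I'.card * (u - v))

-- deps: STA STB STD REF LABEL MDL PPO MUK DMEA DMON
/-- Removing the extra loops of one range of sizes lowers the crossing cost by a factor. -/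
def S_STEP : Prop := ∀ ν : Measure Br, IsBridge ν → ∀ (κ L c c₁ θ : ℝ) (a : ℝ → ℝ), 1 ≤ κ →
  10 ≤ L → 0 < c → c < c₁ → c₁ ≤ κ * c → Full ν κ L c θ a →
  ∃ lam ∈ Ioo (0 : ℝ) 1, ∃ b ∈ Ioo (0 : ℝ) 1, ∃ ε₂ > (0 : ℝ), ∃ C : ℝ, ∃ R₀ > (0 : ℝ),
    ∀ R ∈ Ioc 0 R₀, ∀ ε ∈ Ioo 0 (ε₂ * R), ∀ t : ℝ,
      PP (mdl ν L c c₁ (lam * R)) (NE 0 1 ε t) ≤
        PP (mdl ν L c c₁ R) (NE 0 1 ε (b * t)) + ENNReal.ofReal (C * R)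

-- deps: UCS FULL STEP MDL EXP DMON
/-- The exponent is strictly increasing. -/
def S_STRICT : Prop := ∀ ν : Measure Br, IsBridge ν → ∀ Θ : ℝ → ℝ, AllL ν Θ →
  StrictMonoOn Θ (Ioo 0 (1 / 2))

end Pool.Agent.P.MP_d66c6d_pr
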