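import Pool.Agent.P.MP_d66c6d_pr.M.Iface
import Pool.Agent.P.MP_d66c6d_pr.F.Iface

/-! Step LABEL of the carpet project. -/

namespace Pool.Agent.P.MP_d66c6d_pr

open MeasureTheory ProbabilityTheory Set Metric Filter Topology
open scoped ENNReal

namespace LabelA

variable {E : Type} [MeasurableSpace E]

theorem meas_inj [MeasurableEq E] (k : ℕ) :
    MeasurableSet {x : Fin k → E | Function.Injective x} := by
  have : {x : Fin k → E | Function.Injective x} = ⋂ i, ⋂ j, ⋂ _ : i ≠ j, {x | x i = x j}ᶜ := by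
    ext x
    simp only [mem_ofPred_eq, mem_iInter, mem_compl_iff]
    exact ⟨fun h i j hij e => hij (h e), fun h i j e => by_contra fun hij => h i j hij e⟩
  rw [this]
  exact MeasurableSet.iInter fun i => MeasurableSet.iInter fun j => MeasurableSet.iInter fun _ =>
    (measurableSet_eq_fun (measurable_pi_apply i) (measurable_pi_apply j)).compl

theorem ae_inj [MeasurableEq E] (m : Measure E) [IsFiniteMeasure m] (hm : ∀ x, m {x} = 0)
    (k : ℕ) : ∀ᵐ x ∂Measure.pi fun _ : Fin k => m, Function.Injective x := by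
  induction k with
  | zero => exact Eventually.of_forall fun x i => i.elim0
  | succ k ih =>
    refine ae_of_cons (meas_inj _) ?_
    rw [Measure.ae_ae_comm (p := fun (a : E) (v : Fin k → E) =>
      Function.Injective (Fin.cons a v : Fin (k + 1) → E)) ((mp_cons m k).measurable (meas_inj _))]
    filter_upwards [ih] with v hv
    have : NullSingletonClass m := ⟨hm⟩
    filter_upwards [(finite_range v).countable.ae_notMem m] with a ha
    exact Fin.cons_injective_iff.2 ⟨ha, hv⟩

theorem ppFin_le (m : Measure E) [IsFiniteMeasure m] (h1 : ppFin m univ = 1) {G : Set (Cfg E)}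
    (hG : MeasurableSet G) {b : ℝ≥0∞}
    (h : ∀ k, Measure.pi (fun _ : Fin k => m) (Cfg.rng ⁻¹' G) ≤
      b * Measure.pi (fun _ : Fin k => m) univ) : ppFin m G ≤ b := by
  rw [← mul_one b, ← h1, ppFin, Measure.sum_apply _ hG, Measure.sum_apply _ MeasurableSet.univ,
    ← ENNReal.tsum_mul_left]
  refine ENNReal.tsum_le_tsum fun k => ?_
  rw [Measure.smul_apply, Measure.smul_apply, smul_eq_mul, smul_eq_mul,
    Measure.map_apply measurable_rng hG, Measure.map_apply measurable_rng MeasurableSet.univ,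
    mul_left_comm]
  exact mul_le_mul_right (h k) _

theorem prob_coin {ρ : ℝ} (h0 : 0 ≤ ρ) (h1 : ρ ≤ 1) : IsProbabilityMeasure (coin ρ) :=
  ⟨by simp [coin, ← ENNReal.ofReal_add (sub_nonneg.2 h1) h0]⟩

theorem pi_le (m : Measure E) [IsFiniteMeasure m] (τ : Measure Bool) [IsProbabilityMeasure τ]
    (k : ℕ) {G : Set (Fin k → E × Bool)} (hG : MeasurableSet G) {b : ℝ≥0∞}
    (h : ∀ᵐ x ∂Measure.pi fun _ : Fin k => m,
      Measure.pi (fun _ : Fin k => τ) {ω | (fun l => (x l, ω l)) ∈ G} ≤ b) :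
    Measure.pi (fun _ : Fin k => m.prod τ) G ≤ b * Measure.pi (fun _ : Fin k => m.prod τ) univ := by
  have hp := (measurePreserving_arrowProdEquivProdArrow E Bool (Fin k) (fun _ => m)
    fun _ => τ).symm
  rw [← hp.measure_preimage hG.nullMeasurableSet,
    ← hp.measure_preimage MeasurableSet.univ.nullMeasurableSet,
    Measure.prod_apply (hp.measurable hG), preimage_univ, ← univ_prod_univ, Measure.prod_prod,
    measure_univ (μ := Measure.pi fun _ : Fin k => τ), mul_one, ← lintegral_const]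
  exact lintegral_mono_ae h

/-- The points with a given label. -/
def lab (b : Bool) (S : Cfg (E × Bool)) : Cfg E := (S.res (univ ×ˢ {b})).map Prod.fst

theorem map_lab (m : Measure E) [IsFiniteMeasure m] (τ : Measure Bool) [IsFiniteMeasure τ]
    (b : Bool) : ((m.prod τ).restrict (univ ×ˢ {b})).map Prod.fst = τ {b} • m := by
  rw [← Measure.prod_restrict, Measure.map_fst_prod]
  simp

theorem mp_lab (hPPO : S_PPO) (m : Measure E) [IsFiniteMeasure m] (τ : Measure Bool)
    [IsFiniteMeasure τ] : MeasurePreserving (fun S => (lab false S, lab true S)) (PP (m.prod τ))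
      ((PP (τ {false} • m)).prod (PP (τ {true} • m))) := by
  have hb : ∀ b : Bool, MeasurableSet ((univ : Set E) ×ˢ ({b} : Set Bool)) := fun b =>
    MeasurableSet.univ.prod (measurableSet_singleton b)
  have h1 : MeasurePreserving
      (fun S : Cfg (E × Bool) => (S.res (univ ×ˢ {false}), S.res (univ ×ˢ {true})))
      (PP (m.prod τ)) _ := ⟨(measurable_res (hb _)).prodMk (measurable_res (hb _)),
    (hPPO _ (m.prod τ) inferInstance).2.2.2.1 _ _ (hb _) (hb _) (by simp [Set.disjoint_prod])⟩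
  have h2 : ∀ b : Bool, MeasurePreserving (Cfg.map Prod.fst)
      (PP ((m.prod τ).restrict (univ ×ˢ {b}))) (PP (τ {b} • m)) := fun b =>
    ⟨measurable_cfgMap measurable_fst, by
      rw [(hPPO _ _ inferInstance).2.2.1 E Prod.fst measurable_fst, map_lab]⟩
  exact ((h2 false).prod (h2 true)).comp h1

theorem meas_card {J : Type} (I : Finset J) {U : J → Set E} (hU : ∀ j, MeasurableSet (U j)) :
    Measurable fun S : Cfg E => ({j | j ∈ I ∧ S ∈ vd (U j)}.ncard : ℝ) := by
  classical
  have : (fun S : Cfg E => ({j | j ∈ I ∧ S ∈ vd (U j)}.ncard : ℝ)) =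
      fun S => ∑ j ∈ I, (vd (U j)).indicator 1 S := by
    funext S
    rw [← Finset.coe_filter, ncard_coe_finset, Finset.card_filter]
    simp [indicator]
  rw [this]
  exact Finset.measurable_sum _ fun j _ => measurable_one.indicator (measurableSet_vd (hU j))

omit [MeasurableSpace E] in
theorem mem_lab {k : ℕ} (x : Fin k → E) (ω : Fin k → Bool) (b : Bool) (y : E) :
    y ∈ (lab b (Cfg.rng fun l => (x l, ω l))).pts ↔ ∃ l, ω l = b ∧ x l = y := by
  simp only [lab, Cfg.pts_map, Cfg.pts_res, Cfg.pts_rng, mem_image, mem_inter_iff, mem_range,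
    mem_prod, mem_univ, true_and, mem_singleton_iff]
  exact ⟨fun ⟨_, ⟨⟨l, rfl⟩, h⟩, e⟩ => ⟨l, h, e⟩, fun ⟨l, h, e⟩ => ⟨_, ⟨⟨l, rfl⟩, h⟩, e⟩⟩

omit [MeasurableSpace E] in
theorem union_lab {k : ℕ} (A : Cfg E) (x : Fin k → E) (ω : Fin k → Bool) :
    A ∪ lab false (Cfg.rng fun l => (x l, ω l)) ∪ lab true (Cfg.rng fun l => (x l, ω l)) =
      A ∪ Cfg.rng x := by
  ext y
  simp only [Cfg.pts_union, mem_union, mem_lab, Cfg.pts_rng, mem_range, or_assoc]
  refine or_congr_right ⟨?_, fun ⟨l, h⟩ => ?_⟩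
  · rintro (⟨l, -, h⟩ | ⟨l, -, h⟩) <;> exact ⟨l, h⟩
  · cases e : ω l
    · exact Or.inl ⟨l, e, h⟩
    · exact Or.inr ⟨l, e, h⟩

omit [MeasurableSpace E] in
theorem cheb (hCHEB : S_CHEB) {ρ : ℝ} (h0 : 0 < ρ) (h1 : ρ ≤ 1) {k n₀ : ℕ} {J : Type}
    {I : Finset J} (hI : I.Nonempty) {U : J → Set E}
    (hd : ∀ j ∈ I, ∀ j' ∈ I, j ≠ j' → Disjoint (U j) (U j')) {A : Cfg E}
    (hA : ∀ j, A ∈ vd (U j)) {x : Fin k → E} (hx : Function.Injective x)
    (hn : ∀ j ∈ I, ((A ∪ Cfg.rng x).pts ∩ U j).encard ≤ n₀) :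
    Measure.pi (fun _ : Fin k => coin ρ) {ω | 2 * ({j | j ∈ I ∧
      A ∪ lab false (Cfg.rng fun l => (x l, ω l)) ∈ vd (U j)}.ncard : ℝ) < ρ ^ n₀ * I.card} ≤
      ENNReal.ofReal (4 / (ρ ^ n₀ * I.card)) := by
  classical
  refine le_trans (measure_mono fun ω hω => ?_) (hCHEB ρ k n₀ J I
    (fun j => Finset.univ.filter fun l => x l ∈ U j) h0 h1 hI (fun i hi j hj hij => ?_)
    fun j hj => ?_)
  · rw [mem_ofPred_eq] at hω ⊢
    refine lt_of_le_of_lt (mul_le_mul_of_nonneg_left (Nat.cast_le.2 (ncard_le_ncard ?_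
      (I.finite_toSet.subset ?_))) zero_le_two) hω
    swap
    · exact fun j hj => hj.1
    rintro j ⟨hj, h⟩
    refine ⟨hj, mem_vd.2 ?_⟩
    rintro y (hy | hy) hy'
    · exact mem_vd.1 (hA j) y hy hy'
    · obtain ⟨l, e, rfl⟩ := (mem_lab x ω false y).1 hy
      rw [h l (Finset.mem_filter.2 ⟨Finset.mem_univ _, hy'⟩)] at e
      cases e
  · exact Finset.disjoint_left.2 fun l h h' => Set.disjoint_left.1 (hd i hi j hj hij)
      (Finset.mem_filter.1 h).2 (Finset.mem_filter.1 h').2
  · have h2 := (encard_le_encard_of_injOn (f := x) (t := (A ∪ Cfg.rng x).pts ∩ U j)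
      (s := ((Finset.univ.filter fun l => x l ∈ U j : Finset (Fin k)) : Set (Fin k)))
      (fun l hl => ⟨Or.inr ⟨l, rfl⟩, (Finset.mem_filter.1 hl).2⟩) hx.injOn).trans (hn j hj)
    rw [encard_coe_eq_coe_finsetCard] at h2
    exact_mod_cast h2

end LabelA

theorem p_LABEL (hCHEB : S_CHEB) (hPPF : S_PPF) (hPPO : S_PPO) :
    S_LABEL := by
  intro E _ _ μ m₀ M c c' k₀ n₀ ι J _ I U H hm hM hμ hat hc hc' hm₀ hk hU hH
  have hs : 0 < c + c' := by linarith
  set ρ := c' / (c + c') with hρ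
  have h0 : 0 < ρ := div_pos hc' hs
  have h1 : ρ ≤ 1 := (div_le_one hs).2 (by linarith)
  have := LabelA.prob_coin h0.le h1
  have : IsFiniteMeasure (μ.restrict M) := isFiniteMeasure_restrict.2 hμ
  set m := ENNReal.ofReal (c + c') • μ.restrict M with hm'
  have : IsFiniteMeasure m := Measure.smul_finite _ ENNReal.ofReal_ne_top
  have : IsFiniteMeasure (ENNReal.ofReal c • μ.restrict M) :=
    Measure.smul_finite _ ENNReal.ofReal_ne_top
  have e1 : coin ρ {false} • m = ENNReal.ofReal c • μ.restrict M := by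
    have e : (1 - ρ) * (c + c') = c := by rw [hρ]; field_simp; ring
    rw [hm', smul_smul]
    simp [coin, ← ENNReal.ofReal_mul (sub_nonneg.2 h1), e]
  have e2 : coin ρ {true} • m = ENNReal.ofReal c' • μ.restrict M := by
    have e : ρ * (c + c') = c' := by rw [hρ]; field_simp
    rw [hm', smul_smul]
    simp [coin, ← ENNReal.ofReal_mul h0.le, e]
  have p1 := LabelA.mp_lab hPPO m (coin ρ)
  rw [e1, e2] at p1
  have p2 : MeasurePreserving (fun p : Cfg E × Cfg E => p.1 ∪ p.2)
      ((PP (m₀.restrict Mᶜ)).prod (PP (ENNReal.ofReal c • μ.restrict M))) (PP m₀) :=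
    ⟨Measurable.cfgUnion measurable_fst measurable_snd, by
      rw [(hPPO _ _ inferInstance).1 _ inferInstance, ← hm₀, add_comm,
        Measure.restrict_add_restrict_compl hM]⟩
  have p3 := ((p2.prod (MeasurePreserving.id (PP (ENNReal.ofReal c' • μ.restrict M)))).comp
    (measurePreserving_prodAssoc _ _ _).symm).comp
    ((MeasurePreserving.id (PP (m₀.restrict Mᶜ))).prod p1)
  have hu : Measurable fun p : Cfg E × Cfg E => p.1 ∪ p.2 := p2.measurable
  have hG : MeasurableSet {p : Cfg E × Cfg E | (∃ i, p.1 ∪ p.2 ∈ H i) ∧ ∀ i, p.1 ∪ p.2 ∈ H i →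
      2 * ({j | j ∈ I i ∧ p.1 ∈ vd (U j)}.ncard : ℝ) < ρ ^ n₀ * (I i).card} := by
    refine measurableSet_setOfPred.2 (Measurable.and (Measurable.exists fun i => ?_)
      (Measurable.forall fun i => Measurable.imp ?_ ?_))
    · exact measurableSet_setOfPred.1 (hu (hH i).1)
    · exact measurableSet_setOfPred.1 (hu (hH i).1)
    · exact measurableSet_setOfPred.1 (measurableSet_lt (measurable_const.mul
        ((LabelA.meas_card (I i) fun j => (hU j).1).comp measurable_fst)) measurable_const)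
  rw [← p3.measure_preimage hG.nullMeasurableSet, Measure.prod_apply (p3.measurable hG)]
  refine (lintegral_mono_ae ?_).trans (le_of_eq ((lintegral_const _).trans
    (by rw [measure_univ, mul_one])))
  filter_upwards [(hPPO _ (m₀.restrict Mᶜ) inferInstance).2.2.2.2.2.1 _
    (ae_restrict_mem hM.compl)] with A hA
  have hG' := measurable_prodMk_left (x := A) (p3.measurable hG)
  have hF := hPPF _ (m.prod (coin ρ)) inferInstance
  rw [← hF.eq_PP]
  refine LabelA.ppFin_le _ hF.1.measure_univ hG' fun k =>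
    LabelA.pi_le m (coin ρ) k (measurable_rng hG') ?_
  filter_upwards [LabelA.ae_inj m (fun x => by
    rw [hm', Measure.smul_apply, le_zero_iff.1 ((Measure.restrict_le_self {x}).trans (hat x).le),
      smul_zero]) k] with x hx
  by_cases hex : ∃ i, A ∪ Cfg.rng x ∈ H i
  · obtain ⟨i, hi⟩ := hex
    have hk' : (0 : ℝ) < (I i).card := hk.trans_le (hH i).2.1
    refine le_trans (measure_mono fun ω hω => hω.2 i ((LabelA.union_lab A x ω).symm ▸ hi))
      ((LabelA.cheb hCHEB h0 h1 (Finset.card_pos.1 (Nat.cast_pos.1 hk')) (hH i).2.2.1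
        (fun j => mem_vd.2 fun y hy hy' => hA y hy ((hU j).2 hy')) hx
        ((hH i).2.2.2 _ hi)).trans (ENNReal.ofReal_le_ofReal ?_))
    exact div_le_div_of_nonneg_left (by norm_num) (by positivity)
      (mul_le_mul_of_nonneg_left (hH i).2.1 (by positivity))
  · refine le_trans (measure_mono (t := ∅) fun ω hω => hex ?_) (by simp)
    exact LabelA.union_lab A x ω ▸ hω.1

end Pool.Agent.P.MP_d66c6d_pr
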