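import Pool.Agent.P.MP_d66c6d_pr.M.Iface
import Pool.Agent.P.MP_d66c6d_pr.D.Iface

/-! Step LOWN of the carpet project. -/

namespace Pool.Agent.P.MP_d66c6d_pr

open MeasureTheory ProbabilityTheory Set Metric Filter Topology
open scoped ENNReal

theorem p_LOWN (hGUL : S_GUL) (hRZS : S_RZS) (hCZN : S_CZN) (hFAR : S_FAR) (hRARE : S_RARE) (hDMEA : S_DMEA) (hDMON : S_DMON) :
    S_LOWN := by
  intro ν κ L β Θ hE c hc θ R a ha hR hD lam hlam p hp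
  have hc2 : (c + 1 / 2) / 2 ∈ Ioo (0 : ℝ) (1 / 2) := ⟨by linarith [hc.1], by linarith [hc.2]⟩
  have hlt : c < (c + 1 / 2) / 2 := by linarith [hc.2]
  have hle : (c + 1 / 2) / 2 ≤ 1 := by linarith [hc.2]
  by_contra hcon
  have h1 : ∀ k : ℕ, ∃ ε ∈ Ioo (0 : ℝ) (1 / ((k : ℝ) + 1)),
      ¬ (Rare ν κ c lam L 0 1 (NE 0 1 ε (1 / ((k : ℝ) + 1) * a ε)) p ∧
        soup ν c (ball 0 (10 * L)) (NE 0 1 ε (1 / ((k : ℝ) + 1) * a ε)) ≤ p) := fun k => by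
    by_contra h
    exact hcon ⟨_, Nat.one_div_pos_of_nat, _, Nat.one_div_pos_of_nat, fun ε hε =>
      not_not.1 fun h' => h ⟨ε, hε, h'⟩⟩
  choose e he hbad using h1
  have he0 : Tendsto e atTop (𝓝 0) := squeeze_zero (fun k => (he k).1.le) (fun k => (he k).2.le)
    tendsto_one_div_add_atTop_nhds_zero_nat
  obtain ⟨φ, hφ, hG⟩ := hGUL ν hE.br c _ θ _ R a hc.1 hlt hle (hE.all _ hc2) ha hD e
    (fun k => (he k).1) he0
  have h2 : ∀ m : ℕ, ∃ (t : ℝ) (j : ℕ), 1 / ((φ j : ℝ) + 1) ≤ t ∧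
      lsoup ν c R (GN c R (e (φ j)) (t * a (e (φ j)))) ≤ (m : ℝ≥0∞)⁻¹ := fun m => by
    obtain ⟨t, ht, h⟩ := (hG _ (ENNReal.inv_ne_zero.2 (ENNReal.natCast_ne_top m))).2
    obtain ⟨j, h3, h4⟩ := ((((tendsto_one_div_add_atTop_nhds_zero_nat (𝕜 := ℝ)).comp
      hφ.tendsto_atTop).eventually (ge_mem_nhds ht)).and h).exists
    exact ⟨t, j, h3, h4⟩
  choose t j ht hj using h2
  obtain ⟨-, r2, r3⟩ := hRZS ν hE.br L β hE.str c _ _ R hc.1 hlt hle (hE.all _ hc2) hR (fun _ => c)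
    (fun m => NE 0 1 (e (φ (j m))) (1 / ((φ (j m) : ℝ) + 1) * a (e (φ (j m)))))
    (fun m => GN c R (e (φ (j m))) (t m * a (e (φ (j m))))) (fun _ => le_rfl) tendsto_const_nhds
    (fun m => ⟨hDMEA.2.2.1 _ _ _ _, measurable_lev c (hDMEA.2.2.2.1 _ _ _)⟩)
    (tendsto_of_tendsto_of_tendsto_of_le_of_le tendsto_const_nhds
      ENNReal.tendsto_inv_nat_nhds_zero (fun _ => zero_le) hj)
    (fun J => Eventually.of_forall fun m X hX 𝒯 h𝒯 => by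
      obtain ⟨i, hi⟩ := (hCZN.1 R _ J _ h𝒯).2.1 _ _ hX
      exact ⟨i, hDMON.2.2.2.2.2.1 _ _ _ _ _ _ _ _ subset_rfl subset_rfl le_rfl
        (mul_le_mul_of_nonneg_right (ht m) (ha.1 _ (he _).1).le) hi⟩)
  obtain ⟨m, h3, h4⟩ := ((r3 κ hE.ucs (fun m => (hFAR.1 0 1 _ _ one_pos).2) lam hlam p hp).and
    (r2.eventually (ge_mem_nhds (pos_iff_ne_zero.2 hp)))).exists
  exact hbad _ ⟨h3, h4⟩

end Pool.Agent.P.MP_d66c6d_pr
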