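import Pool.Agent.P.MP_d66c6d_pr.M.Iface

/-! Step LS3 of the carpet project. -/

namespace Pool.Agent.P.MP_d66c6d_pr

open MeasureTheory ProbabilityTheory Set Metric Filter Topology
open scoped ENNReal

namespace Ls3A

theorem ls {Ω : Type} [MeasurableSpace Ω] {μ : Measure Ω} [IsFiniteMeasure μ] {τ : ℝ≥0∞}
    {P : ℕ → Ω → Prop} (h : ∃ᶠ n in atTop, ∃ E, MeasurableSet E ∧ τ ≤ μ E ∧ ∀ ω ∈ E, P n ω) :
    ∃ E, MeasurableSet E ∧ τ ≤ μ E ∧ ∀ ω ∈ E, ∃ᶠ n in atTop, P n ω := by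
  have h1 : ∀ n, ∃ E, MeasurableSet E ∧ (∀ ω ∈ E, P n ω) ∧
      ((∃ E, MeasurableSet E ∧ τ ≤ μ E ∧ ∀ ω ∈ E, P n ω) → τ ≤ μ E) := fun n => by
    by_cases h2 : ∃ E, MeasurableSet E ∧ τ ≤ μ E ∧ ∀ ω ∈ E, P n ω
    · obtain ⟨E, a, b, c⟩ := h2
      exact ⟨E, a, c, fun _ => b⟩
    · exact ⟨∅, MeasurableSet.empty, fun _ h => h.elim, fun h => absurd h h2⟩
  choose A a1 a2 a3 using h1
  have hm : ∀ N, MeasurableSet (⋃ n ≥ N, A n) := fun N =>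
    MeasurableSet.iUnion fun n => MeasurableSet.iUnion fun _ => a1 n
  refine ⟨⋂ N, ⋃ n ≥ N, A n, MeasurableSet.iInter hm, ?_, fun ω hω => ?_⟩
  · refine ge_of_tendsto' (tendsto_measure_iInter_atTop (fun N => (hm N).nullMeasurableSet)
      (fun N M hNM => biUnion_subset_biUnion_left fun n hn => hNM.trans hn)
      ⟨0, measure_ne_top _ _⟩) fun N => ?_
    obtain ⟨n, hn, h2⟩ := frequently_atTop.1 h N
    exact (a3 n h2).trans (measure_mono (subset_biUnion_of_mem (u := A) hn))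
  · refine frequently_atTop.2 fun N => ?_
    obtain ⟨n, hn, h2⟩ := mem_iUnion₂.1 (mem_iInter.1 hω N)
    exact ⟨n, hn, a2 n ω h2⟩

end Ls3A

open Ls3A in
theorem p_LS3 :
    S_LS3 := by
  intro Ω _ μ _ B c₀ hB h τ hτ
  by_contra hn
  simp only [not_exists, not_eventually, not_and, not_forall, not_le] at hn
  obtain ⟨E, e1, e2, e3⟩ := ls (μ := μ) (τ := τ) (P := fun C ω => ∃ᶠ j in atTop, ∃ᶠ i : ℕ in atTop,
      ∃ c ∈ Icc c₀ (c₀ + 1 / ((i : ℝ) + 1)), ω ∈ B C j c)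
    (Frequently.of_forall fun C => ls ((hn C).mono fun j hj => ls (Frequently.of_forall fun i => by
      obtain ⟨c, h1, h2⟩ := hj (c₀ + 1 / ((i : ℝ) + 1)) (lt_add_of_pos_right _ (by positivity))
      exact ⟨_, hB C j c, h2.le, fun ω hω => ⟨c, h1, hω⟩⟩)))
  refine hτ (le_antisymm (e2.trans (h E e1 ?_).le) zero_le)
  rintro ω hω ⟨C₀, h1⟩
  obtain ⟨C, hC, h2⟩ := frequently_atTop.1 (e3 ω hω) C₀
  obtain ⟨j, h3, c', h4, h5⟩ := (h2.and_eventually h1).exists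
  obtain ⟨i, ⟨c, h6, h7⟩, h8⟩ := (h3.and_eventually (tendsto_one_div_add_atTop_nhds_zero_nat.eventually
    (gt_mem_nhds (sub_pos.2 h4)))).exists
  exact h5 c ⟨h6.1, by linarith [h6.2]⟩ C hC h7

end Pool.Agent.P.MP_d66c6d_pr
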