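import Pool.Agent.P.MP_d66c6d_pr.M.Iface
import Pool.Agent.P.MP_d66c6d_pr.F.Iface
import Pool.Agent.P.MP_d66c6d_pr.D.Iface

/-! Step MDL of the carpet project. -/

namespace Pool.Agent.P.MP_d66c6d_pr

open MeasureTheory ProbabilityTheory Set Metric Filter Topology
open scoped ENNReal

namespace MdlA

theorem split {E : Type} [MeasurableSpace E] (μ : Measure E) {f g : E → ℝ≥0∞} {B : Set E}
    (hB : MeasurableSet B) (a : ℝ≥0∞) (h1 : ∀ x ∈ B, f x = g x + a) (h2 : ∀ x ∉ B, f x = g x) :
    μ.withDensity f = μ.withDensity g + a • μ.restrict B := by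
  rw [← withDensity_const, ← withDensity_indicator hB,
    ← withDensity_add_right _ (measurable_const.indicator hB)]
  congr 1
  funext x
  by_cases hx : x ∈ B
  · simp [hx, h1 x hx]
  · simp [hx, h2 x hx]

theorem ball_sub {L r : ℝ} (hL : 10 ≤ L) (hr : r ≤ 1 / 2) {z : ℂ} (hz : z ∈ closedBall (0 : ℂ) 3) :
    closedBall z (10 * (L * r)) ⊆ ball 0 (10 * L) := by
  refine closedBall_subset_ball' ?_
  have h1 : L * r ≤ L * (1 / 2) := mul_le_mul_of_nonneg_left hr (by linarith)
  have h2 : dist z 0 ≤ 3 := hz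
  linarith

theorem pp_anti (hPPA : S_PPA) (hDMEA : S_DMEA) (hDMON : S_DMON) (m m' : Measure KC) [SFinite m]
    [SFinite m'] (ε t : ℝ) : PP (m + m') (NE 0 1 ε t) ≤ PP m (NE 0 1 ε t) := by
  have hm := hDMEA.2.2.1 0 1 ε t
  have h := (hPPA KC m m').2.2.2.1 inferInstance inferInstance _ hm.compl fun S T hST hS hT =>
    hS (hDMON.2.2.2.2.1 _ _ 0 1 ε ε t t (image_mono hST) le_rfl le_rfl hT)
  rw [prob_compl_eq_one_sub hm, prob_compl_eq_one_sub hm] at h
  exact (ENNReal.sub_le_sub_iff_left prob_le_one ENNReal.one_ne_top).1 h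

end MdlA

open MdlA in
theorem p_MDL (hPPA : S_PPA) (hMUK : S_MUK) (hDMEA : S_DMEA) (hDMON : S_DMON) :
    S_MDL := by
  intro ν hν κ L c hκ hL hc
  have hσ := (hMUK ν hν).2.1
  have h0 : ENNReal.ofReal c ≤ ENNReal.ofReal (κ * c) :=
    ENNReal.ofReal_le_ofReal (le_mul_of_one_le_left hc hκ)
  refine ⟨fun lam r hr z hz => ⟨_, fun _ => ENNReal.ofReal c, isOpen_ball, isBounded_ball,
    ball_sub hL hr hz, measurable_const, fun _ => ⟨le_rfl, h0⟩, fun _ _ => rfl,
    (withDensity_const _).symm⟩, fun lam ρ z hρ => ⟨_, fun _ => ENNReal.ofReal c, isOpen_ball,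
    isBounded_ball, closedBall_subset_ball (by linarith), measurable_const, fun _ => ⟨le_rfl, h0⟩,
    fun _ _ => rfl, (withDensity_const _).symm⟩, fun c₁ h1 h2 R => ?_⟩
  have hV : MeasurableSet (inK (ball (0 : ℂ) (10 * L))) := (isOpen_inK isOpen_ball).measurableSet
  have ha : ENNReal.ofReal c₁ = ENNReal.ofReal c + ENNReal.ofReal (c₁ - c) := by
    rw [← ENNReal.ofReal_add hc (sub_nonneg.2 h1), add_sub_cancel]
  have hf : Measurable fun K : KC =>
      if R / 25 ≤ diam (K : Set ℂ) then ENNReal.ofReal c₁ else ENNReal.ofReal c :=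
    Measurable.ite (measurableSet_bigK _) measurable_const measurable_const
  have hs : SigmaFinite (mdl ν L c c₁ R) :=
    SigmaFinite.withDensity_of_ne_top (Eventually.of_forall fun K => by
      split_ifs <;> exact ENNReal.ofReal_ne_top)
  have e1 : ENNReal.ofReal c₁ • (muK ν).restrict (inK (ball 0 (10 * L))) = mdl ν L c c₁ R +
      ENNReal.ofReal (c₁ - c) • ((muK ν).restrict (inK (ball 0 (10 * L)))).restrict
        (bigK (R / 25))ᶜ := by
    rw [← withDensity_const]
    refine split _ (measurableSet_bigK _).compl _ (fun K hK => ?_) fun K hK => ?_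
    · rw [if_neg (show ¬ R / 25 ≤ diam (K : Set ℂ) from hK), ha]
    · rw [if_pos (show R / 25 ≤ diam (K : Set ℂ) from not_not.1 hK)]
  have e2 : mdl ν L c c₁ R = ENNReal.ofReal c • (muK ν).restrict (inK (ball 0 (10 * L))) +
      ENNReal.ofReal (c₁ - c) • ((muK ν).restrict (inK (ball 0 (10 * L)))).restrict
        (bigK (R / 25)) := by
    rw [← withDensity_const]
    refine split _ (measurableSet_bigK _) _ (fun K hK => ?_) fun K hK => ?_
    · rw [if_pos (show R / 25 ≤ diam (K : Set ℂ) from hK), ha]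
    · rw [if_neg (show ¬ R / 25 ≤ diam (K : Set ℂ) from hK)]
  refine ⟨hs, ?_, fun lam r hr hl z hz => ⟨_, _, isOpen_ball, isBounded_ball, ball_sub hL hr hz,
    hf, fun K => ?_, fun K hK => if_neg (by linarith), rfl⟩, fun A hA hA' => ?_,
    fun R' hR => ?_, fun ε t => ⟨?_, ?_⟩⟩
  · rw [e1]
    exact Measure.le_add_right le_rfl
  · split_ifs
    exacts [⟨ENNReal.ofReal_le_ofReal h1, ENNReal.ofReal_le_ofReal h2⟩, ⟨le_rfl, h0⟩]
  · rw [e2, Measure.restrict_add, Measure.restrict_smul, Measure.restrict_smul,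
      Measure.restrict_restrict hA, Measure.restrict_restrict hA,
      inter_eq_left.2 (hA'.trans inter_subset_left),
      (disjoint_compl_left.mono_left (hA'.trans inter_subset_right)).inter_eq,
      Measure.restrict_empty, smul_zero, add_zero]
  · have hB := (measurableSet_bigK (R' / 25)).inter (measurableSet_bigK (R / 25)).compl
    rw [inter_assoc, inter_comm, ← Measure.restrict_restrict hB]
    refine split _ hB _ (fun K hK => ?_) fun K hK => ?_
    · rw [if_pos (show R' / 25 ≤ diam (K : Set ℂ) from hK.1),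
        if_neg (show ¬ R / 25 ≤ diam (K : Set ℂ) from hK.2), ha]
    · by_cases h3 : R / 25 ≤ diam (K : Set ℂ)
      · rw [if_pos h3, if_pos (by linarith)]
      · rw [if_neg h3, if_neg fun h4 : R' / 25 ≤ diam (K : Set ℂ) => hK ⟨h4, h3⟩]
  · rw [soup, e1]
    exact pp_anti hPPA hDMEA hDMON _ _ ε t
  · rw [soup, e2]
    exact pp_anti hPPA hDMEA hDMON _ _ ε t

end Pool.Agent.P.MP_d66c6d_pr
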