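import Pool.Agent.P.MP_d66c6d_pr.M.Iface
import Pool.Agent.P.MP_d66c6d_pr.F.Iface

/-! Step PPM of the carpet project. -/

namespace Pool.Agent.P.MP_d66c6d_pr

open MeasureTheory ProbabilityTheory Set Metric Filter Topology
open scoped ENNReal

theorem p_PPM (hPPO : S_PPO) :
    S_PPM := by
  intro E _ m hm A B hA hAB H hH
  have hsplit : m.restrict B = m.restrict A + (m.restrict B).restrict Aᶜ := by
    conv_lhs => rw [← Measure.restrict_add_restrict_compl (μ := m.restrict B) hA]
    rw [Measure.restrict_restrict hA, inter_eq_left.2 hAB]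
  have h1 := (hPPO E (m.restrict A) inferInstance).1 ((m.restrict B).restrict Aᶜ) inferInstance
  rw [← hsplit] at h1
  rw [← h1]
  refine le_trans ?_ (Measure.le_map_apply (Measurable.cfgUnion measurable_fst measurable_snd).aemeasurable H)
  calc PP (m.restrict A) H
      = ((PP (m.restrict A)).prod (PP ((m.restrict B).restrict Aᶜ))) (H ×ˢ univ) := by
        rw [Measure.prod_prod, measure_univ, mul_one]
    _ ≤ _ := by
        refine measure_mono ?_
        rintro ⟨S, T⟩ ⟨hS, -⟩
        exact hH S (S ∪ T) subset_union_left hS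

end Pool.Agent.P.MP_d66c6d_pr
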