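import Pool.Agent.P.MP_d66c6d_pr.M.Iface

/-! Step RARE of the carpet project. -/

namespace Pool.Agent.P.MP_d66c6d_pr

open MeasureTheory ProbabilityTheory Set Metric Filter Topology
open scoped ENNReal

namespace RareA

variable {ν : Measure Br} {κ c lam L : ℝ}

theorem union {z : ℂ} {r : ℝ} {E E' : Set (Cfg KC)} {p p' : ℝ≥0∞} (h : Rare ν κ c lam L z r E p)
    (h' : Rare ν κ c lam L z r E' p') : Rare ν κ c lam L z r (E ∪ E') (p + p') := by
  intro m hm F hF
  rw [union_inter_distrib_right, union_inter_distrib_right, add_mul]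
  exact (measure_union_le _ _).trans (add_le_add (h m hm F hF) (h' m hm F hF))

/-- A far event without enclosing loops is an outside event for a distant disc. -/
theorem out (hFAR : S_FAR) {z z' : ℂ} {ρ : ℝ} {E : Set (Cfg KC)} (hρ : 0 < ρ)
    (hd : 20 * ρ ≤ dist z z') (hE : FarE z (10 * ρ) E) : OutE z' ρ (E ∩ NoCE z ρ) :=
  hFAR.2.2.2.2.2.2.2.2.1 _ _ _ _ (hE.2 z' ρ hρ (by linarith))
    ((hFAR.2.2.2.1 z ρ hρ).2 z' ρ hρ (by linarith))

theorem out_all (hFAR : S_FAR) {ι : Type} (I : Finset ι) {z : ℂ} {ρ : ℝ} {G : ι → Set (Cfg KC)}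
    (h : ∀ i ∈ I, OutE z ρ (G i)) : OutE z ρ (⋂ i ∈ I, G i) := by
  classical
  induction I using Finset.induction_on with
  | empty => simpa using hFAR.2.2.2.2.2.2.2.1 z ρ
  | insert a s ha ih =>
    rw [Finset.set_biInter_insert]
    exact hFAR.2.2.2.2.2.2.2.2.1 _ _ _ _ (h a (Finset.mem_insert_self _ _))
      (ih fun i hi => h i (Finset.mem_insert_of_mem hi))

end RareA

theorem p_RARE (hFAR : S_FAR) :
    S_RARE := by
  classical
  intro ν κ c lam L hlam hL
  have hO := hFAR.2.2.2.2.2.2.2.2.2.1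
  have hA := fun z z' ρ ρ' m => hFAR.2.2.2.2.2.2.2.2.2.2 ν κ c lam z z' ρ ρ' m hlam
  refine ⟨fun z r E E' p p' hE hp h m hm F hF => ?_, fun z r E p hp m hm F hF => ?_,
    fun z r E p q h h' m hm F hF => ?_, fun ι I z r E p h => ?_,
    fun z r E E' p p' => RareA.union, fun z z' r r' E p hd h m hm F hF => ?_,
    fun z z₁ z₂ r r' E₁ E₂ p₁ p₂ hr d₁ d₂ d hE h₁ h₂ m hm F hF => ?_,
    fun ι I z r E p m hr hd h => ?_⟩
  · exact ((measure_mono (inter_subset_inter_left _ (inter_subset_inter_left _ hE))).trans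
      (h m hm F hF)).trans (mul_le_mul_left hp _)
  · exact (measure_mono inter_subset_right).trans (le_mul_of_one_le_left' hp)
  · rcases le_total p q with a | a
    · rw [min_eq_left a]
      exact h m hm F hF
    · rw [min_eq_right a]
      exact h' m hm F hF
  · induction I using Finset.induction_on with
    | empty =>
      intro m hm F hF
      simp
    | insert a s ha ih =>
      rw [Finset.set_biUnion_insert, Finset.sum_insert ha]
      exact RareA.union (h a (Finset.mem_insert_self _ _))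
        (ih fun i hi => h i (Finset.mem_insert_of_mem hi))
  · exact (measure_mono (inter_subset_inter_left _ inter_subset_left)).trans
      (h m (hA _ _ _ _ m hd hm) F (hO _ _ _ _ F hd hF))
  · have a₁ := h₁ m (hA _ _ _ _ m d₁ hm) (E₂ ∩ NoCE z₂ (L * r') ∩ F)
      (hFAR.2.2.2.2.2.2.2.2.1 _ _ _ _
        (RareA.out hFAR (mul_pos hL hr) (by rwa [dist_comm]) hE) (hO _ _ _ _ F d₁ hF))
    have a₂ := h₂ m (hA _ _ _ _ m d₂ hm) F (hO _ _ _ _ F d₂ hF)
    rw [mul_assoc p₁]
    refine le_trans (measure_mono ?_) (a₁.trans (mul_le_mul_right a₂ _))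
    rintro S ⟨⟨⟨s₁, s₂⟩, -⟩, s₃⟩
    exact ⟨s₁, s₂, s₃⟩
  · induction I using Finset.induction_on with
    | empty => simp
    | insert a s ha ih =>
      obtain ⟨b₁, -, b₃⟩ := h a (Finset.mem_insert_self _ _)
      rw [Finset.set_biInter_insert, Finset.card_insert_of_notMem ha, pow_succ']
      refine (b₃ m b₁ _ (RareA.out_all hFAR s fun i hi => RareA.out hFAR (mul_pos hL hr)
        (hd i (Finset.mem_insert_of_mem hi) a (Finset.mem_insert_self _ _)
          fun e => ha (e ▸ hi)) (h i (Finset.mem_insert_of_mem hi)).2.1)).trans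
        (mul_le_mul_right (ih (fun i hi j hj => hd i (Finset.mem_insert_of_mem hi) j
          (Finset.mem_insert_of_mem hj)) fun i hi => h i (Finset.mem_insert_of_mem hi)) _)

end Pool.Agent.P.MP_d66c6d_pr
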