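import Pool.Agent.P.MP_d66c6d_pr.M.Iface
import Pool.Agent.P.MP_d66c6d_pr.D.Iface

/-! Step REF of the carpet project. -/

namespace Pool.Agent.P.MP_d66c6d_pr

open MeasureTheory ProbabilityTheory Set Metric Filter Topology
open scoped ENNReal

namespace RefA

theorem join_any (γ : Br) {G : Set ℂ} (h : range γ ⊆ G) (a b : unitInterval) :
    JoinedIn G (γ a) (γ b) := by
  have k : ∀ s t : unitInterval, s ≤ t → JoinedIn G (γ s) (γ t) := fun s t hst => by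
    obtain ⟨β, h0, h1, h2⟩ := exists_br_piece γ hst
    exact joinedIn_iff_br.2 ⟨β, h0, h1, h2 ▸ (image_subset_range _ _).trans h⟩
  rcases le_total a b with e | e
  · exact k a b e
  · exact (k b a e).symm

theorem far {γ : Br} (h : CrsG 0 1 γ) (z : ℂ) : ∃ b, 1 / 2 < dist (γ b) z := by
  obtain ⟨h0, h1⟩ := h
  rw [mem_closedBall] at h0
  rw [mem_ball, not_lt] at h1
  by_contra hn
  simp only [not_exists, not_lt] at hn
  linarith [hn 0, hn 1, dist_triangle (γ 1) z (γ 0), dist_triangle (γ 1) (γ 0) 0,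
    dist_comm z (γ 0)]

theorem det (hGRID : S_GRID) (hZREP : S_ZREP) (hBLK : S_BLK) {T : Set (Set ℂ)} (hT : Cpt T)
    {L r ε : ℝ} (hL : 10 ≤ L) (hr : 0 < r) (hr' : 100 * (L * r) ≤ 1) {B : Finset (ℤ × ℤ)}
    (hB : Skel T r B) (v : ℤ × ℤ → ℝ)
    (hv : ∀ c ∈ B, NoC T (gp (r / 2) c) (L * r) → Zle T (gp (r / 2) c) r ε (v c)) :
    Nle T 0 1 ε (3 * ∑ c ∈ B, v c) := by
  classical
  have hh : 0 < r / 2 := half_pos hr
  have hLr : 10 * r ≤ L * r := mul_le_mul_of_nonneg_right hL hr.le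
  have hinj : Function.Injective (gp (r / 2)) := fun c c' e => by
    have := (hGRID.2.2.1 (r / 2) c c' hh).1
    rw [e, dist_self] at this
    exact dist_le_zero.1 (nonpos_of_mul_nonpos_right this hh)
  have hinv := Function.leftInverse_invFun hinj
  have hZ : ∀ c ∈ B, Zle T (gp (r / 2) c) r ε (v c) := fun c hc => by
    obtain ⟨γ, ⟨g1, g2⟩, g3⟩ := hB (L * r) (by linarith)
    obtain ⟨_, ⟨a, rfl⟩, ha⟩ : c ∈ cells (r / 2) (range γ) := g2 ▸ hc
    obtain ⟨b, hb⟩ := far g1.1 (gp (r / 2) c)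
    refine hv c hc (hBLK T _ (γ a) (γ b) _ _ hT (by linarith) le_rfl
      (closedBall_subset_closedBall (by linarith) ha) ?_ (join_any γ g3 a b))
    rw [mem_closedBall, not_le]
    linarith
  intro ξ hξ
  obtain ⟨ξ', h0, h1⟩ := hZREP T r ε (B.image (gp (r / 2)))
    (fun z => v (Function.invFun (gp (r / 2)) z)) hr (fun z hz => by
      obtain ⟨c, hc, rfl⟩ := Finset.mem_image.1 hz
      rw [hinv c]
      exact hZ c hc) ξ hξ
  obtain ⟨γ, ⟨g1, g2⟩, g3⟩ := hB ξ' h0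
  obtain ⟨γ', a0, a1, a2, a3⟩ := h1 _ Finset.Subset.rfl γ (fun y hy => ⟨g3 hy, by
      obtain ⟨c, hc⟩ := hGRID.2.1 (r / 2) y hh
      have hcB : c ∈ cells (r / 2) (range γ) := ⟨y, hy, mem_closedBall'.2 hc.le⟩
      rw [g2] at hcB
      exact mem_iUnion₂.2 ⟨_, Finset.mem_image_of_mem _ hcB, mem_ball'.2 (by linarith)⟩⟩)
    fun z _ => by
      obtain ⟨b, hb⟩ := far g1.1 z
      refine ⟨γ b, ?_, join_any γ g3 0 b⟩
      rw [mem_ball, not_lt]
      linarith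
  refine ⟨γ', ⟨a0 ▸ g1.1.1, a1 ▸ g1.1.2⟩, a2.trans inter_subset_left, ?_⟩
  rw [Finset.sum_image fun _ _ _ _ e => hinj e] at a3
  simpa only [hinv _] using a3

end RefA

theorem p_REF (hGAW : S_GAW) (hRARE : S_RARE) (hRTR : S_RTR) (hFAR : S_FAR) (hGRID : S_GRID) (hZREP : S_ZREP) (hBLK : S_BLK) :
    S_REF := by
  intro ν hν L A hL
  obtain ⟨C, hC, h₀, hh₀, hG⟩ := hGAW ⌈40 * L⌉₊ A
  have hL0 : 0 < L := by linarith
  refine ⟨3 * C, by positivity, min h₀ (1 / (100 * L)), by positivity, ?_⟩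
  rintro κ c lam hlam r ⟨hr, hr0⟩ ε s m hs hT hA
  have hh : 0 < r / 2 := half_pos hr
  have hr1 : 100 * (L * r) ≤ 1 := by
    have := (le_div_iff₀ (by positivity)).1 (hr0.trans (min_le_right _ _))
    linarith
  have hLr : 10 * r ≤ L * r := mul_le_mul_of_nonneg_right hL hr.le
  have key := hG (r / 2) ⟨hh, by linarith [hr0.trans (min_le_left _ _)]⟩ (Cfg KC) (PP m)
    (fun b t => ZB (gp (r / 2) b) r ε (t * s) ∩ NoCE (gp (r / 2) b) (L * r))
    fun t ht B _ hS hn => by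
      refine (hRARE ν κ c lam L hlam hL0).2.2.2.2.2.2.2 (ℤ × ℤ) B (gp (r / 2)) r _ _ m hr
        (fun i hi j hj hij => ?_) fun i hi => ⟨hA _ (mem_closedBall_zero_iff.2 (hn i hi)), ?_, ?_⟩
      · refine le_trans ?_ (hGRID.2.2.1 (r / 2) i j hh).1
        have h1 := mul_le_mul_of_nonneg_left ((Nat.le_ceil _).trans (hS i hi j hj hij)) hh.le
        linarith
      · refine hFAR.2.2.2.2.1 _ _ _ _ _ ?_ (hFAR.2.2.1 _ r _ hr (hFAR.1 _ r ε (t * s) hr).1)
        rw [dist_self]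
        linarith
      · have := (hRTR ν hν κ c lam L (gp (r / 2) i) r _ hr).1 _ _ (hT t ht)
        rwa [div_mul_cancel₀ _ hr.ne'] at this
  refine le_trans (measure_mono ?_) (key.trans (ENNReal.ofReal_le_ofReal (by nlinarith)))
  rintro S ⟨B, hB, hN⟩
  refine ⟨B, (hGRID.2.2.2.2.2.1 _ r B hr (by linarith) hB).1, fun u hu => not_le.1 fun hc => hN ?_⟩
  intro ξ hξ
  obtain ⟨γ, g1, g2, g3⟩ := RefA.det (ε := ε) hGRID hZREP hBLK (cpt_sets S) hL hr hr1 hB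
    (fun b => u b * s) (fun b hb hn => by_contra fun hz => hu b hb ⟨hz, hn⟩) ξ hξ
  refine ⟨γ, g1, g2, g3.mono le_rfl ?_ Subset.rfl⟩
  rw [← Finset.sum_mul]
  nlinarith [mul_le_mul_of_nonneg_right hc hs]

end Pool.Agent.P.MP_d66c6d_pr
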