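import Pool.Agent.P.MP_d66c6d_pr.M.Iface
import Pool.Agent.P.MP_d66c6d_pr.D.Iface
import Pool.Agent.P.MP_d66c6d_pr.F.Iface

/-! Step RTR of the carpet project. -/

namespace Pool.Agent.P.MP_d66c6d_pr

open MeasureTheory ProbabilityTheory Set Metric Filter Topology
open scoped ENNReal

namespace RtrA

theorem dist_sim (z : ℂ) {r : ℝ} (hr : 0 < r) (u v : ℂ) :
    dist (r * u + z) (r * v + z) = r * dist u v := by
  rw [dist_add_right, dist_eq_norm, dist_eq_norm, ← mul_sub, norm_mul, Complex.norm_real,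
    Real.norm_of_nonneg hr.le]

theorem map_wd {μ μ' : Measure KC} {φ : KC → KC} (h : MeasurePreserving φ μ μ') {f : KC → ℝ≥0∞}
    (hf : Measurable f) : (μ.withDensity (f ∘ φ)).map φ = μ'.withDensity f := by
  ext A hA
  rw [Measure.map_apply h.measurable hA, withDensity_apply _ (h.measurable hA),
    withDensity_apply _ hA, ← h.setLIntegral_comp_preimage hA hf]
  rfl

theorem gen (hDSIM : S_DSIM) (hDMEA : S_DMEA) (hPPO : S_PPO) (hMUK : S_MUK) {ν : Measure Br}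
    (hν : IsBridge ν) {κ c lam L : ℝ} {z : ℂ} {r : ℝ} {p : ℝ≥0∞} (hr : 0 < r) {E E' : Set (Cfg KC)}
    (hE : MeasurableSet E) (hE' : ∀ S : Cfg KC, S.map (simK r z) ∈ E → S ∈ E')
    (h : Rare ν κ c lam L 0 1 E' p) : Rare ν κ c lam L z r E p := by
  rintro m ⟨V, f, hV, hb, hc, hf, h1, h2, rfl⟩ F ⟨hF, hF'⟩
  have hr0 : (r : ℂ) ≠ 0 := Complex.ofReal_ne_zero.2 hr.ne'
  have hn : ‖(r : ℂ)‖ = r := by rw [Complex.norm_real, Real.norm_of_nonneg hr.le]
  have hsf := (hMUK ν hν).2.1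
  have hmp := (hMUK ν hν).2.2.1 r z hr0
  have hin : inK ((fun w : ℂ => r * w + z) ⁻¹' V) = simK r z ⁻¹' inK V := by
    ext K
    exact image_subset_iff.symm
  have hmp' := hmp.restrict_preimage (isOpen_inK hV).measurableSet
  rw [← hin] at hmp'
  have hmC : Measurable (Cfg.map (simK (r : ℂ) z)) := measurable_cfgMap hmp.measurable
  have hz : (r : ℂ) * 0 + z = z := by simp
  have hL : ‖(r : ℂ)‖ * (L * 1) = L * r := by rw [hn]; ring
  have hadm : Adm ν κ c lam 0 (L * 1) (((muK ν).restrict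
      (inK ((fun w : ℂ => r * w + z) ⁻¹' V))).withDensity (f ∘ simK r z)) := by
    refine ⟨(fun w : ℂ => r * w + z) ⁻¹' V, _, hV.preimage (by fun_prop), ?_,
      fun w hw => hc ?_, hf.comp hmp.measurable, fun K => h1 _, fun K hK => h2 _ ?_, rfl⟩
    · obtain ⟨R, hR⟩ := hb.subset_closedBall z
      refine (isBounded_closedBall (x := (0 : ℂ)) (r := R / r)).subset fun w hw => ?_
      have := mem_closedBall.1 (hR hw)
      have e := dist_sim z hr w 0
      rw [hz] at e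
      rw [mem_closedBall, le_div_iff₀ hr]
      linarith
    · have e := dist_sim z hr w 0
      rw [hz] at e
      have := mul_le_mul_of_nonneg_left (mem_closedBall.1 hw) hr.le
      rw [mem_closedBall, e]
      linarith
    · have h3 : diam (simK r z K : Set ℂ) ≤ r * diam (K : Set ℂ) := by
        refine diam_le_of_forall_dist_le (mul_nonneg hr.le diam_nonneg) ?_
        rintro _ ⟨u, hu, rfl⟩ _ ⟨v, hv, rfl⟩
        rw [dist_sim z hr]
        exact mul_le_mul_of_nonneg_left (dist_le_diam_of_mem K.isCompact.isBounded hu hv) hr.le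
      have := mul_lt_mul_of_pos_left hK hr
      linarith
  have hout : OutE 0 (L * 1) (Cfg.map (simK r z) ⁻¹' F) := by
    refine ⟨hmC hF, fun S S' e1 e2 => hF' _ _ ?_ ?_⟩
    · have := ((hDSIM r z hr0 (sets S) 0 (L * 1)).2.2.2.1 (sets S')).2 e1
      rwa [hz, hL, ← (hDSIM r z hr0 ∅ 0 0).2.2.2.2, ← (hDSIM r z hr0 ∅ 0 0).2.2.2.2] at this
    · have := ((hDSIM r z hr0 (sets S') 0 (L * 1)).2.2.2.1 (sets S)).2 e2
      rwa [hz, hL, ← (hDSIM r z hr0 ∅ 0 0).2.2.2.2, ← (hDSIM r z hr0 ∅ 0 0).2.2.2.2] at this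
  have hN : MeasurableSet {S : Cfg KC | NoC (sets S) z (L * r)} := hDMEA.2.2.2.2.1 z (L * r)
  rw [← map_wd hmp' hf, ← (hPPO KC _ inferInstance).2.2.1 KC _ hmp.measurable,
    Measure.map_apply hmC ((hE.inter hN).inter hF), Measure.map_apply hmC hF]
  refine (measure_mono fun S hS => ?_).trans (h _ hadm _ hout)
  refine ⟨⟨hE' S hS.1.1, (hDSIM r z hr0 (sets S) 0 (L * 1)).2.2.1.1 ?_⟩, hS.2⟩
  rw [hz, hL, ← (hDSIM r z hr0 ∅ 0 0).2.2.2.2]
  exact hS.1.2

end RtrA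

theorem p_RTR (hDSIM : S_DSIM) (hDMEA : S_DMEA) (hDMEZ : S_DMEZ) (hDMEB : S_DMEB) (hPPO : S_PPO) (hMUK : S_MUK) :
    S_RTR := by
  intro ν hν κ c lam L z r p hr
  have hr0 : (r : ℂ) ≠ 0 := Complex.ofReal_ne_zero.2 hr.ne'
  have hn : ‖(r : ℂ)‖ = r := by rw [Complex.norm_real, Real.norm_of_nonneg hr.le]
  have hz : (r : ℂ) * 0 + z = z := by simp
  have hs := (hDSIM r z hr0 ∅ 0 0).2.2.2.2
  refine ⟨fun ε t => RtrA.gen hDSIM hDMEA hPPO hMUK hν hr (hDMEZ _ z r (ε * r) t).compl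
      fun S hS h => hS ?_,
    fun ε t => RtrA.gen hDSIM hDMEA hPPO hMUK hν hr (hDMEA.2.2.1 _ _ _ _) fun S hS => ?_,
    fun δ => RtrA.gen hDSIM hDMEA hPPO hMUK hν hr (hDMEB.1 _ _ _) fun S hS => ?_⟩
  · have := ((hDSIM r z hr0 (sets S) 0 1).1 ε t).1.2 h
    rwa [hz, hn, mul_one, mul_comm r ε, ← hs] at this
  · refine ((hDSIM r z hr0 (sets S) 0 1).1 ε t).2.1.1 ?_
    rw [hz, hn, mul_one, mul_comm r ε, ← hs]
    exact hS
  · refine ((hDSIM r z hr0 (sets S) 0 1).2.1 δ).1 ?_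
    rw [hz, hn, mul_one, mul_comm r δ, ← hs]
    exact hS

end Pool.Agent.P.MP_d66c6d_pr
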