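import Pool.Agent.P.MP_d66c6d_pr.M.Iface
import Pool.Agent.P.MP_d66c6d_pr.R.Iface
import Pool.Agent.P.MP_d66c6d_pr.L.Iface
import Pool.Agent.P.MP_d66c6d_pr.F.Iface
import Pool.Agent.P.MP_d66c6d_pr.B.Iface

/-! Step RZS of the carpet project. -/

namespace Pool.Agent.P.MP_d66c6d_pr

open MeasureTheory ProbabilityTheory Set Metric Filter Topology
open scoped ENNReal

namespace RzsA

theorem sub {Ω Ω' : Type} [MeasurableSpace Ω] [MeasurableSpace Ω'] (μ : Measure Ω)
    [IsFiniteMeasure μ] (P : Measure Ω') {A : ℕ → Set Ω} {G : ℕ → Set Ω'}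
    (hA : ∀ k, MeasurableSet (A k)) (hG : Tendsto (fun k => P (G k)) atTop (𝓝 0))
    (h : ∀ φ : ℕ → ℕ, Tendsto φ atTop atTop → P (limsup (fun k => G (φ k)) atTop) = 0 →
      μ (limsup (fun k => A (φ k)) atTop) = 0) : Tendsto (fun k => μ (A k)) atTop (𝓝 0) := by
  refine tendsto_of_subseq_tendsto fun ns hns => ?_
  obtain ⟨ε, h0, h1⟩ := ENNReal.exists_pos_sum_of_countable' one_ne_zero ℕ
  obtain ⟨φ, hφ, h2⟩ := extraction_forall_of_eventually fun j =>
    (hG.comp hns).eventually_le_const (h0 j)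
  have h3 := h _ (hns.comp hφ.tendsto_atTop) (measure_limsup_atTop_eq_zero
    ((ENNReal.tsum_le_tsum h2).trans_lt (h1.trans ENNReal.one_lt_top)).ne)
  refine ⟨φ, ?_⟩
  rw [← measure_empty (μ := μ)]
  refine tendsto_measure_of_ae_tendsto_indicator_of_isFiniteMeasure _ .empty (fun _ => hA _) ?_
  filter_upwards [measure_eq_zero_iff_ae_notMem.1 h3] with x hx
  simpa [mem_limsup_iff_frequently_mem] using hx

theorem meas (D c : ℝ) (n : ℕ) :
    Measurable (locX D c : Cfg (KC × ℝ) × (Fin n → TP) → Cfg KC) :=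
  Measurable.cfgUnion (((measurable_res (isOpen_inK isOpen_ball).measurableSet).comp
    (measurable_lev c)).comp measurable_fst) (measurable_arcs.comp measurable_snd)

end RzsA

theorem p_RZS (hRNUL : S_RNUL) (hLVA : S_LVA) (hPPO : S_PPO) (hMUK : S_MUK) (hREV : S_REV) :
    S_RZS := by
  intro ν hν L β hβ c₀ c₂ θ R h0 h1 h2 hl hR cs E G hc ht hm hG hJ
  have := hβ.fin
  have := (hMUK ν hν).2.1
  have hB := (isOpen_inK (isOpen_ball (x := (0 : ℂ)) (ε := 10 * L))).measurableSet
  have h3 : ∀ᶠ k in atTop, cs k ≤ 1 := ht.eventually_le_const (h1.trans_le h2)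
  have key : ∀ n, Tendsto (fun k => refM ν (cs k) L β n (E k)) atTop (𝓝 0) := fun n => by
    refine (RzsA.sub ((lsoup ν c₀ (max R (10 * L))).prod (Measure.pi fun _ : Fin n => β))
      (lsoup ν c₀ R) (fun k => RzsA.meas (10 * L) (cs k) n (hm k).1) hG fun φ hφ h => ?_).congr' ?_
    · refine hRNUL ν hν L β hβ c₀ c₂ θ h0 h1 h2 hl R hR n _
        (MeasurableSet.measurableSet_limsup fun k => (hm _).2) h _
        (MeasurableSet.measurableSet_limsup fun k => RzsA.meas _ _ n (hm _).1)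
        fun q hq c' hc' J 𝒯 h𝒯 => ?_
      simp only [mem_limsup_iff_frequently_mem] at hq ⊢
      refine frequently_exists.1 ((hq.and_eventually ((hφ.eventually (hJ J)).and
        (hφ.eventually (ht.eventually_le_const hc')))).mono fun k hk => ?_)
      exact hk.2.1 _ hk.1 𝒯 (h𝒯 _ ⟨hc _, hk.2.2⟩)
    filter_upwards [h3] with k hk
    have m1 := (hLVA ν hν c₀ ⟨h0.le, (h1.trans_le h2).le⟩ (ball 0 (max R (10 * L)))
      isOpen_ball).2.2.1 _ ⟨hc k, hk⟩
    have m2 : MeasurePreserving (Cfg.res (inK (ball 0 (10 * L))))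
        (soupN ν (cs k) (ball 0 (max R (10 * L)))) (soup ν (cs k) (ball 0 (10 * L))) :=
      ⟨measurable_res hB, ((hPPO _ _ inferInstance).2.1 _ hB).trans (by
        rw [Measure.restrict_smul, Measure.restrict_restrict_of_subset]
        exacts [rfl, fun K hK => Subset.trans hK (ball_subset_ball (le_max_right _ _))])⟩
    have m3 := ((m2.comp m1).prod (MeasurePreserving.id (Measure.pi fun _ : Fin n => β)))
    have m4 : Measurable fun q : Cfg KC × (Fin n → TP) => q.1 ∪ arcs q.2 := by fun_prop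
    rw [refM, Measure.map_apply m4 (hm k).1, ← m3.measure_preimage (m4 (hm k).1).nullMeasurableSet]
    rfl
  refine ⟨key, (key 0).congr fun k => ?_, fun κ hU hE lam hlam p hp => ?_⟩
  · have e : (fun q : Cfg KC × (Fin 0 → TP) => q.1 ∪ arcs q.2) = Prod.fst :=
      funext fun q => Cfg.ext (by simp [arcs])
    rw [refM, e, Measure.map_fst_prod, Measure.pi_univ, Finset.univ_eq_empty, Finset.prod_empty,
      one_smul]
  · obtain ⟨δ, N, hδ, h⟩ := hU lam hlam p hp
    filter_upwards [h3, (eventually_all_finite (finite_le_nat N)).2 fun n _ =>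
      (key n).eventually_le_const (pos_iff_ne_zero.2 hδ)] with k hk hk'
    exact h _ ⟨h0.trans_le (hc k), hk⟩ _ (hE k) hk'

end Pool.Agent.P.MP_d66c6d_pr
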