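import Pool.Agent.P.MP_d66c6d_pr.M.Iface
import Pool.Agent.P.MP_d66c6d_pr.D.Iface
import Pool.Agent.P.MP_d66c6d_pr.F.Iface

/-! Step SMP of the carpet project. -/

namespace Pool.Agent.P.MP_d66c6d_pr

open MeasureTheory ProbabilityTheory Set Metric Filter Topology
open scoped ENNReal

theorem p_SMP (hPPM : S_PPM) (hGRID : S_GRID) (hMUK : S_MUK) :
    S_SMP := by
  intro ν hν c hc
  have hσ := (hMUK ν hν).2.1
  have key : ∀ A B : Set KC, MeasurableSet A → A ⊆ B → ∀ H : Set (Cfg KC),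
      (∀ S T : Cfg KC, sets S ⊆ sets T → S ∈ H → T ∈ H) →
      PP (ENNReal.ofReal c • (muK ν).restrict A) H ≤
        PP (ENNReal.ofReal c • (muK ν).restrict B) H := fun A B hA hAB H hH => by
    rw [← Measure.restrict_smul, ← Measure.restrict_smul]
    exact hPPM KC _ inferInstance A B hA hAB H fun S T h => hH S T (image_mono h)
  refine ⟨fun R D hD hDR => ?_, fun A hA => ?_⟩
  · have h1 : soup ν c (ball 0 R) {S | ¬ Tame (sets S)} = 0 :=
      ae_iff.1 ((hc.1 R).mono fun S h => h.1)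
    exact ae_iff.2 (le_antisymm ((key D _ hD hDR {S | ¬ Tame (sets S)}
      fun S T h h2 h3 => h2 (h3.mono h)).trans h1.le) zero_le)
  obtain ⟨C, hC⟩ := hc.2 A
  refine ⟨25 * max C 0 * 2 ^ A, fun z ρ g w D hg hρ hw hD hDg => ?_⟩
  obtain ⟨Q, hQ, hQ'⟩ := hGRID.1 g (2 * ρ) z hg (by linarith)
  have h1 : 1 ≤ ρ / g := (one_le_div hg).2 hρ
  have h2 : 2 ≤ w / g := (le_div_iff₀ hg).2 hw
  have h3 : (Q.card : ℝ) ≤ 25 * (ρ / g) ^ 2 := by
    refine hQ'.trans ?_
    have : 2 * (2 * ρ) / g = 4 * (ρ / g) := by ring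
    rw [this]
    nlinarith
  have h4 : (w / g - 1) ^ (-A) ≤ 2 ^ A * (w / g) ^ (-A) := by
    refine (Real.rpow_le_rpow_of_nonpos (x := w / g / 2) (by linarith) (by linarith)
      (by linarith)).trans (le_of_eq ?_)
    rw [Real.div_rpow (by linarith) (by norm_num), Real.rpow_neg (by norm_num : (0 : ℝ) ≤ 2),
      div_inv_eq_mul, mul_comm]
  have h5 : 0 ≤ (w / g - 1) ^ (-A) := Real.rpow_nonneg (by linarith) _
  refine (key D _ hD hDg {S | ¬ Sm (sets S) (ball z ρ) w} fun S T h h6 h7 => h6 fun y hy h8 =>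
    h7 y hy (h8.mono h Subset.rfl Subset.rfl)).trans ?_
  have h6 : {S : Cfg KC | ¬ Sm (sets S) (ball z ρ) w} ⊆ ⋃ k ∈ Q, {S | Joins (sets S)
      (closedBall (gp g k) g) (ball (gp g k) ((w / g - 1) * g))ᶜ} := by
    intro S hS
    simp only [Sm, mem_ofPred_eq, not_forall, not_not] at hS
    obtain ⟨y, hy, hS⟩ := hS
    obtain ⟨k, hk⟩ := hGRID.2.1 g y hg
    refine mem_iUnion₂.2 ⟨k, (hQ k).2 ?_, hS.mono Subset.rfl ?_ (compl_subset_compl.2 ?_)⟩
    · have := dist_triangle (gp g k) y z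
      have := mem_ball.1 hy
      linarith
    · rw [singleton_subset_iff, mem_closedBall, dist_comm]
      exact hk.le
    · refine ball_subset_ball' ?_
      rw [sub_mul, div_mul_cancel₀ _ hg.ne']
      linarith
  refine (measure_mono h6).trans ((measure_biUnion_finset_le _ _).trans ?_)
  refine (Finset.sum_le_card_nsmul _ _ (ENNReal.ofReal (max C 0 * (w / g - 1) ^ (-A)))
    fun k _ => (hC _ g _ hg (by linarith)).trans (ENNReal.ofReal_le_ofReal
      (mul_le_mul_of_nonneg_right (le_max_left _ _) h5))).trans ?_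
  rw [nsmul_eq_mul, ← ENNReal.ofReal_natCast, ← ENNReal.ofReal_mul (Nat.cast_nonneg _)]
  refine ENNReal.ofReal_le_ofReal ?_
  calc (Q.card : ℝ) * (max C 0 * (w / g - 1) ^ (-A))
      ≤ 25 * (ρ / g) ^ 2 * (max C 0 * (2 ^ A * (w / g) ^ (-A))) :=
        mul_le_mul h3 (mul_le_mul_of_nonneg_left h4 (le_max_right _ _))
          (mul_nonneg (le_max_right _ _) h5) (by positivity)
    _ = _ := by ring

end Pool.Agent.P.MP_d66c6d_pr
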