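import Pool.Agent.P.MP_d66c6d_pr.M.Iface
import Pool.Agent.P.MP_d66c6d_pr.D.Iface

/-! Step STA of the carpet project. -/

namespace Pool.Agent.P.MP_d66c6d_pr

open MeasureTheory ProbabilityTheory Set Metric Filter Topology
open scoped ENNReal

theorem p_STA (hFEW : S_FEW) (hRARE : S_RARE) (hRTR : S_RTR) (hFAR : S_FAR) (hGRID : S_GRID) :
    S_STA := by
  intro ν hν κ L c a hL hB hN
  obtain ⟨p, hp, C, h₀, hh, hF⟩ := hFEW ⌈40 * L⌉₊
  have L0 : 0 < L := by linarith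
  have hlam : 0 < 1 / (25 * L) := by positivity
  have hp2 : p / 2 ≠ 0 := by simp [hp]
  obtain ⟨δ, ⟨d0, d1⟩, hδ⟩ := hB _ hlam _ hp2
  obtain ⟨K, K1, K2⟩ : ∃ K : ℝ, 10 ≤ K ∧ 5 ≤ δ * K :=
    ⟨max 10 (5 / δ), le_max_left _ _, (div_le_iff₀' d0).1 (le_max_right _ _)⟩
  have K0 : 0 < K := by linarith
  obtain ⟨N, hN'⟩ := exists_nat_ge ((6 * K + 1) ^ 2)
  obtain ⟨τ, t0, ε₀, e0, hτ⟩ := hN _ hlam (p / 2 / N) (by simp [hp])
  refine ⟨δ, K, K1, K2, τ, t0, ε₀ / K, by positivity, C / 2, 2 * h₀, by positivity,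
    fun R hR ε hε m hm => ?_⟩
  have R0 := hR.1
  obtain ⟨r, hr⟩ : ∃ r, r = R / K := ⟨_, rfl⟩
  have r0 : 0 < r := by rw [hr]; positivity
  have r1 : r * K = R := by rw [hr]; field_simp
  have r2 : 10 * r ≤ R := by nlinarith
  have r3 : 10 * (L * r) ≤ L * R := by nlinarith
  have r4 : 10 * R ≤ L * R := by nlinarith
  have he : ε / r ∈ Ioo 0 ε₀ := ⟨div_pos hε.1 r0, by
    rw [div_lt_iff₀ r0, hr, ← mul_div_assoc, mul_div_right_comm]
    exact hε.2⟩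
  rw [← hr, show C / 2 * R = C * (R / 2) by ring]
  obtain ⟨f1, f2, f3, f4, f5, f6, f7, -⟩ := hFAR
  obtain ⟨g1, -, -, g2, g3, g4, -, g5⟩ := hRARE ν κ c _ L hlam L0
  choose Q hQ hQc using fun b => hGRID.1 (r / 2) (3 / 2 * R) (gp (R / 2) b) (by positivity)
    (by positivity)
  refine hF (R / 2) ⟨by positivity, by linarith [hR.2]⟩ _ (PP m)
    (fun b => {S | badA L R r δ ε (τ * a (ε / r)) S b}) fun B _ hs hb => ?_
  refine le_trans (measure_mono (iInter₂_mono fun b _ S hS => ?_))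
    (g5 _ B (gp (R / 2)) R (fun b => BE (gp (R / 2) b) R (δ * R) ∪
      ⋃ x ∈ Q b, NE (gp (r / 2) x) r ε (τ * a (ε / r)) ∩ NoCE (gp (r / 2) x) (L * r)) p m R0
      (fun b h1 b' h2 h3 => ?_) fun b h1 => ⟨hm _ (mem_closedBall_zero_iff.2 (hb b h1)), ?_, ?_⟩)
  · refine ⟨hS.2.imp id ?_, hS.1⟩
    rintro ⟨x, x1, x2, x3⟩
    exact mem_iUnion₂.2 ⟨x, (hQ b x).2 x1, x3, x2⟩
  · have h4 := (hGRID.2.2.1 (R / 2) b b' (by positivity)).1
    have h5 := (Nat.le_ceil (40 * L)).trans (hs b h1 b' h2 h3)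
    nlinarith
  · refine (f6 _ _ _ _ (f5 _ _ _ _ _ (by rw [dist_self]; linarith)
      (f3 _ _ _ R0 (f2 _ _ _ R0 (by nlinarith)))) (f7 _ _ _ _ _ fun x hx => ?_)).2
    have h2 := (hQ b x).1 hx
    exact (f6 _ _ _ _ (f5 _ _ _ _ _ (by linarith) (f3 _ _ _ r0 (f1 _ _ _ _ r0).2))
      (f5 _ _ _ _ _ (by linarith) (f4 _ _ (by positivity)))).1
  · refine g1 _ _ _ _ _ _ Subset.rfl ?_ (g3 _ _ _ _ _ _ ((hRTR ν hν _ _ _ _ _ _ _ R0).2.2 _ hδ)
      (g2 _ _ _ _ _ (fun _ => p / 2 / N) fun x hx => g4 _ _ _ _ _ _ ?_ ?_))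
    · have h2 : (Q b).card ≤ N := by
        have h3 := hQc b
        rw [show 2 * (3 / 2 * R) / (r / 2) = 6 * K by rw [← r1]; field_simp; norm_num] at h3
        exact_mod_cast h3.trans hN'
      rw [Finset.sum_const, nsmul_eq_mul]
      refine le_trans (add_le_add le_rfl ?_) (ENNReal.add_halves p).le
      exact (mul_le_mul_left (by exact_mod_cast h2) _).trans ENNReal.mul_div_le
    · linarith [(hQ b x).1 hx]
    · have h2 := (hRTR ν hν _ _ _ _ (gp (r / 2) x) _ _ r0).2.1 _ _ (hτ _ he).1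
      rwa [div_mul_cancel₀ _ r0.ne'] at h2

end Pool.Agent.P.MP_d66c6d_pr
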