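import Pool.Agent.P.MP_d66c6d_pr.M.Iface
import Pool.Agent.P.MP_d66c6d_pr.D.Iface
import Pool.Agent.P.MP_d66c6d_pr.F.Iface

/-! Step STB of the carpet project. -/

namespace Pool.Agent.P.MP_d66c6d_pr

open MeasureTheory ProbabilityTheory Set Metric Filter Topology
open scoped ENNReal

namespace StbA

theorem meas_loc (z : ℂ) (r g : ℝ) : MeasurableSet (locK z r g) :=
  (isOpen_inK isOpen_ball).measurableSet.inter (measurableSet_bigK g).compl

theorem meas_mid (z : ℂ) (r g R : ℝ) : MeasurableSet (midK z r g R) :=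
  ((isOpen_hitK isOpen_ball).measurableSet.inter (measurableSet_bigK g)).inter
    (measurableSet_bigK _).compl

theorem loc_sub {z w : ℂ} {r g R : ℝ} (hr : 10 * r ≤ R) (h : dist z w ≤ 3 / 2 * R) :
    locK z r g ⊆ inK (ball w (2 * R)) := fun K hK x hx => by
  have h1 : x ∈ ball z (5 * r) := hK.1 hx
  have h2 := dist_triangle x z w
  rw [mem_ball] at h1 ⊢
  linarith

theorem mid_sub {z w : ℂ} {r g R : ℝ} (hr : 10 * r ≤ R) (hR : 0 ≤ R) (h : dist z w ≤ 3 / 2 * R) :
    midK z r g R ⊆ inK (ball w (2 * R)) ∩ bigK g := fun K hK => ⟨fun x hx => by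
  obtain ⟨y, hy, h1⟩ := hK.1.1
  have h3 := dist_lt_of_not_bigK hK.2 hx hy
  have h2 := dist_triangle4 x y z w
  rw [mem_ball] at h1 ⊢
  linarith, hK.1.2⟩

/-- The bad event of a cell only depends on the loops near the cell. -/
theorem bad_res {R r g : ℝ} {n : ℕ} {G : ℤ × ℤ → Set (Cfg KC)} (hr : 10 * r ≤ R) (hR : 0 ≤ R)
    (b : ℤ × ℤ) : Cfg.res (inK (ball (gp (R / 2) b) (2 * R))) ⁻¹' {S | badC R r g n G S b} =
      {S | badC R r g n G S b} := by
  ext S
  simp only [mem_preimage, mem_ofPred_eq, badC]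
  refine exists_congr fun c => and_congr_right fun h => ?_
  have e1 : (S.res (inK (ball (gp (R / 2) b) (2 * R)))).res (locK (gp (r / 2) c) r g) =
      S.res (locK (gp (r / 2) c) r g) := by
    ext1
    simp only [Cfg.pts_res]
    rw [inter_assoc, inter_eq_right.2 (loc_sub hr h)]
  rw [e1, Cfg.pts_res, inter_assoc, inter_eq_right.2 ((mid_sub hr hR h).trans inter_subset_left)]

theorem bad_eq {R r g : ℝ} {n : ℕ} {G : ℤ × ℤ → Set (Cfg KC)} {b : ℤ × ℤ} {Q : Finset (ℤ × ℤ)}
    (hQ : ∀ c, c ∈ Q ↔ dist (gp (r / 2) c) (gp (R / 2) b) ≤ 3 / 2 * R) :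
    {S | badC R r g n G S b} = ⋃ c ∈ Q, Cfg.res (locK (gp (r / 2) c) r g) ⁻¹' (G c)ᶜ ∪
      {S | ¬ (S.pts ∩ midK (gp (r / 2) c) r g R).encard ≤ n} := by
  ext S
  simp only [badC, mem_ofPred_eq, mem_iUnion, hQ, mem_union, mem_preimage, mem_compl_iff,
    exists_prop]

end StbA

open StbA in
theorem p_STB (hGONE : S_GONE) (hFEW : S_FEW) (hMDL : S_MDL) (hGRID : S_GRID) (hJOINT : S_JOINT) (hENUM : S_ENUM) (hPPO : S_PPO) (hMUK : S_MUK) :
    S_STB := by
  classical
  intro ν hν κ L c c₁ θ a hκ hL hc hc₁ hc₂ ha hθ hS hT K hK τ hτ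
  obtain ⟨p, hp, C, h₀, hh₀, hF⟩ := hFEW 8
  obtain ⟨N, hN⟩ := exists_nat_ge ((6 * K + 1) ^ 2)
  set q : ℝ≥0∞ := p / (2 * N) with hq
  have hq0 : q ≠ 0 := ENNReal.div_ne_zero.2 ⟨hp, by finiteness⟩
  obtain ⟨η, hη, ε₂, hε₂, hG⟩ := hGONE ν hν κ L c θ a hκ hL hc ha hθ hS hT τ hτ q hq0
  obtain ⟨C₀, -, hC₀⟩ := (hMUK ν hν).2.2.2.1
  obtain ⟨n₀, -, hn₀⟩ := ENNReal.exists_nat_pos_mul_gt hq0
    (b := ENNReal.ofReal c₁ * ENNReal.ofReal (C₀ * (2 * K / η) ^ 2)) (by finiteness)
  have hK0 : 0 < K := by linarith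
  refine ⟨η, hη, n₀, ε₂ / K, by positivity, C / 2, min 1 (2 * h₀), by positivity,
    fun R hR ε hε => ?_⟩
  have hR0 := hR.1
  have hR1 : R ≤ 1 := hR.2.trans (min_le_left _ _)
  have hR2 : R ≤ 2 * h₀ := hR.2.trans (min_le_right _ _)
  set r := R / K with hr
  have hr0 : 0 < r := by positivity
  have hr1 : 10 * r ≤ R := by
    rw [hr, ← mul_div_assoc, div_le_iff₀ hK0]
    nlinarith
  have hε' : ε ∈ Ioo 0 (ε₂ * r) := by
    rwa [show ε₂ * r = ε₂ / K * R by rw [hr]; ring]
  obtain ⟨hσ, hle, -, hres, -⟩ := (hMDL ν hν κ L c hκ hL hc).2.2 c₁ hc₁ hc₂ (25 * (η * r))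
  rw [show 25 * (η * r) / 25 = η * r by ring] at hres
  set m := mdl ν L c c₁ (25 * (η * r)) with hm
  let G : ℤ × ℤ → Set (Cfg KC) := fun x => (toMeasurable
    (PP (ENNReal.ofReal c • (muK ν).restrict (locK (gp (r / 2) x) r (η * r))))
    {S | ¬ Zon (sets S) (gp (r / 2) x) (7 / 4 * r) ε (τ * a (ε / r))})ᶜ
  have hGm : ∀ x, MeasurableSet (G x) := fun x => (measurableSet_toMeasurable _ _).compl
  refine ⟨G, fun x => ⟨hGm x, fun S hS => ?_⟩, ?_⟩
  · by_contra hn
    exact hS (subset_toMeasurable _ _ hn)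
  have hQ := fun b => hGRID.1 (r / 2) (3 / 2 * R) (gp (R / 2) b) (by positivity) (by positivity)
  choose Q hQ hQc using hQ
  have hmeas : ∀ b, MeasurableSet {S | badC R r (η * r) n₀ G S b} := fun b => by
    rw [bad_eq (hQ b)]
    exact Finset.measurableSet_biUnion _ fun x _ =>
      (measurable_res (meas_loc _ _ _) (hGm x).compl).union
        ((hENUM KC).1 _ (meas_mid _ _ _ _) n₀).compl
  have hone : ∀ b, ‖gp (R / 2) b‖ ≤ 3 → PP m {S | badC R r (η * r) n₀ G S b} ≤ p := by
    intro b hb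
    rw [bad_eq (hQ b)]
    refine (measure_biUnion_finset_le _ _).trans ((Finset.sum_le_card_nsmul _ _ (q + q)
      fun x hx => (measure_union_le _ _).trans (add_le_add ?_ ?_)).trans ?_)
    · have hsub : locK (gp (r / 2) x) r (η * r) ⊆ inK (ball 0 (10 * L)) ∩ (bigK (η * r))ᶜ :=
        fun Y hY => ⟨(loc_sub hr1 ((hQ b x).1 hx) hY).trans
          (ball_subset_ball' (by rw [dist_zero_right]; linarith)), hY.2⟩
      rw [← Measure.map_apply (measurable_res (meas_loc _ _ _)) (hGm x).compl,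
        (hPPO KC m inferInstance).2.1 _ (meas_loc _ _ _), hres _ (meas_loc _ _ _) hsub,
        compl_compl, measure_toMeasurable]
      exact hG _ r hr0 ε hε'
    · have h1 := (hJOINT KC).1 m inferInstance _ (meas_mid (gp (r / 2) x) r (η * r) R) n₀
      have h2 : m (midK (gp (r / 2) x) r (η * r) R) ≤
          ENNReal.ofReal c₁ * ENNReal.ofReal (C₀ * (2 * K / η) ^ 2) := by
        refine (hle _).trans ?_
        rw [Measure.smul_apply, smul_eq_mul]
        refine mul_le_mul_right ((Measure.restrict_le_self _).trans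
          ((measure_mono (mid_sub hr1 hR0.le ((hQ b x).1 hx))).trans ?_)) _
        have h3 := hC₀ (gp (R / 2) b) (2 * R) (η * r) (by positivity) (mul_pos hη.1 hr0)
        have hη0 := hη.1
        rwa [show 2 * R / (η * r) = 2 * K / η by rw [hr]; field_simp] at h3
      have h3 := (h1.trans h2).trans (hn₀.le.trans
        (mul_le_mul_left (show (n₀ : ℝ≥0∞) ≤ n₀ + 1 from le_self_add) q))
      exact (ENNReal.mul_le_mul_iff_right (by positivity) (by finiteness)).1 h3
    · have h1 : (Q b).card ≤ N := by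
        have h2 := hQc b
        rw [show 2 * (3 / 2 * R) / (r / 2) = 6 * K by rw [hr]; field_simp; ring] at h2
        exact_mod_cast h2.trans hN
      rw [nsmul_eq_mul, ← two_mul, ← mul_assoc, mul_comm _ 2]
      refine le_trans (mul_le_mul_left ?_ q) (ENNReal.mul_div_le (a := 2 * N) (b := p))
      exact mul_le_mul_right (by exact_mod_cast h1) 2
  have key := hF (R / 2) ⟨by positivity, by linarith⟩ (Cfg KC) (PP m)
    (fun b => {S | badC R r (η * r) n₀ G S b}) fun B _ hB hB3 => by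
      have hind := (hPPO KC m inferInstance).2.2.2.2.1 (ℤ × ℤ)
        (fun b => if b ∈ B then inK (ball (gp (R / 2) b) (2 * R)) else ∅)
        (fun b => by
          split_ifs
          exacts [(isOpen_inK isOpen_ball).measurableSet, MeasurableSet.empty])
        (fun b b' hne => by
          dsimp only
          split_ifs with h h'
          · refine Set.disjoint_left.2 fun Y h1 h2 => ?_
            obtain ⟨y, hy⟩ := Y.nonempty
            have h3 : y ∈ ball (gp (R / 2) b) (2 * R) := h1 hy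
            have h4 : y ∈ ball (gp (R / 2) b') (2 * R) := h2 hy
            have h5 := (hGRID.2.2.1 (R / 2) b b' (by positivity)).1
            have h6 := mul_le_mul_of_nonneg_left (hB b h b' h' hne) (show 0 ≤ R / 2 by positivity)
            have h7 := dist_triangle_left (gp (R / 2) b) (gp (R / 2) b') y
            rw [mem_ball] at h3 h4
            push_cast at h6
            linarith
          all_goals simp)
      rw [hind.meas_biInter fun b hb => ⟨_, hmeas b, by
        simp only [if_pos hb]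
        exact bad_res hr1 hR0.le b⟩]
      exact Finset.prod_le_pow_card _ _ _ fun b hb => hone b (hB3 b hb)
  rwa [show C * (R / 2) = C / 2 * R by ring] at key

end Pool.Agent.P.MP_d66c6d_pr
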