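import Pool.Agent.P.MP_d66c6d_pr.M.Iface
import Pool.Agent.P.MP_d66c6d_pr.D.Iface
import Pool.Agent.P.MP_d66c6d_pr.F.Iface

/-! Step STD of the carpet project. -/

namespace Pool.Agent.P.MP_d66c6d_pr

open MeasureTheory ProbabilityTheory Set Metric Filter Topology
open scoped ENNReal

namespace StdA

theorem sets_mono {A S : Cfg KC} (h : A.pts ⊆ S.pts) : sets A ⊆ sets S := image_mono h

theorem meas (hDMEA : S_DMEA) (hENUM : S_ENUM) (R r g ε u : ℝ) (n₀ : ℕ)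
    (G : ℤ × ℤ → Set (Cfg KC)) (hG : ∀ x, MeasurableSet (G x)) (n : ℕ) (I : Finset (ℤ × ℤ)) :
    MeasurableSet (HE R r g ε u n₀ G n I) := by
  have h1 : HE R r g ε u n₀ G n I = {S : Cfg KC | Via (sets S) {γ ∈ CrsB | Cov ε n (range γ) ∧
      ∀ c ∈ I, (range γ ∩ closedBall (gp (r / 2) c) (r / 2)).Nonempty}} ∩
      ⋂ c ∈ I, (vd (bigK (R / 25) ∩ hitK (ball (gp (r / 2) c) (4 * r))) ∩
        ((NE (gp (r / 2) c) r ε u)ᶜ ∩ (Cfg.res (locK (gp (r / 2) c) r g) ⁻¹' G c ∩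
        {S : Cfg KC | (S.pts ∩ midK (gp (r / 2) c) r g R).encard ≤ n₀}))) := by
    ext S
    simp only [HE, mem_ofPred_eq, mem_inter_iff, mem_iInter, mem_compl_iff, mem_preimage]
  rw [h1]
  refine (hDMEA.2.1 _).inter (Finset.measurableSet_biInter I fun c _ => ?_)
  have hh : MeasurableSet (hitK (ball (gp (r / 2) c) (4 * r))) :=
    (isOpen_hitK isOpen_ball).measurableSet
  refine (measurableSet_vd ((measurableSet_bigK _).inter hh)).inter
    ((hDMEA.2.2.1 _ _ _ _).compl.inter ((measurable_res ?_ (hG c)).inter ((hENUM KC).1 _ ?_ _)))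
  · exact (isOpen_inK isOpen_ball).measurableSet.inter (measurableSet_bigK _).compl
  · exact (hh.inter (measurableSet_bigK _)).inter (measurableSet_bigK _).compl

theorem few {h : ℝ} {p q : ℤ × ℤ → Prop} (hp : ¬ Many h p) (hq : ¬ Many h q)
    (B : Finset (ℤ × ℤ)) (hB : Ani h B) : 2 * {b | b ∈ B ∧ (p b ∨ q b)}.ncard ≤ B.card := by
  have h1 : 4 * {c | c ∈ B ∧ p c}.ncard ≤ B.card := not_lt.1 fun h' => hp ⟨B, hB, h'⟩
  have h2 : 4 * {c | c ∈ B ∧ q c}.ncard ≤ B.card := not_lt.1 fun h' => hq ⟨B, hB, h'⟩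
  have h3 : {b | b ∈ B ∧ (p b ∨ q b)} = {c | c ∈ B ∧ p c} ∪ {c | c ∈ B ∧ q c} := by
    ext b
    simp only [mem_ofPred_eq, mem_union, and_or_left]
  have h4 := ncard_union_le {c | c ∈ B ∧ p c} {c | c ∈ B ∧ q c}
  rw [h3]
  omega

theorem same {A S : Cfg KC} {z : ℂ} {r g R : ℝ} (hr : 0 < r) (hg : g ≤ r) (hAS : A.pts ⊆ S.pts)
    (hSA : ∀ K ∈ S.pts, K ∉ bigK g → K ∈ A.pts)
    (h1 : S ∈ vd (bigK (R / 25) ∩ hitK (ball z (4 * r)))) (h2 : A ∈ vd (midK z r g R)) :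
    Same (ball z (2 * (7 / 4 * r))) 1 (sets (S.res (locK z r g))) (sets A) := by
  intro ξ _ _
  ext x
  simp only [mem_inter_iff, mem_TT]
  refine and_congr_left fun hx => ⟨?_, ?_⟩
  · rintro ⟨_, ⟨K, hK, rfl⟩, h3, h4⟩
    rw [Cfg.pts_res] at hK
    exact ⟨K, ⟨K, hSA K hK.1 hK.2.2, rfl⟩, h3, h4⟩
  · rintro ⟨_, ⟨K, hK, rfl⟩, h3, h4⟩
    have hx' : dist x z < 2 * (7 / 4 * r) := hx
    have hh : K ∈ hitK (ball z (4 * r)) := ⟨x, h4, mem_ball.2 (by linarith)⟩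
    have h5 : K ∉ bigK (R / 25) := fun h => mem_vd.1 h1 K (hAS hK) ⟨h, hh⟩
    have h6 : K ∉ bigK g := fun h => mem_vd.1 h2 K hK ⟨⟨hh, h⟩, h5⟩
    have h7 : diam (K : Set ℂ) < g := not_le.1 h6
    refine ⟨K, ⟨K, ?_, rfl⟩, h3, h4⟩
    rw [Cfg.pts_res]
    refine ⟨hAS hK, fun y hy => ?_, h6⟩
    have h8 := dist_le_diam_of_mem K.isCompact.isBounded hy h4
    have h9 := dist_triangle y x z
    exact mem_ball.2 (by linarith)

end StdA

theorem p_STD (hSEL : S_SEL) (hZGAI : S_ZGAI) (hDLOC : S_DLOC) (hDMON : S_DMON) (hDMEA : S_DMEA) (hGRID : S_GRID) (hENUM : S_ENUM) :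
    S_STD := by
  classical
  intro R r g ε u n₀ G
  refine ⟨StdA.meas hDMEA hENUM R r g ε u n₀ G, ?_, ?_⟩
  · intro L δ s t A S hL hr hrR hLR hδ hs hAS hbig hmA hmC hsk ht
    obtain ⟨n, hn1, hn2, hn3⟩ := hDMON.2.2.2.2.2.2.2.2.2.2 _ _ _ ht
    have hR : 0 < R := by linarith
    have hR1 : R ≤ 1 := by nlinarith
    obtain ⟨B, I, h1, h2, h3, h4, h5⟩ := hSEL (sets A) (sets S) L R r δ ε n
      (fun b => badA L R r δ ε u A b ∨ badC R r g n₀ G S b) (cpt_sets A) (StdA.sets_mono hAS)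
      (by
        rintro _ ⟨K, hK, rfl⟩ h
        exact ⟨K, hbig K hK h, rfl⟩) hL hr hrR hLR hδ hn2 (StdA.few hmA hmC)
      (fun b hb h h' => hb (Or.inl ⟨h, Or.inl h'⟩))
    have h2' : (B.card : ℝ) ≤ 578 * I.card := by exact_mod_cast h2
    have h6 := hn3 _ (hsk B h1)
    have h7 := (hGRID.2.2.2.2.2.1 _ R B hR hR1 h1).1.2.2
    refine ⟨n, I, hn1, ?_, ?_, h5, h3, fun c hc => ?_⟩
    · have := mul_le_mul_of_nonneg_left h2' hs
      linarith
    · have := mul_le_mul_of_nonneg_left h2' hR.le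
      linarith
    · obtain ⟨k1, k2, b, k3, k4, k5⟩ := h4 c hc
      rw [not_or] at k3
      refine ⟨mem_vd.2 ?_, fun h => k3.1 ⟨k4, Or.inr ⟨c, k5, k2, ?_⟩⟩, ?_, ?_⟩
      · rintro K hK ⟨hK1, x, hx1, hx2⟩
        exact Set.disjoint_left.1 k1 hx2 (mem_TT.2 ⟨K, ⟨K, hK, rfl⟩, hK1, hx1⟩)
      · exact hDMON.2.2.2.2.1 _ _ _ _ _ _ _ _ (StdA.sets_mono hAS) le_rfl le_rfl h
      · by_contra h
        exact k3.2 ⟨c, k5, Or.inl h⟩
      · by_contra h
        exact k3.2 ⟨c, k5, Or.inr h⟩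
  · intro v A S n I I' hε hεr hrR hR hg hv hG hAS hSA hsep hS hI hA
    have hr : 0 < r := by linarith
    have hinj : Set.InjOn (gp (r / 2)) (I' : Set (ℤ × ℤ)) := by
      intro c hc c' hc' h
      by_contra hne
      have := hsep c (hI hc) c' (hI hc') hne
      rw [h, dist_self] at this
      linarith
    have h := hZGAI (sets A) (sets S) r ε n u v (I'.image (gp (r / 2))) (StdA.sets_mono hAS) hε hεr
      (by linarith) ?_ (hS.1.mono Subset.rfl ?_) hv ?_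
    · rwa [Finset.card_image_of_injOn hinj] at h
    · intro z hz z' hz' hne
      obtain ⟨c, hc, rfl⟩ := Finset.mem_image.1 hz
      obtain ⟨c', hc', rfl⟩ := Finset.mem_image.1 hz'
      have := hsep c (hI hc) c' (hI hc') fun h => hne (h ▸ rfl)
      linarith
    · rintro γ ⟨k1, k2, k3⟩
      refine ⟨k1, k2, fun z hz => ?_⟩
      obtain ⟨c, hc, rfl⟩ := Finset.mem_image.1 hz
      exact k3 c (hI hc)
    · intro z hz
      obtain ⟨c, hc, rfl⟩ := Finset.mem_image.1 hz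
      obtain ⟨k1, k2, k3, -⟩ := hS.2 c (hI hc)
      refine ⟨k2, ?_⟩
      exact ((hDLOC _ _ _ (7 / 4 * r) 1 (by linarith) one_pos
        (StdA.same hr hg hAS hSA k1 (hA c hc))).1 ε v).2.2 (hG c _ k3)

end Pool.Agent.P.MP_d66c6d_pr
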