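import Pool.Agent.P.MP_d66c6d_pr.M.Iface
import Pool.Agent.P.MP_d66c6d_pr.F.Iface
import Pool.Agent.P.MP_d66c6d_pr.D.Iface

/-! Step STEP of the carpet project. -/

namespace Pool.Agent.P.MP_d66c6d_pr

open MeasureTheory ProbabilityTheory Set Metric Filter Topology
open scoped ENNReal

namespace StepA

/-- Admissible pairs of a cost and a family of cells. -/
abbrev Idx (R r s t : ℝ) : Type :=
  {x : ℕ × Finset (ℤ × ℤ) // (x.1 : ℝ) ≤ t ∧ (x.1 : ℝ) ≤ 578 * s * x.2.card ∧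
    1 ≤ 2312 * R * x.2.card ∧
    ∀ c ∈ x.2, ∀ c' ∈ x.2, c ≠ c' → R ≤ dist (gp (r / 2) c) (gp (r / 2) c')}

/-- The class of the extra loops. -/
def XCl (L R g : ℝ) : Set KC := inK (ball 0 (10 * L)) ∩ bigK g ∩ (bigK (R / 25))ᶜ

theorem meas_XCl (L R g : ℝ) : MeasurableSet (XCl L R g) :=
  ((isOpen_inK isOpen_ball).measurableSet.inter (measurableSet_bigK _)).inter
    (measurableSet_bigK _).compl

theorem meas_mid (z : ℂ) (r g R : ℝ) : MeasurableSet (midK z r g R) :=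
  ((isOpen_hitK isOpen_ball).measurableSet.inter (measurableSet_bigK _)).inter
    (measurableSet_bigK _).compl

theorem mid_disj {z z' : ℂ} {r g R : ℝ} (hr : 0 < r) (h10 : 10 * r ≤ R) (h : R ≤ dist z z') :
    Disjoint (midK z r g R) (midK z' r g R) := by
  refine Set.disjoint_left.2 fun K hK hK' => ?_
  obtain ⟨x, hx, hxz⟩ := hK.1.1
  obtain ⟨y, hy, hyz⟩ := hK'.1.1
  have h1 := dist_lt_of_not_bigK hK.2 hx hy
  have h2 := dist_triangle4 z x y z'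
  rw [mem_ball] at hxz hyz
  rw [dist_comm] at hxz
  linarith

/-- The labelling event. -/
def Lab (L R r g ε u s t q : ℝ) (n₀ : ℕ) (G : ℤ × ℤ → Set (Cfg KC)) : Set (Cfg KC × Cfg KC) :=
  {p | (∃ i : Idx R r s t, p.1 ∪ p.2 ∈ HE R r g ε u n₀ G i.1.1 i.1.2) ∧
    ∀ i : Idx R r s t, p.1 ∪ p.2 ∈ HE R r g ε u n₀ G i.1.1 i.1.2 →
      2 * ({j | j ∈ i.1.2 ∧ p.1 ∈ vd (midK (gp (r / 2) j) r g R ∩ XCl L R g)}.ncard : ℝ) <
        q * i.1.2.card}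

theorem detStep (hSTD : S_STD) (hDMON : S_DMON) {L R r g δ ε u v s t β q : ℝ} {n₀ : ℕ}
    {G : ℤ × ℤ → Set (Cfg KC)} {A X : Cfg KC} (hL : 10 ≤ L) (hr : 0 < r) (h10 : 10 * r ≤ R)
    (h100 : 100 * L * R ≤ 1) (h5 : 5 * r ≤ δ * R) (hs : 0 ≤ s) (hε : 0 < ε) (h40 : 40 * ε ≤ r)
    (hg : g ≤ r) (hv : 0 ≤ v) (huv : v ≤ u) (hβ0 : 0 ≤ β) (hβ1 : β ≤ 1)
    (hβ : β * (578 * s) ≤ q / 2 * (u - v))
    (hG : ∀ x, ∀ S' ∈ G x, Zon (sets S') (gp (r / 2) x) (7 / 4 * r) ε v)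
    (hA : ∀ K ∈ A.pts, K ∈ inK (ball 0 (10 * L))) (hX : ∀ K ∈ X.pts, K ∈ XCl L R g)
    (h1 : ¬ Many (R / 2) (badA L R r δ ε u A)) (h2 : ¬ Many (R / 2) (badC R r g n₀ G (A ∪ X)))
    (h3 : ∀ B, Skel (sets (A ∪ X)) R B → Nle (sets (A ∪ X)) 0 1 ε (s * B.card))
    (h4 : (A, X) ∉ Lab L R r g ε u s t q n₀ G) (hN : A ∪ X ∈ NE 0 1 ε t) :
    A ∈ NE 0 1 ε ((1 - β) * t) := by
  classical
  have hsub : A.pts ⊆ (A ∪ X).pts := subset_union_left
  obtain ⟨n, I, a1, a2, a3, a4, a5⟩ := (hSTD R r g ε u n₀ G).2.1 L δ s t A (A ∪ X) hL hr h10 h100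
    h5 hs hsub (fun K hK hb => hK.elim id fun h => absurd hb (hX K h).2) h1 h2 h3 hN
  have h5' : ¬ ∀ i : Idx R r s t, A ∪ X ∈ HE R r g ε u n₀ G i.1.1 i.1.2 →
      2 * ({j | j ∈ i.1.2 ∧ A ∈ vd (midK (gp (r / 2) j) r g R ∩ XCl L R g)}.ncard : ℝ) <
        q * i.1.2.card := fun h => h4 ⟨⟨⟨(n, I), a1, a2, a3, a4⟩, a5⟩, h⟩
  obtain ⟨⟨⟨m, J⟩, b1, b2, b3, b4⟩, hi⟩ := not_forall.1 h5'
  obtain ⟨b5, b6⟩ := Classical.not_imp.1 hi
  simp only at b1 b2 b4 b5 b6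
  have e : {j | j ∈ J ∧ A ∈ vd (midK (gp (r / 2) j) r g R ∩ XCl L R g)} =
      ↑(J.filter fun j => A ∈ vd (midK (gp (r / 2) j) r g R ∩ XCl L R g)) := by
    ext j
    simp
  rw [e, ncard_coe_finset, not_lt] at b6
  have hR1 : R ≤ 1 := by nlinarith
  have h6 := (hSTD R r g ε u n₀ G).2.2 v A (A ∪ X) m J
    (J.filter fun j => A ∈ vd (midK (gp (r / 2) j) r g R ∩ XCl L R g)) hε h40 h10 hR1 hg hv hG hsub
    (fun K hK hb => hK.elim id fun h => absurd (hX K h).1.2 hb) b4 b5 (Finset.filter_subset _ _)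
    fun j hj => mem_vd.2 fun K hK hm => mem_vd.1 (Finset.mem_filter.1 hj).2 K hK
      ⟨hm, ⟨hA K hK, hm.1.2⟩, hm.2⟩
  refine hDMON.2.2.2.2.1 _ _ _ _ _ _ _ _ Subset.rfl le_rfl ?_ h6
  generalize ((J.filter fun j => A ∈ vd (midK (gp (r / 2) j) r g R ∩ XCl L R g)).card : ℝ) = k
    at b6 ⊢
  have c0 : (0 : ℝ) ≤ J.card := Nat.cast_nonneg _
  have c1 : β * m ≤ β * (578 * s * J.card) := mul_le_mul_of_nonneg_left b2 hβ0
  have c2 : β * (578 * s) * J.card ≤ q / 2 * (u - v) * J.card := mul_le_mul_of_nonneg_right hβ c0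
  have c3 : q * J.card * (u - v) ≤ 2 * k * (u - v) :=
    mul_le_mul_of_nonneg_right b6 (sub_nonneg.2 huv)
  have c4 : (1 - β) * m ≤ (1 - β) * t := mul_le_mul_of_nonneg_left b1 (sub_nonneg.2 hβ1)
  nlinarith

theorem lab_le (hSTD : S_STD) (hLABEL : S_LABEL) (hMUK : S_MUK) {ν : Measure Br} (hν : IsBridge ν)
    {L R r g ε u s t c c' : ℝ} {n₀ : ℕ} {G : ℤ × ℤ → Set (Cfg KC)} {m₀ : Measure KC} [SFinite m₀]
    (hL : 10 ≤ L) (hr : 0 < r) (h10 : 10 * r ≤ R) (hg : 0 < g) (hc : 0 ≤ c) (hc' : 0 < c')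
    (hm : m₀.restrict (XCl L R g) = ENNReal.ofReal c • (muK ν).restrict (XCl L R g))
    (hG : ∀ x, MeasurableSet (G x)) :
    (PP m₀).prod (PP (ENNReal.ofReal c' • (muK ν).restrict (XCl L R g)))
      (Lab L R r g ε u s t ((c' / (c + c')) ^ n₀) n₀ G) ≤
      ENNReal.ofReal (4 / ((c' / (c + c')) ^ n₀ * (1 / (2312 * R)))) := by
  have hR : 0 < R := by linarith
  obtain ⟨-, -, -, ⟨C, -, hC⟩, -, hat, -⟩ := hMUK ν hν
  refine hLABEL KC (muK ν) m₀ (XCl L R g) c c' (1 / (2312 * R)) n₀ (Idx R r s t) (ℤ × ℤ)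
    (fun i => i.1.2) (fun j => midK (gp (r / 2) j) r g R ∩ XCl L R g)
    (fun i => HE R r g ε u n₀ G i.1.1 i.1.2) inferInstance (meas_XCl L R g) ?_ hat hc hc' hm
    (by positivity) (fun j => ⟨(meas_mid _ _ _ _).inter (meas_XCl L R g), inter_subset_right⟩)
    fun i => ⟨(hSTD R r g ε u n₀ G).1 hG _ _, ?_, fun j hj j' hj' hne => ?_, fun S hS j hj => ?_⟩
  · exact ne_top_of_le_ne_top ENNReal.ofReal_ne_top
      ((measure_mono inter_subset_left).trans (hC 0 (10 * L) g (by linarith) hg))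
  · rw [div_le_iff₀ (by positivity)]
    linarith [i.2.2.2.1]
  · exact (mid_disj hr h10 (i.2.2.2.2 j hj j' hj' hne)).mono inter_subset_left inter_subset_left
  · exact (encard_le_encard (inter_subset_inter_right _ inter_subset_left)).trans (hS.2 j hj).2.2.2

/-- The union bound on the product space. -/
theorem cover (hPPO : S_PPO) {m m' : Measure KC} [SFinite m] [SFinite m'] {D M : Set KC}
    (hD : MeasurableSet D) (hM : MeasurableSet M) (hmD : m Dᶜ = 0) (hmM : m' Mᶜ = 0)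
    {N N' E₁ E₂ E₃ : Set (Cfg KC)} {W : Set (Cfg KC × Cfg KC)} (hN : MeasurableSet N)
    (h : ∀ A X : Cfg KC, (∀ K ∈ A.pts, K ∈ D) → (∀ K ∈ X.pts, K ∈ M) → A ∉ E₁ → A ∪ X ∉ E₂ →
      A ∪ X ∉ E₃ → (A, X) ∉ W → A ∪ X ∈ N → A ∈ N') :
    PP (m + m') N ≤ PP m N' + (PP m E₁ + PP (m + m') E₂ + PP (m + m') E₃ +
      (PP m).prod (PP m') W) := by
  have hf : Measurable fun p : Cfg KC × Cfg KC => p.1 ∪ p.2 := by fun_prop
  have hlaw := (hPPO KC m inferInstance).1 m' inferInstance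
  have h1 : ∀ E : Set (Cfg KC), (PP m).prod (PP m') (E ×ˢ univ) = PP m E := fun E => by
    rw [Measure.prod_prod, measure_univ, mul_one]
  have h2 : ∀ E : Set (Cfg KC), (PP m).prod (PP m')
      ((fun p : Cfg KC × Cfg KC => p.1 ∪ p.2) ⁻¹' E) ≤ PP (m + m') E := fun E => by
    rw [← hlaw]
    exact Measure.le_map_apply hf.aemeasurable E
  have h3 : (PP m).prod (PP m') ({S : Cfg KC | ∃ x ∈ S.pts, x ∈ Dᶜ} ×ˢ univ) = 0 := by
    rw [h1]
    exact nonpos_iff_eq_zero.1 (((hPPO KC m inferInstance).2.2.2.2.2.2.2 _ hD.compl).trans hmD.le)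
  have h4 : (PP m).prod (PP m') (univ ×ˢ {S : Cfg KC | ∃ x ∈ S.pts, x ∈ Mᶜ}) = 0 := by
    rw [Measure.prod_prod, measure_univ, one_mul]
    exact nonpos_iff_eq_zero.1 (((hPPO KC m' inferInstance).2.2.2.2.2.2.2 _ hM.compl).trans hmM.le)
  have hsub : (fun p : Cfg KC × Cfg KC => p.1 ∪ p.2) ⁻¹' N ⊆
      (N' ×ˢ univ ∪ (E₁ ×ˢ univ ∪ (fun p : Cfg KC × Cfg KC => p.1 ∪ p.2) ⁻¹' E₂ ∪
        (fun p : Cfg KC × Cfg KC => p.1 ∪ p.2) ⁻¹' E₃ ∪ W)) ∪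
      ({S : Cfg KC | ∃ x ∈ S.pts, x ∈ Dᶜ} ×ˢ univ ∪
        univ ×ˢ {S : Cfg KC | ∃ x ∈ S.pts, x ∈ Mᶜ}) := by
    rintro ⟨A, X⟩ hp
    by_contra hn
    simp only [mem_union, not_or] at hn
    obtain ⟨⟨n0, ⟨⟨n1, n2⟩, n3⟩, n4⟩, n5, n6⟩ := hn
    refine n0 ⟨h A X (fun K hK => ?_) (fun K hK => ?_) (fun h' => n1 ⟨h', trivial⟩) n2 n3 n4 hp,
      trivial⟩
    · by_contra hK'
      exact n5 ⟨⟨K, hK, hK'⟩, trivial⟩
    · by_contra hK'
      exact n6 ⟨trivial, K, hK, hK'⟩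
  rw [← hlaw, Measure.map_apply hf hN, hlaw]
  refine (measure_mono hsub).trans ((measure_union_le _ _).trans ?_)
  rw [measure_union_null h3 h4, add_zero]
  refine (measure_union_le _ _).trans (add_le_add (h1 _).le ?_)
  refine (measure_union_le _ _).trans (add_le_add ?_ le_rfl)
  refine (measure_union_le _ _).trans (add_le_add ?_ (h2 _))
  exact (measure_union_le _ _).trans (add_le_add (h1 _).le (h2 _))

theorem sum4 {a b c d x y z w : ℝ} {R : ℝ} (hR : 0 ≤ R) (hc : 0 ≤ c) (hd : 0 ≤ d) (hx : x = a * R)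
    (hy : y = b * R) (hz : z = c * R) (hw : w = d * R) :
    ENNReal.ofReal x + ENNReal.ofReal y + ENNReal.ofReal z + ENNReal.ofReal w ≤
      ENNReal.ofReal ((|a| + |b| + c + d) * R) := by
  subst hx hy hz hw
  rw [add_mul, add_mul, add_mul, ENNReal.ofReal_add (by positivity) (by positivity),
    ENNReal.ofReal_add (by positivity) (by positivity),
    ENNReal.ofReal_add (by positivity) (by positivity)]
  gcongr <;> exact le_abs_self _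

end StepA

open StepA in
theorem p_STEP (hSTA : S_STA) (hSTB : S_STB) (hSTD : S_STD) (hREF : S_REF) (hLABEL : S_LABEL) (hMDL : S_MDL) (hPPO : S_PPO) (hMUK : S_MUK) (hDMEA : S_DMEA) (hDMON : S_DMON) :
    S_STEP := by
  intro ν hν κ L c c₁ θ a hκ hL hc hcc hc1 hF
  obtain ⟨δ, K, hK, hδK, τ, hτ, εA, hεA, CA, RA, hRA, hA⟩ := hSTA ν hν κ L c a hL hF.hug hF.low
  obtain ⟨η, hη, n₀, εB, hεB, CB, RB, hRB, hB⟩ := hSTB ν hν κ L c c₁ θ a hκ hL hc.le hcc.le hc1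
    hF.nrm hF.one hF.sub hF.tail K hK (τ / 2) (half_pos hτ)
  have hK0 : 0 < K := by linarith
  have hL0 : 0 < L := by linarith
  have hη0 := hη.1
  have hlam' : 0 < η / (K * L) := by positivity
  obtain ⟨A₀, ε₁, hε₁, hT⟩ := hF.tail (η / (K * L)) hlam' 8
  obtain ⟨C₁, hC₁, r₀, hr₀, hR⟩ := hREF ν hν L A₀ hL
  obtain ⟨hapos, t₀, ht₀, hM, -⟩ := hF.nrm
  obtain ⟨ε₀, hε₀, hM⟩ := hM K (by linarith)
  obtain ⟨-, -, hmd⟩ := hMDL ν hν κ L c hκ hL hc.le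
  replace hmd := hmd c₁ hcc.le hc1
  have := (hMUK ν hν).2.1
  have hc' : 0 < c₁ - c := sub_pos.2 hcc
  obtain ⟨q, hq⟩ : ∃ q, q = ((c₁ - c) / (c + (c₁ - c))) ^ n₀ := ⟨_, rfl⟩
  have hq0 : 0 < q := by rw [hq]; positivity
  have hKθ : 0 < K ^ θ := Real.rpow_pos_of_pos hK0 θ
  obtain ⟨β, hβ⟩ : ∃ β, β = min (1 / 2) (q * τ / (4 * (578 * C₁ * (t₀ * K ^ θ)))) := ⟨_, rfl⟩
  have hβ0 : 0 < β := by rw [hβ]; positivity
  have hβ1 : β ≤ 1 / 2 := hβ ▸ min_le_left _ _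
  have hβ2 : β * (4 * (578 * C₁ * (t₀ * K ^ θ))) ≤ q * τ :=
    (le_div_iff₀ (by positivity)).1 (hβ ▸ min_le_right _ _)
  refine ⟨25 * η / K, ⟨by positivity, (div_lt_one hK0).2 (by linarith [hη.2])⟩, 1 - β,
    ⟨by linarith, by linarith⟩, min εA (min εB (min ε₁ (min (ε₀ / K) (1 / (40 * K))))),
    by positivity, |CA| + |CB| + C₁ + 4 * 2312 / q, min RA (min RB (min r₀ (1 / (100 * L)))),
    by positivity, ?_⟩
  rintro R ⟨hR0, hRle⟩ ε ⟨hε0, hε⟩ t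
  simp only [le_min_iff] at hRle
  obtain ⟨r1, r2, r3, r4⟩ := hRle
  rw [← div_lt_iff₀ hR0] at hε
  simp only [lt_min_iff] at hε
  obtain ⟨e1, e2, e3, e4, e5⟩ := hε
  have h100 : 100 * L * R ≤ 1 := by
    rw [le_div_iff₀ (by positivity)] at r4
    linarith
  have hRh : R ≤ 1 / 2 := by nlinarith
  have hr : 0 < R / K := by positivity
  have h10 : 10 * (R / K) ≤ R := by
    rw [← mul_div_assoc, div_le_iff₀ hK0]
    nlinarith
  have h5 : 5 * (R / K) ≤ δ * R := by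
    rw [← mul_div_assoc, div_le_iff₀ hK0]
    nlinarith
  have h40 : 40 * ε ≤ R / K := by
    rw [div_lt_div_iff₀ hR0 (by positivity)] at e5
    rw [le_div_iff₀ hK0]
    nlinarith
  have hg : η * (R / K) ≤ R / K := by nlinarith [hη.2]
  have hlam : 25 * η / K * R = 25 * (η * (R / K)) := by ring
  have hεr : ε / (R / K) / K = ε / R := by field_simp
  have haK := (hM (ε / (R / K)) ⟨by positivity, by
    rw [lt_div_iff₀ hK0, ← hεr, div_mul_cancel₀ _ hK0.ne'] at e4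
    exact e4⟩).2
  rw [hεr] at haK
  have har := hapos (ε / (R / K)) (by positivity)
  have haR := hapos (ε / R) (by positivity)
  obtain ⟨hsf, hle, hadm, hres, hadd, -⟩ := hmd R
  obtain ⟨-, -, hadm', -⟩ := hmd (25 * (η * (R / K)))
  have hsum := hadd (25 * (η * (R / K))) (by nlinarith [hη.2])
  rw [show 25 * (η * (R / K)) / 25 = η * (R / K) by ring] at hsum
  have b1 := hA R ⟨hR0, r1⟩ ε ⟨hε0, (div_lt_iff₀ hR0).1 e1⟩ _
    (hadm (1 / (25 * L)) R hRh (le_of_eq (by field_simp)))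
  obtain ⟨G, hG, b2⟩ := hB R ⟨hR0, r2⟩ ε ⟨hε0, (div_lt_iff₀ hR0).1 e2⟩
  obtain ⟨c', hcc', hT'⟩ := hT (ε / R) ⟨by positivity, e3⟩
  have b3 := hR κ c (η / (K * L)) hlam' R ⟨hR0, r3⟩ ε (a (ε / R)) _ haR.le
    (hT' c ⟨le_rfl, hcc'.le⟩) (hadm' (η / (K * L)) R hRh (le_of_eq (by field_simp)))
  have b4 := lab_le hSTD hLABEL hMUK hν (ε := ε) (u := τ * a (ε / (R / K)))
    (s := C₁ * a (ε / R)) (t := t) (n₀ := n₀) (G := G) hL hr h10 (mul_pos hη0 hr) hc.le hc'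
    (hres _ (meas_XCl L R (η * (R / K))) fun K hK => ⟨hK.1.1, hK.2⟩) fun x => (hG x).1
  rw [← hq] at b4
  rw [hsum] at b2 b3
  rw [hlam, hsum]
  have hD : MeasurableSet (inK (ball (0 : ℂ) (10 * L))) := (isOpen_inK isOpen_ball).measurableSet
  refine (cover hPPO hD (meas_XCl L R (η * (R / K))) ?_ ?_ (hDMEA.2.2.1 _ _ _ _) ?_).trans
    (add_le_add le_rfl ((add_le_add (add_le_add (add_le_add b1 b2) b3) b4).trans
      (sum4 hR0.le hC₁.le (by positivity) rfl rfl rfl (by field_simp))))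
  · refine nonpos_iff_eq_zero.1 ((Measure.le_iff'.1 hle _).trans ?_)
    simp [Measure.restrict_apply hD.compl]
  · have hMm := meas_XCl L R (η * (R / K))
    change (ENNReal.ofReal (c₁ - c) • (muK ν).restrict (XCl L R (η * (R / K)))) _ = 0
    simp [Measure.restrict_apply hMm.compl]
  · intro A X k1 k2 k3 k4 k5 k6 k7
    refine detStep hSTD hDMON hL hr h10 h100 h5 (by positivity) hε0 h40 hg
      (v := τ / 2 * a (ε / (R / K))) (by positivity) (by nlinarith) hβ0.le (by linarith) ?_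
      (fun x => (hG x).2) k1 k2 k3 k4 (fun B hB' => by_contra fun hn => k5 ⟨B, hB', hn⟩) k6 k7
    have i1 : β * (578 * (C₁ * a (ε / R))) ≤
        β * (578 * (C₁ * (t₀ * (K ^ θ * a (ε / (R / K)))))) := by gcongr
    have i2 := mul_le_mul_of_nonneg_right hβ2 har.le
    nlinarith

end Pool.Agent.P.MP_d66c6d_pr
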