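import Pool.Agent.P.MP_d66c6d_pr.M.Iface
import Pool.Agent.P.MP_d66c6d_pr.G.IfaceX
import Pool.Agent.P.MP_d66c6d_pr.A.Iface
import Pool.Agent.P.MP_d66c6d_pr.D.Iface

/-! Step STRICT of the carpet project. -/

namespace Pool.Agent.P.MP_d66c6d_pr

open MeasureTheory ProbabilityTheory Set Metric Filter Topology
open scoped ENNReal

namespace StrictA

/-- Iteration of the step. -/
theorem iter {F : ℝ → ℝ → ℝ≥0∞} {lam b C R : ℝ} (hl : lam ∈ Ioo (0 : ℝ) 1) (hR : 0 < R) (J : ℕ)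
    (h : ∀ j < J, ∀ t, F (lam * (lam ^ j * R)) t ≤
      F (lam ^ j * R) (b * t) + ENNReal.ofReal (C * (lam ^ j * R))) (t : ℝ) :
    F (lam ^ J * R) t ≤ F R (b ^ J * t) + ENNReal.ofReal (|C| * R / (1 - lam) * (1 - lam ^ J)) := by
  induction J generalizing t with
  | zero => simp
  | succ J ih =>
    have h0 := hl.1
    have h1 : 0 < 1 - lam := sub_pos.2 hl.2
    have h2 : 0 ≤ 1 - lam ^ J := sub_nonneg.2 (pow_le_one₀ h0.le hl.2.le)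
    rw [pow_succ' lam, mul_assoc, pow_succ b, mul_assoc]
    refine (h J J.lt_succ_self t).trans ((add_le_add (ih (fun j hj => h j (by omega)) _)
      (ENNReal.ofReal_le_ofReal (mul_le_mul_of_nonneg_right (le_abs_self C)
        (by positivity)))).trans_eq ?_)
    rw [add_assoc, ← ENNReal.ofReal_add (by positivity) (by positivity)]
    congr 2
    field_simp
    ring

theorem loc (hSTEP : S_STEP) (hMDL : S_MDL) (hEXP : S_EXP) (hDMON : S_DMON) {ν : Measure Br}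
    (hν : IsBridge ν) {κ L c c₁ θ θ₁ : ℝ} {a a₁ : ℝ → ℝ} (hκ : 1 ≤ κ) (hL : 10 ≤ L) (hc : 0 < c)
    (h1 : c < c₁) (h2 : c₁ ≤ κ * c) (hF : Full ν κ L c θ a) (hF₁ : Full ν κ L c₁ θ₁ a₁) :
    θ < θ₁ := by
  by_contra hθ
  rw [not_lt] at hθ
  obtain ⟨lam, hl, b, hb, ε₂, hε₂, C, R₀, hR₀, hS⟩ := hSTEP ν hν κ L c c₁ θ a hκ hL hc h1 h2 hF
  obtain ⟨p₀, hp₀, C₁, ε₀, hε₀, hU⟩ := hF₁.up
  obtain ⟨p, hp, hpp⟩ : ∃ p > (0 : ℝ), ENNReal.ofReal p ≤ p₀ := by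
    obtain ⟨p, -, h, h'⟩ := ENNReal.lt_iff_exists_real_btwn.1 (pos_iff_ne_zero.2 hp₀)
    exact ⟨p, ENNReal.ofReal_pos.1 h, h'.le⟩
  obtain ⟨τ, hτ, ε₁, hε₁, hLo⟩ := hF.low 1 one_pos (ENNReal.ofReal (p / 4))
    (ENNReal.ofReal_pos.2 (by positivity)).ne'
  have hl0 := hl.1
  have hl1 : 0 < 1 - lam := sub_pos.2 hl.2
  obtain ⟨R, hR1, hR⟩ : ∃ R, |C| * R / (1 - lam) ≤ p / 2 ∧ R ∈ Ioc 0 R₀ := by
    have : Tendsto (fun R : ℝ => |C| * R / (1 - lam)) (𝓝[>] 0) (𝓝 (|C| * 0 / (1 - lam))) :=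
      (Continuous.tendsto (by fun_prop) 0).mono_left nhdsWithin_le_nhds
    exact ((this.eventually (Iic_mem_nhds (by simpa using hp))).and (Ioc_mem_nhdsGT hR₀)).exists
  obtain ⟨δ, hq, hδ⟩ : ∃ δ, b * lam ^ (-(2 * δ)) < 1 ∧ (0 : ℝ) < δ := by
    have : Tendsto (fun δ : ℝ => b * lam ^ (-(2 * δ))) (𝓝[>] 0) (𝓝 (b * lam ^ (-(2 * (0 : ℝ))))) :=
      (Continuous.tendsto (continuous_const.mul ((Real.continuous_const_rpow hl0.ne').comp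
        (by fun_prop))) 0).mono_left nhdsWithin_le_nhds
    exact ((this.eventually (Iio_mem_nhds (by simpa using hb.2))).and self_mem_nhdsWithin).exists
  obtain ⟨C₂, hC₂, e₂, he₂, hE₂⟩ := hEXP a θ hF.nrm δ hδ
  obtain ⟨C₃, hC₃, e₃, he₃, hE₃⟩ := hEXP a₁ θ₁ hF₁.nrm δ hδ
  have hR0 := hR.1
  have hb0 := hb.1
  obtain ⟨e, he⟩ : ∃ e, e = ε₂ / 2 * R := ⟨_, rfl⟩
  have he0 : 0 < e := by rw [he]; positivity
  have t1 : Tendsto (fun J : ℕ => e * lam ^ J) atTop (𝓝 0) := by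
    simpa using (tendsto_pow_atTop_nhds_zero_of_lt_one hl0.le hl.2).const_mul e
  have t2 : Tendsto (fun J : ℕ => |C₁| * C₃ * C₂ * e ^ (-(2 * δ)) * (b * lam ^ (-(2 * δ))) ^ J)
      atTop (𝓝 0) := by
    simpa using (tendsto_pow_atTop_nhds_zero_of_lt_one (by positivity) hq).const_mul
      (|C₁| * C₃ * C₂ * e ^ (-(2 * δ)))
  obtain ⟨J, hJ1, hJ2⟩ := ((t1.eventually (Iio_mem_nhds (lt_min (lt_min hε₀ hε₁)
    (lt_min (lt_min he₂ he₃) one_pos)))).and (t2.eventually (Iic_mem_nhds hτ))).exists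
  have hε : 0 < e * lam ^ J := by positivity
  have hpw : (e * lam ^ J) ^ (-(2 * δ)) = e ^ (-(2 * δ)) * (lam ^ (-(2 * δ))) ^ J := by
    rw [Real.mul_rpow he0.le (by positivity), ← Real.rpow_pow_comm hl0.le]
  have hsm : ∀ j < J, e * lam ^ J < ε₂ * (lam ^ j * R) := fun j hj => by
    have h3 : lam ^ J ≤ lam ^ j := pow_le_pow_of_le_one hl0.le hl.2.le hj.le
    have h4 : 0 < ε₂ * (lam ^ j * R) := by positivity
    calc e * lam ^ J ≤ e * lam ^ j := by gcongr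
      _ = ε₂ * (lam ^ j * R) / 2 := by rw [he]; ring
      _ < _ := half_lt_self h4
  generalize e * lam ^ J = ε at *
  simp only [lt_min_iff] at hJ1
  obtain ⟨⟨k0, k1⟩, ⟨k2, k3⟩, k4⟩ := hJ1
  have ha := hF.nrm.1 ε hε
  have ha₁ := hF₁.nrm.1 ε hε
  have h3 : b ^ J * (C₁ * a₁ ε) ≤ τ * a ε := by
    calc b ^ J * (C₁ * a₁ ε) ≤ b ^ J * (|C₁| * (C₃ * ε ^ (-(θ₁ + δ)))) := by
          gcongr
          exacts [le_abs_self _, (hE₃ ε ⟨hε, k3⟩).2]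
      _ ≤ b ^ J * (|C₁| * (C₃ * (ε ^ (-(2 * δ)) * ε ^ (-(θ - δ))))) := by
          rw [← Real.rpow_add hε]
          gcongr b ^ J * (|C₁| * (C₃ * ?_))
          exact Real.rpow_le_rpow_of_exponent_ge hε k4.le (by linarith)
      _ ≤ b ^ J * (|C₁| * (C₃ * (ε ^ (-(2 * δ)) * (C₂ * a ε)))) := by
          gcongr
          exact (hE₂ ε ⟨hε, k2⟩).1
      _ = |C₁| * C₃ * C₂ * e ^ (-(2 * δ)) * (b * lam ^ (-(2 * δ))) ^ J * a ε := by
          rw [hpw, mul_pow]; ring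
      _ ≤ _ := mul_le_mul_of_nonneg_right hJ2 ha.le
  have hM := fun R => ((hMDL ν hν κ L c hκ hL hc.le).2.2 c₁ h1.le h2 R).2.2.2.2.2 ε
  have h4 := iter (F := fun R t => PP (mdl ν L c c₁ R) (NE 0 1 ε t)) hl hR0 J
    (fun j hj t => hS _ ⟨by positivity, (mul_le_of_le_one_left hR0.le
      (pow_le_one₀ hl0.le hl.2.le)).trans hR.2⟩ ε ⟨hε, hsm j hj⟩ t) (C₁ * a₁ ε)
  have h5 : ENNReal.ofReal p ≤ ENNReal.ofReal (p / 4) + ENNReal.ofReal (p / 2) :=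
    hpp.trans ((hU ε ⟨hε, k0⟩).trans ((hM _ _).1.trans (h4.trans (add_le_add
      ((hM _ _).2.trans ((measure_mono fun S hS => hDMON.2.2.2.2.1 _ _ _ _ _ _ _ _ Subset.rfl
        le_rfl h3 hS).trans (hLo ε ⟨hε, k1⟩).2))
      (ENNReal.ofReal_le_ofReal ((mul_le_of_le_one_right (by positivity)
        (sub_le_self _ (by positivity))).trans hR1))))))
  rw [← ENNReal.ofReal_add (by positivity) (by positivity),
    ENNReal.ofReal_le_ofReal_iff (by positivity)] at h5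
  linarith

end StrictA

theorem p_STRICT (hUCS : S_UCS) (hFULL : S_FULL) (hSTEP : S_STEP) (hMDL : S_MDL) (hEXP : S_EXP) (hDMON : S_DMON) :
    S_STRICT := by
  intro ν hν Θ hΘ c hc c' hc' hcc
  obtain ⟨κ, L, β, hκ, hS, hU⟩ := hUCS ν hν
  have hκ0 : 0 < κ := one_pos.trans hκ
  have loc : ∀ x ∈ Ioo (0 : ℝ) (1 / 2), ∀ y ∈ Ioo (0 : ℝ) (1 / 2), x < y → y ≤ κ * x →
      Θ x < Θ y := fun x hx y hy h1 h2 => by
    obtain ⟨a, ha⟩ := hFULL ν κ L β Θ ⟨hν, hκ, hS, hU, hΘ⟩ x hx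
    obtain ⟨a', ha'⟩ := hFULL ν κ L β Θ ⟨hν, hκ, hS, hU, hΘ⟩ y hy
    exact StrictA.loc hSTEP hMDL hEXP hDMON hν hκ.le hS.ten hx.1 h1 h2 ha ha'
  obtain ⟨i, hi⟩ := pow_unbounded_of_one_lt (c' / c) hκ
  replace hi := ((div_lt_iff₀ hc.1).1 hi).le
  induction i generalizing c' with
  | zero => linarith
  | succ i ih =>
    by_cases h : c' ≤ κ * c
    · exact loc c hc c' hc' hcc h
    have h1 : c' / κ < c' := div_lt_self hc'.1 hκ
    have h2 : c' / κ ∈ Ioo (0 : ℝ) (1 / 2) := ⟨div_pos hc'.1 hκ0, h1.trans hc'.2⟩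
    exact (ih h2 ((lt_div_iff₀' hκ0).2 (not_le.1 h))
      ((div_le_iff₀' hκ0).2 (by rwa [← mul_assoc, ← pow_succ']))).trans
      (loc _ h2 c' hc' h1 (mul_div_cancel₀ _ hκ0.ne').ge)

end Pool.Agent.P.MP_d66c6d_pr
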