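import Pool.Agent.P.MP_d66c6d_pr.M.Iface
import Pool.Agent.P.MP_d66c6d_pr.D.Iface

/-! Step TAIL of the carpet project. -/

namespace Pool.Agent.P.MP_d66c6d_pr

open MeasureTheory ProbabilityTheory Set Metric Filter Topology
open scoped ENNReal

namespace TailA

theorem triv {A t K : ℝ} {β : ℕ} (ht : 1 ≤ t) (h : t ≤ K) (hA : K ^ β ≤ A) :
    1 ≤ ENNReal.ofReal (A / t ^ β) := by
  rw [ENNReal.one_le_ofReal, one_le_div (by positivity)]
  exact (pow_le_pow_left₀ (by linarith) h β).trans hA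

theorem num {C M D A t : ℝ} {α : ℕ} (hC : 1 ≤ C) (hD : 1 ≤ D) (hM : 2 * C * D ^ (α + 3) ≤ M)
    (hM1 : 1 ≤ M) (hA : 0 ≤ A) (ht : 1 ≤ t) :
    ENNReal.ofReal (C * M ^ 2) * ENNReal.ofReal (A / (t * M / D) ^ (α + 3)) +
      ENNReal.ofReal (C * M ^ 4) * min (ENNReal.ofReal (1 / (2 * C * M ^ 4 * (D * M) ^ (α + 3))))
        (ENNReal.ofReal (A / (t / (D * M)) ^ (α + 3))) ^ 2 ≤ ENNReal.ofReal (A / t ^ (α + 3)) := by
  have h1 : C * M ^ 2 * (A / (t * M / D) ^ (α + 3)) ≤ A / t ^ (α + 3) / 2 := by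
    have e : C * M ^ 2 * (A / (t * M / D) ^ (α + 3)) =
        A / t ^ (α + 3) / 2 * ((2 * C * D ^ (α + 3)) / (M * M ^ α)) := by
      rw [div_pow, mul_pow]
      field_simp
      ring
    rw [e]
    refine mul_le_of_le_one_right (by positivity) ((div_le_one (by positivity)).2 (hM.trans ?_))
    exact le_mul_of_one_le_right (by positivity) (one_le_pow₀ hM1)
  have h2 : C * M ^ 4 * (1 / (2 * C * M ^ 4 * (D * M) ^ (α + 3)) * (A / (t / (D * M)) ^ (α + 3))) =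
      A / t ^ (α + 3) / 2 := by
    rw [div_pow]
    field_simp
  calc _ ≤ ENNReal.ofReal (C * M ^ 2) * ENNReal.ofReal (A / (t * M / D) ^ (α + 3)) +
      ENNReal.ofReal (C * M ^ 4) * (ENNReal.ofReal (1 / (2 * C * M ^ 4 * (D * M) ^ (α + 3))) *
        ENNReal.ofReal (A / (t / (D * M)) ^ (α + 3))) := by
        rw [sq (min _ _)]
        exact add_le_add le_rfl (mul_le_mul' le_rfl (mul_le_mul' (min_le_left _ _) (min_le_right _ _)))
    _ ≤ ENNReal.ofReal (A / t ^ (α + 3) / 2) + ENNReal.ofReal (A / t ^ (α + 3) / 2) := by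
        rw [← ENNReal.ofReal_mul (by positivity), ← ENNReal.ofReal_mul (by positivity),
          ← ENNReal.ofReal_mul (by positivity), h2]
        gcongr
    _ = _ := by rw [← ENNReal.ofReal_add (by positivity) (by positivity), add_halves]

theorem core (R : ℝ → ℝ → ℝ → ℝ≥0∞ → Prop) (a : ℝ → ℝ) (θ c₀ C M₀ : ℝ) (α : ℕ) (hC : 1 ≤ C)
    (hN : Nrm a θ) (hθ : 1 ≤ θ)
    (mono : ∀ c ε t t' p p', t ≤ t' → p ≤ p' → R c ε t p → R c ε t' p')
    (one : ∀ c ε t p, 1 ≤ p → R c ε t p)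
    (mn : ∀ c ε t p q, R c ε t p → R c ε t q → R c ε t (min p q))
    (rc : ∀ c M ε t₁ t₂ p₁ p₂, M₀ ≤ M → 0 ≤ t₁ → 0 ≤ t₂ → R c (ε * M) t₁ p₁ → R c (ε * M) t₂ p₂ →
      R c ε (C * t₁ + C * M ^ 2 * t₂)
        (ENNReal.ofReal (C * M ^ 2) * p₁ + ENNReal.ofReal (C * M ^ 4) * p₂ ^ 2))
    (thr : ∀ c ε t p, 0 < ε → ε ≤ 1 → R c 3 t p → R c ε (200 / ε ^ 2 * t) p)
    (tw : ∃ A : ℝ, ∃ c' > c₀, ∀ c ∈ Icc c₀ c', ∀ t : ℝ, 1 ≤ t →
      R c 3 t (ENNReal.ofReal (A / t ^ (α + 3))))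
    (tg : ∀ p : ℝ≥0∞, p ≠ 0 → ∃ s : ℝ, ∃ ε₀ > (0 : ℝ), ∀ ε ∈ Ioo 0 ε₀, ∃ c' > c₀,
      ∀ c ∈ Icc c₀ c', R c ε (s * a ε) p) :
    ∃ A : ℝ, ∃ ε₁ > (0 : ℝ), ∀ ε ∈ Ioo 0 ε₁, ∃ c' > c₀, ∀ c ∈ Icc c₀ c', ∀ t : ℝ, 1 ≤ t →
      R c ε (t * a ε) (ENNReal.ofReal (A / t ^ α)) := by
  obtain ⟨apos, t₀, ht₀, hreg, ε₁, hε₁, hlow⟩ := hN
  obtain ⟨AW, cW, hcW, tw⟩ := tw
  obtain ⟨D, hD⟩ : ∃ D, D = 2 * C * t₀ := ⟨_, rfl⟩
  have hD1 : 2 ≤ D := by nlinarith
  obtain ⟨M, hM0, hM1, hM2⟩ : ∃ M, M₀ ≤ M ∧ 2 * C * D ^ (α + 3) ≤ M ∧ D ≤ M :=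
    ⟨max M₀ (max (2 * C * D ^ (α + 3)) D), le_max_left _ _,
      (le_max_left _ _).trans (le_max_right _ _), (le_max_right _ _).trans (le_max_right _ _)⟩
  have hM : 2 ≤ M := hD1.trans hM2
  obtain ⟨s, ε₂, hε₂, tg⟩ := tg (ENNReal.ofReal (1 / (2 * C * M ^ 4 * (D * M) ^ (α + 3))))
    (by rw [Ne, ENNReal.ofReal_eq_zero, not_le]; positivity)
  obtain ⟨ε₃, hε₃, hreg⟩ := hreg M (by linarith)
  obtain ⟨e, he, he1, he2, he3, he4⟩ : ∃ e > (0 : ℝ), e ≤ ε₁ ∧ e ≤ ε₂ ∧ e ≤ ε₃ ∧ e ≤ 1 :=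
    ⟨min (min ε₁ ε₂) (min ε₃ 1), by positivity, (min_le_left _ _).trans (min_le_left _ _),
      (min_le_left _ _).trans (min_le_right _ _), (min_le_right _ _).trans (min_le_left _ _),
      (min_le_right _ _).trans (min_le_right _ _)⟩
  obtain ⟨K, hK⟩ : ∃ K, K = 200 * t₀ * M ^ 2 / e ^ 2 := ⟨_, rfl⟩
  have hK0 : 0 < K := by rw [hK]; positivity
  obtain ⟨S, hS1, hS2⟩ : ∃ S, 1 ≤ S ∧ s ≤ S := ⟨max 1 s, le_max_left _ _, le_max_right _ _⟩
  obtain ⟨A, hA0, hA1, hA2, hA3⟩ : ∃ A, 0 ≤ A ∧ (D * M * S) ^ (α + 3) ≤ A ∧ K ^ (α + 3) ≤ A ∧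
      AW * K ^ (α + 3) ≤ A := by
    have h1 : 0 ≤ (D * M * S) ^ (α + 3) := by positivity
    have h2 : 0 ≤ K ^ (α + 3) := by positivity
    have h3 : AW * K ^ (α + 3) ≤ |AW| * K ^ (α + 3) := by gcongr; exact le_abs_self _
    have h4 : 0 ≤ |AW| * K ^ (α + 3) := by positivity
    exact ⟨(D * M * S) ^ (α + 3) + K ^ (α + 3) + |AW| * K ^ (α + 3), by linarith, by linarith,
      by linarith, by linarith⟩
  have base : ∀ ε, e / M ≤ ε → ε < e → ∃ c' > c₀, ∀ c ∈ Icc c₀ c', ∀ t : ℝ, 1 ≤ t →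
      R c ε (t * a ε) (ENNReal.ofReal (A / t ^ (α + 3))) := by
    intro ε h1 h2
    have h0 : 0 < ε := lt_of_lt_of_le (by positivity) h1
    refine ⟨cW, hcW, fun c hc t ht => ?_⟩
    rcases le_total t K with h | h
    · exact one _ _ _ _ (triv ht h hA2)
    refine mono _ _ _ _ _ _ ?_ (ENNReal.ofReal_le_ofReal ?_)
      (thr c ε _ _ h0 (by linarith) (tw c hc (t / K) ((one_le_div hK0).2 h)))
    · have h3 := (hlow ε ⟨h0, by linarith⟩).1
      calc 200 / ε ^ 2 * (t / K) ≤ 200 / (e / M) ^ 2 * (t / K) := by gcongr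
        _ = t / t₀ * 1 := by rw [hK]; field_simp
        _ ≤ t / t₀ * (t₀ * a ε) := by gcongr
        _ = _ := by field_simp
    · rw [div_pow, div_div_eq_mul_div]
      gcongr
  have claim : ∀ k : ℕ, ∀ ε, e / M ^ (k + 1) ≤ ε → ε < e → ∃ c' > c₀, ∀ c ∈ Icc c₀ c',
      ∀ t : ℝ, 1 ≤ t → R c ε (t * a ε) (ENNReal.ofReal (A / t ^ (α + 3))) := by
    intro k
    induction k with
    | zero => simpa using base
    | succ k ih =>
      intro ε h1 h2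
      rcases le_or_gt (e / M) ε with h | h
      · exact base ε h h2
      have h0 : 0 < ε := lt_of_lt_of_le (by positivity) h1
      have hx0 : 0 < ε * M := by positivity
      have hx : ε * M < e := (lt_div_iff₀ (by positivity)).1 h
      obtain ⟨c₁, hc₁, ih⟩ := ih (ε * M) (by
        rw [pow_succ, ← div_div, div_le_iff₀ (by positivity)] at h1
        exact h1) hx
      obtain ⟨c₂, hc₂, tg⟩ := tg (ε * M) ⟨hx0, by linarith⟩
      have h3 := (hreg (ε * M) ⟨hx0, by linarith⟩).1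
      rw [mul_div_cancel_right₀ _ (by positivity)] at h3
      have ax := apos _ hx0
      have ae := apos _ h0
      have h4 : M * a (ε * M) ≤ t₀ * a ε := by
        refine le_trans ?_ h3
        gcongr
        exact Real.self_le_rpow_of_one_le (by linarith) hθ
      refine ⟨min c₁ c₂, lt_min hc₁ hc₂, fun c hc t ht => ?_⟩
      rcases le_total t (D * M * S) with h5 | h5
      · exact one _ _ _ _ (triv ht h5 hA1)
      have hc1 : c ∈ Icc c₀ c₁ := ⟨hc.1, hc.2.trans (min_le_left _ _)⟩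
      have hc2 : c ∈ Icc c₀ c₂ := ⟨hc.1, hc.2.trans (min_le_right _ _)⟩
      have h6 : S ≤ t / (D * M) := by
        rw [le_div_iff₀ (by positivity)]
        linarith
      have h7 : 1 ≤ t * M / D := by
        rw [one_le_div (by positivity)]
        nlinarith
      have h8 : t * M / D * a (ε * M) ≤ t * a ε / (2 * C) := by
        calc t * M / D * a (ε * M) = t / D * (M * a (ε * M)) := by ring
          _ ≤ t / D * (t₀ * a ε) := by gcongr
          _ = _ := by rw [hD]; field_simp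
      have h9 : t / (D * M) * a (ε * M) ≤ t * a ε / (2 * C * M ^ 2) := by
        calc t / (D * M) * a (ε * M) = t * M / D * a (ε * M) / M ^ 2 := by field_simp
          _ ≤ t * a ε / (2 * C) / M ^ 2 := by gcongr
          _ = _ := by rw [div_div]
      have r1 := mono _ _ _ _ _ _ h8 le_rfl (ih c hc1 _ h7)
      have r2 := mono _ _ _ _ _ _ h9 le_rfl (ih c hc1 _ (hS1.trans h6))
      have r3 := mono _ _ _ _ _ _ (le_trans (by gcongr; exact hS2.trans h6) h9) le_rfl (tg c hc2)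
      refine mono _ _ _ _ _ _ (le_of_eq ?_) (num hC (by linarith) hM1 (by linarith) hA0 ht)
        (rc c M ε _ _ _ _ hM0 (by positivity) (by positivity) r1 (mn _ _ _ _ _ r3 r2))
      field_simp
      ring
  refine ⟨A, e, he, fun ε hε => ?_⟩
  obtain ⟨k, hk⟩ := pow_unbounded_of_one_lt (e / ε) (show 1 < M by linarith)
  obtain ⟨c', hc', h⟩ := claim k ε (by
    rw [div_lt_iff₀ hε.1] at hk
    rw [div_le_iff₀ (by positivity), pow_succ]
    have : 0 < M ^ k * ε := mul_pos (by positivity) hε.1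
    nlinarith) hε.2
  refine ⟨c', hc', fun c hc t ht => mono _ _ _ _ _ _ le_rfl (ENNReal.ofReal_le_ofReal ?_)
    (h c hc t ht)⟩
  gcongr
  omega

end TailA

theorem p_TAIL (hTAIW : S_TAIW) (hZRC : S_ZRC) (hZTHR : S_ZTHR) (hRARE : S_RARE) (hDMON : S_DMON) :
    S_TAIL := by
  intro ν hν κ L c₀ θ a hL hN hθ hT lam hlam α
  obtain ⟨C, hC, hrc⟩ := hZRC ν hν L hL
  have hL0 : 0 < L := by linarith
  refine TailA.core (fun c ε t p => Rare ν κ c lam L 0 1 (ZB 0 1 ε t) p) a θ c₀ C (100 * L) α hC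
    hN hθ (fun c ε t t' p p' ht hp h => ?_) (fun c ε t p hp => ?_) (fun c ε t p q hp hq => ?_)
    (fun c => (hrc κ c lam hlam).1) (fun c ε t p h0 h1 h => ?_)
    (hTAIW ν hν κ L c₀ a hL hT lam hlam (α + 3)) (hT lam hlam)
  · exact (hRARE ν κ c lam L hlam hL0).1 _ _ _ _ _ _
      (fun S hS h => hS (hDMON.2.2.2.1 _ _ _ _ _ _ _ _ _ Subset.rfl le_rfl ht h)) hp h
  · exact (hRARE ν κ c lam L hlam hL0).2.1 _ _ _ _ hp
  · exact (hRARE ν κ c lam L hlam hL0).2.2.1 _ _ _ _ _ hp hq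
  · exact (hRARE ν κ c lam L hlam hL0).1 _ _ _ _ _ _
      (fun S hS h => hS (hZTHR _ ε t h0 h1 h)) le_rfl h

end Pool.Agent.P.MP_d66c6d_pr
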