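import Pool.Agent.P.MP_d66c6d_pr.M.Iface
import Pool.Agent.P.MP_d66c6d_pr.D.Iface

/-! Step TAIW of the carpet project. -/

namespace Pool.Agent.P.MP_d66c6d_pr

open MeasureTheory ProbabilityTheory Set Metric Filter Topology
open scoped ENNReal

namespace TaiwA

theorem zb (hDMON : S_DMON) {ε ε' t t' : ℝ} (h1 : ε ≤ ε') (h2 : t ≤ t') :
    ZB 0 1 ε' t' ⊆ ZB 0 1 ε t := fun _ hS h =>
  hS (hDMON.2.2.2.1 _ _ _ _ _ _ _ _ _ Subset.rfl h1 h2 h)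

theorem sq {C : ℝ} (hC : 1 ≤ C) (α k : ℕ) :
    C * ((C ^ (α + 1 + α * k))⁻¹) ^ 2 ≤ (C ^ (α + 1 + α * (k + 1)))⁻¹ := by
  have h0 : 0 < C := one_pos.trans_le hC
  rw [inv_pow, ← pow_mul, ← div_eq_mul_inv, ← one_div, div_le_div_iff₀ (by positivity)
    (by positivity), one_mul, ← pow_succ']
  exact pow_le_pow_right₀ hC (by nlinarith [Nat.zero_le (α * k)])

theorem fin {C s t : ℝ} (hC : 1 ≤ C) (hs : 0 < s) (ht : 0 < t) (α k : ℕ)
    (h : t ≤ C ^ (k + 1) * s) : (C ^ (α + 1 + α * k))⁻¹ ≤ (C * s) ^ α / t ^ α := by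
  have h0 : 0 < C := one_pos.trans_le hC
  rw [← one_div, div_le_div_iff₀ (by positivity) (by positivity), one_mul]
  calc t ^ α ≤ (C ^ (k + 1) * s) ^ α := pow_le_pow_left₀ ht.le h α
    _ = s ^ α * C ^ ((k + 1) * α) := by rw [mul_pow, ← pow_mul, mul_comm]
    _ ≤ s ^ α * C ^ (α + (α + 1 + α * k)) :=
      mul_le_mul_of_nonneg_left (pow_le_pow_right₀ hC (by nlinarith)) (by positivity)
    _ = _ := by rw [pow_add C α, mul_pow]; ring

end TaiwA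

theorem p_TAIW (hZRC : S_ZRC) (hRARE : S_RARE) (hDMON : S_DMON) :
    S_TAIW := by
  intro ν hν κ L c₀ a hL hT lam hlam α
  obtain ⟨C₀, hC₀, hZ⟩ := hZRC ν hν L hL
  obtain ⟨C, c1, c2⟩ : ∃ C : ℝ, C₀ ≤ C ∧ 1 < C := ⟨C₀ + 1, by linarith, by linarith⟩
  have c0 : 0 < C := one_pos.trans c2
  obtain ⟨C₁, ε₀, e0, h1⟩ := hT lam hlam (ENNReal.ofReal (C ^ (α + 1 + α * 0))⁻¹)
    (ENNReal.ofReal_pos.2 (by positivity)).ne'
  obtain ⟨ε, e1, e2⟩ : ∃ ε ∈ Ioo 0 ε₀, ε ≤ 3 := ⟨min (ε₀ / 2) 3,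
    ⟨lt_min (by linarith) (by norm_num), (min_le_left _ _).trans_lt (by linarith)⟩,
    min_le_right _ _⟩
  obtain ⟨c', hc', h2⟩ := h1 ε e1
  obtain ⟨s, s1, s2⟩ : ∃ s : ℝ, C₁ * a ε ≤ s ∧ 1 ≤ s := ⟨_, le_max_left _ _, le_max_right _ _⟩
  have s0 : 0 < s := one_pos.trans_le s2
  refine ⟨(C * s) ^ α, c', hc', fun c hc t ht => ?_⟩
  obtain ⟨r1, r2, -⟩ := hRARE ν κ c lam L hlam (by linarith)
  have t0 : 0 < t := one_pos.trans_le ht
  have key : ∀ k : ℕ, Rare ν κ c lam L 0 1 (ZB 0 1 3 (C ^ k * s))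
      (ENNReal.ofReal (C ^ (α + 1 + α * k))⁻¹) := fun k => by
    induction k with
    | zero => exact r1 _ _ _ _ _ _ (TaiwA.zb hDMON e2 (by simpa using s1)) le_rfl (h2 c hc)
    | succ k ih =>
      refine r1 _ _ _ _ _ _ (TaiwA.zb hDMON le_rfl ?_) ?_
        ((hZ κ c lam hlam).2 _ _ (by positivity) ih)
      · rw [pow_succ', mul_assoc]
        exact mul_le_mul_of_nonneg_right c1 (by positivity)
      · rw [← ENNReal.ofReal_pow (by positivity), ← ENNReal.ofReal_mul (by linarith)]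
        exact ENNReal.ofReal_le_ofReal ((mul_le_mul_of_nonneg_right c1 (by positivity)).trans
          (TaiwA.sq c2.le α k))
  rcases le_total s t with h | h
  · obtain ⟨k, k1, k2⟩ := exists_nat_pow_near ((one_le_div s0).2 h) c2
    exact r1 _ _ _ _ _ _ (TaiwA.zb hDMON le_rfl ((le_div_iff₀ s0).1 k1))
      (ENNReal.ofReal_le_ofReal (TaiwA.fin c2.le s0 t0 α k ((div_le_iff₀ s0).1 k2.le))) (key k)
  · refine r2 _ _ _ _ (ENNReal.one_le_ofReal.2 ((one_le_div (by positivity)).2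
      (pow_le_pow_left₀ t0.le (h.trans ?_) α)))
    exact le_mul_of_one_le_left s0.le c2.le

end Pool.Agent.P.MP_d66c6d_pr
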