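import Pool.Agent.P.MP_d66c6d_pr.M.Iface
import Pool.Agent.P.MP_d66c6d_pr.D.Iface

/-! Step TIGH of the carpet project. -/

namespace Pool.Agent.P.MP_d66c6d_pr

open MeasureTheory ProbabilityTheory Set Metric Filter Topology
open scoped ENNReal

namespace TighA

theorem tend_inv : Tendsto (fun m : ℕ => ((m : ℝ≥0∞) + 1)⁻¹) atTop (𝓝 0) := by
  have h := ENNReal.tendsto_inv_nat_nhds_zero.comp (tendsto_add_atTop_nat 1)
  refine h.congr fun m => ?_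
  simp

end TighA

open TighA in
theorem p_TIGH (hGUL : S_GUL) (hRZS : S_RZS) (hCZN : S_CZN) (hFAR : S_FAR) (hRARE : S_RARE) (hDMEA : S_DMEA) (hDMEZ : S_DMEZ) (hDMON : S_DMON) :
    S_TIGH := by
  intro ν κ L β Θ hE c hc θ R a hN hR hD lam hlam p hp
  have hc2 : (c + 1 / 2) / 2 ∈ Ioo (0 : ℝ) (1 / 2) := ⟨by linarith [hc.1], by linarith [hc.2]⟩
  have hL := hE.all _ hc2
  have h12 : c < (c + 1 / 2) / 2 := by linarith [hc.2]
  have h21 : (c + 1 / 2) / 2 ≤ 1 := by linarith [hc.2]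
  by_contra hcon
  push Not at hcon
  have hk : ∀ k : ℕ, ∃ ε ∈ Ioo (0 : ℝ) (1 / ((k : ℝ) + 1)), ∀ c' > c, ∃ c₁ ∈ Icc c c',
      ¬ Rare ν κ c₁ lam L 0 1 (ZB 0 1 ε (k * a ε)) p := fun k =>
    hcon k (1 / ((k : ℝ) + 1)) (by positivity)
  choose e he hbad using hk
  have he0 : Tendsto e atTop (𝓝 0) :=
    squeeze_zero (fun k => (he k).1.le) (fun k => (he k).2.le)
      tendsto_one_div_add_atTop_nhds_zero_nat
  obtain ⟨φ, hφ, hG⟩ := hGUL ν hE.br c _ θ _ R a hc.1 h12 h21 hL hN hD e (fun k => (he k).1) he0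
  have hm : ∀ m : ℕ, ∃ (C : ℝ) (j : ℕ) (c₁ : ℝ), 0 ≤ C ∧ m * C ≤ φ j ∧ c ≤ c₁ ∧
      c₁ ≤ c + 1 / ((m : ℝ) + 1) ∧
      lsoup ν c R (GZ c₁ R (e (φ j)) (C * a (e (φ j)))) ≤ ((m : ℝ≥0∞) + 1)⁻¹ ∧
      ¬ Rare ν κ c₁ lam L 0 1 (ZB 0 1 (e (φ j)) (φ j * a (e (φ j)))) p := fun m => by
    obtain ⟨C, hC, hev⟩ := (hG ((m : ℝ≥0∞) + 1)⁻¹ (by simp)).1
    have h1 : ∀ᶠ j in atTop, (m : ℝ) * C ≤ φ j :=
      (tendsto_natCast_atTop_atTop.comp hφ.tendsto_atTop).eventually_ge_atTop _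
    obtain ⟨j, ⟨c', hc', h2⟩, h3⟩ := (hev.and h1).exists
    have h4 : c < c + 1 / ((m : ℝ) + 1) := lt_add_of_pos_right _ (by positivity)
    obtain ⟨c₁, h5, h6⟩ := hbad (φ j) (min c' (c + 1 / ((m : ℝ) + 1))) (lt_min hc' h4)
    exact ⟨C, j, c₁, hC, h3, h5.1, h5.2.trans (min_le_right _ _),
      h2 c₁ ⟨h5.1, h5.2.trans (min_le_left _ _)⟩, h6⟩
  choose C j cs hC hj h1 h2 h3 h4 using hm
  have hcs : Tendsto cs atTop (𝓝 c) := by
    have h := (tendsto_one_div_add_atTop_nhds_zero_nat (𝕜 := ℝ)).const_add c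
    rw [add_zero] at h
    exact tendsto_of_tendsto_of_tendsto_of_le_of_le tendsto_const_nhds h h1 h2
  have hloc : ∀ m, LocE 0 1 (ZB 0 1 (e (φ (j m))) (φ (j m) * a (e (φ (j m))))) := fun m =>
    (hFAR.1 0 1 _ _ one_pos).1
  have hz := hRZS ν hE.br L β hE.str c _ _ R hc.1 h12 h21 hL hR cs
    (fun m => ZB 0 1 (e (φ (j m))) (φ (j m) * a (e (φ (j m)))))
    (fun m => GZ (cs m) R (e (φ (j m))) (C m * a (e (φ (j m))))) h1 hcs
    (fun m => ⟨(hloc m).1,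
      measurable_lev (cs m) (hDMEA.2.2.2.2.2.inter (hDMEZ _ _ _ _ _).compl)⟩)
    (tendsto_of_tendsto_of_tendsto_of_le_of_le tendsto_const_nhds tend_inv
      (fun _ => zero_le) h3) ?_
  · obtain ⟨m, hm⟩ := (hz.2.2 κ hE.ucs hloc lam hlam p hp).exists
    exact h4 m hm
  intro J
  filter_upwards [eventually_ge_atTop J] with m hm X hX 𝒯 hT
  by_contra hno
  push Not at hno
  have h5 : ∀ i, ZleA (sets (lev (cs m) (𝒯 i))) (ball 0 R)ᶜ 0 1 (e (φ (j m)))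
      (C m * a (e (φ (j m)))) := fun i => by
    by_contra h
    exact hno i ⟨hT.near i, h⟩
  have h6 := (hCZN.1 R _ J _ hT).1 _ _ h5
  refine hX (hDMON.2.2.2.1 _ _ _ _ _ _ _ _ _ Subset.rfl le_rfl ?_ h6)
  have h7 : (J : ℝ) ≤ m := by exact_mod_cast hm
  have h8 := (hN.1 _ (he (φ (j m))).1).le
  rw [← mul_assoc]
  exact mul_le_mul_of_nonneg_right ((mul_le_mul_of_nonneg_right h7 (hC m)).trans (hj m)) h8

end Pool.Agent.P.MP_d66c6d_pr
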