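import Pool.Agent.P.MP_d66c6d_pr.M.Iface
import Pool.Agent.P.MP_d66c6d_pr.G.IfaceX
import Pool.Agent.P.MP_d66c6d_pr.L.Iface
import Pool.Agent.P.MP_d66c6d_pr.H.Iface

/-! Step TRX of the carpet project. -/

namespace Pool.Agent.P.MP_d66c6d_pr

open MeasureTheory ProbabilityTheory Set Metric Filter Topology
open scoped ENNReal

namespace TrxA

theorem lay_congr {V : Set ℂ} {T T' : ℝ → Set (Set ℂ)} {c₀ c₁ : ℝ} (h : Lay V T c₀ c₁)
    (he : ∀ c, c₀ ≤ c → T' c = T c) : Lay V T' c₀ c₁ := by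
  have h0 := he c₀ le_rfl
  have h1 := he c₁ h.lt.le
  refine ⟨h.lt, h1 ▸ h.sub, fun c c' a b d => ?_, h1 ▸ h.tame, fun ξ hξ => ?_, h1 ▸ h.subc,
    h0 ▸ h.ncl, ?_, ?_, ?_⟩
  · rw [he c a, he c' (a.trans b)]
    exact h.mono c c' a b d
  · obtain ⟨c', a, b⟩ := h.rc ξ hξ
    exact ⟨c', a, by rwa [h0, he c' a.1.le]⟩
  · rw [h0, h1]
    exact h.exd
  · rw [h0]
    exact h.exl
  · rw [h0]
    exact h.hit

theorem ins_ins {V W : Set ℂ} (h : V ⊆ W) (T : Set (Set ℂ)) : ins V (ins W T) = ins V T := by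
  ext K
  exact ⟨fun a => ⟨a.1.1, a.2⟩, fun a => ⟨⟨a.1, a.2.trans h⟩, a.2⟩⟩

/-- A bound for the measure of a set in a product through its sections. -/
theorem prod_le {α β : Type*} [MeasurableSpace α] [MeasurableSpace β] (μ : Measure α)
    (ν : Measure β) [IsProbabilityMeasure ν] {A : Set (α × β)} (hA : MeasurableSet A)
    {G : α × β → Prop} (hG : ∀ᵐ p ∂μ.prod ν, G p) :
    ∃ E, MeasurableSet E ∧ (∀ x ∈ E, ∃ y, (x, y) ∈ A ∧ G (x, y)) ∧ μ.prod ν A ≤ μ E := by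
  have h1 := Measure.ae_ae_of_ae_prod hG
  obtain ⟨Z, z1, z2, z3⟩ := exists_measurable_superset_of_null (ae_iff.1 h1)
  have hE : MeasurableSet ({x | ν (Prod.mk x ⁻¹' A) ≠ 0} \ Z) :=
    ((measurable_measure_prodMk_left hA) (measurableSet_singleton 0).compl).diff z2
  refine ⟨_, hE, fun x hx => ?_, ?_⟩
  · have h2 : ∀ᵐ y ∂ν, G (x, y) := by_contra fun h => hx.2 (z1 h)
    exact ((frequently_ae_mem_iff.2 hx.1).and_eventually h2).exists
  · rw [Measure.prod_apply hA, ← lintegral_indicator_one hE]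
    refine lintegral_mono_ae ?_
    filter_upwards [measure_eq_zero_iff_ae_notMem.1 z3] with x hx
    by_cases h : ν (Prod.mk x ⁻¹' A) = 0
    · rw [h]
      exact zero_le
    · rw [indicator_of_mem (show x ∈ {x | ν (Prod.mk x ⁻¹' A) ≠ 0} \ Z from ⟨h, hx⟩)]
      exact prob_le_one

end TrxA

theorem p_TRX (hLAY : S_LAY) (hLVB : S_LVB) (hHOL : S_HOL) :
    S_TRX := by
  intro ν hν c₀ c₂ θ₂ R a h0 h1 h2 hL hD e he he0
  obtain ⟨φ, hφ, hD⟩ := hD e he he0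
  refine ⟨φ, hφ, fun E hE hn => ?_⟩
  refine le_antisymm (le_of_forall_gt_imp_ge_of_dense fun τ hτ => ?_) zero_le
  obtain ⟨V, hV, v1, v2, hQ⟩ := hD τ hτ.ne'
  obtain ⟨x1, x2⟩ := (hLVB.2 ν hν c₀).2 R
  have hm := x2 (ball 0 R) isOpen_ball Subset.rfl
  have hG := (hLAY ν hν c₀ ((c₀ + c₂) / 2) c₂ θ₂ h0 (by linarith) (by linarith) h2 hL V R hV
    v2).and (measurePreserving_snd.quasiMeasurePreserving.ae x1)
  obtain ⟨E₁, e1, e2, e3⟩ := TrxA.prod_le _ _ (hm.measurable hE) hG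
  rw [hm.measure_preimage hE.nullMeasurableSet] at e3
  refine e3.trans (hQ E₁ e1 fun N hN hq => ?_)
  obtain ⟨X, a1, a2, a3⟩ := e2 N hN
  have k1 : ∀ c, c₀ ≤ c → ins V (sets (lev c (mkL (ball 0 R) c₀ (N, X)))) = lay V N X c :=
    fun c hc => by rw [hLVB.1 _ c₀ c hc, lay, TrxA.ins_ins v2, lay]
  have k2 : ins V (sets (lev c₀ (mkL (ball 0 R) c₀ (N, X)))) = ins V (trace '' N.pts) := by
    rw [k1 c₀ le_rfl, lay, sets, show (lev c₀ X).pts = ∅ from a3, image_empty, union_empty]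
  have k3 := TrxA.lay_congr a2 k1
  obtain ⟨k4, k5⟩ := hHOL V _ _ _ hV k3
  have k6 := hn _ a1 V _ hV v1 v2 k3
  rw [k2] at k4 k5 k6
  rw [cleIn2_ins] at k4 k5
  rw [carp_ins] at k6
  rcases hq with hq | ⟨q1, q2, q3⟩
  · exact k4 hq
  · exact k6 (k5 q1) q2 q3

end Pool.Agent.P.MP_d66c6d_pr
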