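import Pool.Agent.P.MP_d66c6d_pr.M.Iface
import Pool.Agent.P.MP_d66c6d_pr.D.Iface

/-! Step UPN of the carpet project. -/

namespace Pool.Agent.P.MP_d66c6d_pr

open MeasureTheory ProbabilityTheory Set Metric Filter Topology
open scoped ENNReal

theorem p_UPN (hBASE : S_BASE) (hREF : S_REF) (hMDL : S_MDL) (hGRID : S_GRID) (hDMON : S_DMON) :
    S_UPN := by
  intro ν hν κ L c θ a hκ hL hc ⟨ha, t₀, ht₀, hM, _⟩ hθ hsub htail
  have h1 := hBASE ν hν c (10 * L) hsub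
  obtain ⟨p, hp⟩ : ∃ p, p = soup ν c (ball 0 (10 * L)) (NE 0 1 2 1) := ⟨_, rfl⟩
  rw [← hp] at h1
  have h2 : p ≠ ∞ := by rw [hp, soup]; exact measure_ne_top _ _
  have h3 : p / 2 ≠ ∞ := ENNReal.div_ne_top h2 two_ne_zero
  have h4 : p / 2 ≠ 0 := ENNReal.div_ne_zero.2 ⟨h1, ENNReal.ofNat_ne_top⟩
  obtain ⟨A, ε₁, hε₁, hT⟩ := htail 1 one_pos 8
  obtain ⟨C, hC, r₀, hr₀, hR⟩ := hREF ν hν L A hL
  obtain ⟨r, r1, r2, r3, r4⟩ : ∃ r : ℝ, 0 < r ∧ r ≤ r₀ ∧ r ≤ 1 / 2 ∧ r ≤ (p / 2).toReal / C :=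
    ⟨min (min r₀ (1 / 2)) ((p / 2).toReal / C),
      lt_min (lt_min hr₀ one_half_pos) (div_pos (ENNReal.toReal_pos h4 h3) hC),
      (min_le_left _ _).trans (min_le_left _ _), (min_le_left _ _).trans (min_le_right _ _),
      min_le_right _ _⟩
  have r5 : 1 ≤ r⁻¹ := (one_le_inv₀ r1).2 (by linarith)
  obtain ⟨ε₀, hε₀, hN⟩ := hM r⁻¹ r5
  refine ⟨p / 2, h4, C * t₀ * (12 / r + 1) ^ 2, min ε₀ ε₁ * r, mul_pos (lt_min hε₀ hε₁) r1,
    fun ε hε => ?_⟩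
  have e0 : 0 < ε / r := div_pos hε.1 r1
  have e1 : ε / r < min ε₀ ε₁ := (div_lt_iff₀ r1).2 hε.2
  obtain ⟨c', hc', hT'⟩ := hT (ε / r) ⟨e0, e1.trans_le (min_le_right _ _)⟩
  have a0 := ha _ e0
  have a1 : a (ε / r) ≤ t₀ * a ε := by
    have := (hN (ε / r) ⟨e0, e1.trans_le (min_le_left _ _)⟩).1
    rw [div_inv_eq_mul, div_mul_cancel₀ _ r1.ne'] at this
    exact (le_mul_of_one_le_left a0.le (Real.one_le_rpow r5 hθ)).trans this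
  have key := hR κ c 1 one_pos r ⟨r1, r2⟩ ε (a (ε / r)) _ a0.le (hT' c ⟨le_rfl, hc'.le⟩)
    ((hMDL ν hν κ L c hκ hL hc).1 1 r r3)
  have hsub : NE 0 1 2 1 ⊆ NE 0 1 ε (C * t₀ * (12 / r + 1) ^ 2 * a ε) ∪
      {S | ∃ B, Skel (sets S) r B ∧ ¬ Nle (sets S) 0 1 ε (C * a (ε / r) * B.card)} := by
    intro S hS
    obtain ⟨B, hB⟩ := hGRID.2.2.2.2.2.2 (sets S) r _ r1 (sep_subset _ _)
      ((hDMON.2.2.1 _ _ _).1 hS)
    have hB' : Skel (sets S) r B := hB.mono Subset.rfl fun γ h => ⟨h.1.1, h.2⟩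
    by_cases h : Nle (sets S) 0 1 ε (C * a (ε / r) * B.card)
    · refine Or.inl (hDMON.2.2.2.2.1 _ _ _ _ _ _ _ _ Subset.rfl le_rfl ?_ h)
      have b1 := (hGRID.2.2.2.2.2.1 _ r B r1 (by linarith) hB').2
      have b2 := mul_le_mul (mul_le_mul_of_nonneg_left a1 hC.le) b1 (Nat.cast_nonneg _)
        (mul_nonneg hC.le (a0.le.trans a1))
      exact b2.trans_eq (by ring)
    · exact Or.inr ⟨B, hB', h⟩
  have h5 : ENNReal.ofReal (C * r) ≤ p / 2 :=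
    ENNReal.ofReal_le_of_le_toReal (by rw [mul_comm]; exact (le_div_iff₀ hC).1 r4)
  rw [← ENNReal.sub_half h2, tsub_le_iff_right]
  exact hp.trans_le ((measure_mono hsub).trans ((measure_union_le _ _).trans
    (add_le_add le_rfl (key.trans h5))))

end Pool.Agent.P.MP_d66c6d_pr
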