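import Pool.Agent.P.MP_d66c6d_pr.M.Iface
import Pool.Agent.P.MP_d66c6d_pr.D.Iface

/-! Step ZRC of the carpet project. -/

namespace Pool.Agent.P.MP_d66c6d_pr

open MeasureTheory ProbabilityTheory Set Metric Filter Topology
open scoped ENNReal

namespace ZrcA

/-- A bad cell. -/
def bad (L r ε t : ℝ) (x : ℤ × ℤ) : Set (Cfg KC) :=
  ZB (gp (r / 2) x) r ε t ∩ NoCE (gp (r / 2) x) (L * r)

variable {ν : Measure Br} {κ c lam L r ε t : ℝ} {p : ℝ≥0∞}

theorem one (hRARE : S_RARE) (hRTR : S_RTR) (hν : IsBridge ν) (hlam : 0 < lam) (hL : 10 ≤ L)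
    (hr : 0 < r) (hr' : 100 * L * r ≤ 1) (h : Rare ν κ c lam L 0 1 (ZB 0 1 ε t) p)
    (Q : Finset (ℤ × ℤ)) (hQ : ∀ x ∈ Q, dist (gp (r / 2) x) 0 ≤ 2) {N : ℝ} (hN : (Q.card : ℝ) ≤ N) :
    Rare ν κ c lam L 0 1 (⋃ x ∈ Q, bad L r (ε * r) t x) (ENNReal.ofReal N * p) := by
  obtain ⟨r1, -, -, r4, -, r6, -⟩ := hRARE ν κ c lam L hlam (by linarith)
  refine r1 _ _ _ _ _ _ Subset.rfl ?_ (r4 _ Q 0 1 _ (fun _ => p) fun x hx =>
    r6 _ _ _ _ _ _ (by linarith [hQ x hx]) ((hRTR ν hν κ c lam L _ r p hr).1 ε t h))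
  rw [Finset.sum_const, nsmul_eq_mul, ← ENNReal.ofReal_natCast]
  gcongr

theorem two (hRARE : S_RARE) (hRTR : S_RTR) (hFAR : S_FAR) (hν : IsBridge ν) (hlam : 0 < lam)
    (hL : 10 ≤ L) (hr : 0 < r) (hr' : 100 * L * r ≤ 1) (h : Rare ν κ c lam L 0 1 (ZB 0 1 ε t) p)
    (Q : Finset (ℤ × ℤ)) (hQ : ∀ x ∈ Q, dist (gp (r / 2) x) 0 ≤ 2) {N : ℝ}
    (hN : (Q.card : ℝ) ^ 2 ≤ N) :
    Rare ν κ c lam L 0 1 {S | ∃ x ∈ Q, ∃ y ∈ Q, 20 * (L * r) ≤ dist (gp (r / 2) x) (gp (r / 2) y) ∧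
      S ∈ bad L r (ε * r) t x ∧ S ∈ bad L r (ε * r) t y} (ENNReal.ofReal N * p ^ 2) := by
  classical
  obtain ⟨r1, -, -, r4, -, -, r7, -⟩ := hRARE ν κ c lam L hlam (by linarith)
  have hz := fun z => (hRTR ν hν κ c lam L z r p hr).1 ε t h
  refine r1 _ _ _ _ _ _ ?_ ?_ (r4 _ ((Q ×ˢ Q).filter fun q =>
    20 * (L * r) ≤ dist (gp (r / 2) q.1) (gp (r / 2) q.2)) 0 1
    (fun q => bad L r (ε * r) t q.1 ∩ bad L r (ε * r) t q.2) (fun _ => p * p) fun q hq => ?_)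
  · rintro S ⟨x, hx, y, hy, h1, h2⟩
    exact mem_iUnion₂.2 ⟨(x, y), by simp [hx, hy, h1], h2⟩
  · rw [Finset.sum_const, nsmul_eq_mul, ← ENNReal.ofReal_natCast, sq]
    gcongr
    refine le_trans ?_ hN
    rw [sq, ← Nat.cast_mul, ← Finset.card_product]
    exact_mod_cast Finset.card_filter_le _ _
  · simp only [Finset.mem_filter, Finset.mem_product] at hq
    refine r7 _ _ _ _ _ _ _ _ _ hr (by linarith [hQ _ hq.1.1]) (by linarith [hQ _ hq.1.2]) hq.2 ?_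
      (hz _) (hz _)
    refine hFAR.2.2.2.2.1 _ _ _ _ _ ?_ (hFAR.2.2.1 _ _ _ hr (hFAR.1 _ _ _ _ hr).1)
    rw [dist_self]
    nlinarith

end ZrcA

open ZrcA in
theorem p_ZRC (hRARE : S_RARE) (hRTR : S_RTR) (hFAR : S_FAR) (hZONE : S_ZONE) (hZTWO : S_ZTWO) (hGRID : S_GRID) (hDMON : S_DMON) :
    S_ZRC := by
  classical
  intro ν hν L hL
  obtain ⟨g1, g2, -⟩ := hGRID
  have hs : 0 < 1 / (200 * L) := by positivity
  have hs1 : L * (1 / (200 * L)) = 1 / 200 := by field_simp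
  have hs2 : 1 / (200 * L) ≤ 1 / 2000 := one_div_le_one_div_of_le (by norm_num) (by linarith)
  generalize 1 / (200 * L) = s at hs hs1 hs2
  obtain ⟨Q₀, hQ₀, -⟩ := g1 (s / 2) 2 0 (by positivity) (by norm_num)
  have hN : (0 : ℝ) ≤ Q₀.card := Nat.cast_nonneg _
  refine ⟨(80 * L + 1) ^ 2 + 6561 + 2 * Q₀.card + Q₀.card ^ 2, by nlinarith, fun κ c lam hlam =>
    ⟨fun M ε t₁ t₂ p₁ p₂ hM h1 h2 R1 R2 => ?_, fun t p ht R => ?_⟩⟩
  · have M0 : 0 < M := by linarith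
    have hr : 0 < 1 / M := by positivity
    have hr1 : M * (1 / M) = 1 := by field_simp
    have hr2 : 100 * L * (1 / M) ≤ 1 := by nlinarith
    have hr3 : 1 / M ≤ 1 / 1000 := one_div_le_one_div_of_le (by norm_num) (by linarith)
    obtain ⟨Q, hQ, hc⟩ := g1 (1 / M / 2) (1 + 1 / M) 0 (by positivity) (by positivity)
    have hc' : (Q.card : ℝ) ≤ 81 * M ^ 2 := by
      refine hc.trans ?_
      rw [show 2 * (1 + 1 / M) / (1 / M / 2) + 1 = 4 * M + 5 by field_simp; ring]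
      nlinarith
    have e : ε * M * (1 / M) = ε := by rw [mul_assoc, hr1, mul_one]
    generalize 1 / M = r at hr hr1 hr2 hr3 hQ e
    have hQ2 : ∀ x ∈ Q, dist (gp (r / 2) x) 0 ≤ 2 := fun x hx => by linarith [(hQ x).1 hx]
    set C : ℝ := (80 * L + 1) ^ 2 + 6561 + 2 * Q₀.card + Q₀.card ^ 2 with hC
    have hC1 : 6561 ≤ C := by nlinarith
    have hC2 : (80 * L + 1) ^ 2 ≤ C := by nlinarith
    have hc2 : (Q.card : ℝ) ≤ C * M ^ 2 := by nlinarith
    have A1 := one hRARE hRTR hν hlam hL hr hr2 R1 Q hQ2 hc2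
    have A2 := two hRARE hRTR hFAR hν hlam hL hr hr2 R2 Q hQ2 (N := C * M ^ 4) (by
      have : (Q.card : ℝ) ^ 2 ≤ (81 * M ^ 2) ^ 2 := by gcongr
      nlinarith [pow_pos M0 4])
    rw [e] at A1 A2
    obtain ⟨r1, -, -, -, r5, -⟩ := hRARE ν κ c lam L hlam (by linarith)
    refine r1 _ _ _ _ _ _ (fun S hS => ?_) le_rfl (r5 _ _ _ _ _ _ A1 A2)
    by_contra hn
    rw [mem_union, not_or] at hn
    obtain ⟨n1, n2⟩ := hn
    let b : ℂ → Prop := fun z => S ∈ ZB z r ε t₂ ∩ NoCE z (L * r)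
    have hZ := hZONE (sets S) L r ε (Q.image (gp (r / 2))) (fun z => if b z then t₁ else t₂)
      (cpt_sets S) hL hr hr2 (fun y hy => ?_) fun z hz => ?_
    · refine hS (hDMON.2.2.2.1 _ _ _ _ _ _ _ _ _ Subset.rfl le_rfl ?_ hZ)
      rw [Finset.sum_ite, Finset.sum_const, Finset.sum_const, nsmul_eq_mul, nsmul_eq_mul]
      refine add_le_add (mul_le_mul_of_nonneg_right ?_ h1) (mul_le_mul_of_nonneg_right ?_ h2)
      · rcases ((Q.image (gp (r / 2))).filter b).eq_empty_or_nonempty with h | ⟨z, hz⟩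
        · rw [h, Finset.card_empty, Nat.cast_zero]
          linarith
        · obtain ⟨hz1, hz2⟩ := Finset.mem_filter.1 hz
          obtain ⟨x, hx, rfl⟩ := Finset.mem_image.1 hz1
          obtain ⟨Q', hQ', hc3⟩ := g1 (r / 2) (20 * (L * r)) (gp (r / 2) x) (by positivity)
            (by positivity)
          rw [show 2 * (20 * (L * r)) / (r / 2) + 1 = 80 * L + 1 by field_simp; ring] at hc3
          refine le_trans ?_ (hc3.trans hC2)
          refine Nat.cast_le.2 (le_trans (Finset.card_le_card fun w hw => ?_)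
            (Finset.card_image_le (f := gp (r / 2))))
          obtain ⟨hw1, hw2⟩ := Finset.mem_filter.1 hw
          obtain ⟨y, hy, rfl⟩ := Finset.mem_image.1 hw1
          refine Finset.mem_image_of_mem _ ((hQ' y).2 (le_of_not_ge fun h => ?_))
          exact n2 ⟨y, hy, x, hx, h, hw2, hz2⟩
      · exact le_trans (Nat.cast_le.2 ((Finset.card_filter_le _ _).trans Finset.card_image_le)) hc2
    · obtain ⟨x, hx⟩ := g2 (r / 2) y (by positivity)
      have := mem_ball.1 hy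
      refine ⟨_, Finset.mem_image_of_mem _ ((hQ x).2 ?_), mem_ball'.2 (by linarith)⟩
      linarith [dist_triangle (gp (r / 2) x) y 0]
    · obtain ⟨x, hx, rfl⟩ := Finset.mem_image.1 hz
      refine ⟨by simpa using (hQ x).1 hx, by split_ifs <;> assumption, fun h => ?_⟩
      by_contra h'
      split_ifs at h' with hb
      · exact n1 (mem_iUnion₂.2 ⟨x, hx, h', h⟩)
      · exact hb ⟨h', h⟩
  · set C : ℝ := (80 * L + 1) ^ 2 + 6561 + 2 * Q₀.card + Q₀.card ^ 2 with hC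
    have hr2 : 100 * L * s ≤ 1 := by nlinarith
    have A2 := two hRARE hRTR hFAR hν hlam hL hs hr2 R Q₀ (fun x hx => (hQ₀ x).1 hx) (N := C)
      (by nlinarith)
    refine (hRARE ν κ c lam L hlam (by linarith)).1 _ _ _ _ _ _ (fun S hS => ?_) le_rfl A2
    have key : ∀ u : ℝ, 1 ≤ u → u ≤ 6 / 5 → ∃ x ∈ Q₀, |‖gp (s / 2) x‖ - u| ≤ s ∧
        S ∈ bad L s (3 * s) t x := fun u u1 u2 => by
      by_contra hn
      have hZ := hZTWO (sets S) L s (3 * s) u
        ((Q₀.filter fun x => |‖gp (s / 2) x‖ - u| ≤ s).image (gp (s / 2))) (fun _ => t)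
        (cpt_sets S) hL hs hr2 u1 u2 (by linarith) (fun y hy => ?_) fun z hz => ?_
      · refine hS (hDMON.2.2.2.1 _ _ _ _ _ _ _ _ _ Subset.rfl le_rfl ?_ hZ)
        rw [Finset.sum_const, nsmul_eq_mul, ← mul_assoc]
        refine mul_le_mul_of_nonneg_right ?_ ht
        have : (((Q₀.filter fun x => |‖gp (s / 2) x‖ - u| ≤ s).image (gp (s / 2))).card : ℝ) ≤
            Q₀.card := Nat.cast_le.2 (Finset.card_image_le.trans (Finset.card_filter_le _ _))
        nlinarith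
      · obtain ⟨x, hx⟩ := g2 (s / 2) y (by positivity)
        have h1 : ‖y‖ = u := by simpa using hy
        have h2 := abs_norm_sub_norm_le (gp (s / 2) x) y
        rw [← dist_eq_norm, h1] at h2
        refine ⟨_, Finset.mem_image_of_mem _ (Finset.mem_filter.2 ⟨(hQ₀ x).2 ?_, by linarith⟩),
          mem_ball'.2 (by linarith)⟩
        rw [dist_zero_right]
        linarith [(abs_le.1 h2).2]
      · obtain ⟨x, hx, rfl⟩ := Finset.mem_image.1 hz
        obtain ⟨hx1, hx2⟩ := Finset.mem_filter.1 hx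
        refine ⟨by linarith [(abs_le.1 hx2).2], ht, fun h => ?_⟩
        by_contra h'
        exact hn ⟨x, hx1, hx2, h', h⟩
    obtain ⟨x, hx, x1, x2⟩ := key (6 / 5) (by norm_num) le_rfl
    obtain ⟨y, hy, y1, y2⟩ := key 1 le_rfl (by norm_num)
    refine ⟨x, hx, y, hy, ?_, x2, y2⟩
    have := norm_sub_norm_le (gp (s / 2) x) (gp (s / 2) y)
    rw [dist_eq_norm]
    linarith [(abs_le.1 x1).1, (abs_le.1 y1).2]

end Pool.Agent.P.MP_d66c6d_pr
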