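import Pool.Agent.P.MP_d66c6d_pr.M.Iface
import Pool.Agent.P.MP_d66c6d_pr.D.Iface
import Pool.Agent.P.MP_d66c6d_pr.F.Iface

/-! Step ZSM of the carpet project. -/

namespace Pool.Agent.P.MP_d66c6d_pr

open MeasureTheory ProbabilityTheory Set Metric Filter Topology
open scoped ENNReal

theorem p_ZSM (hRTR : S_RTR) (hMDL : S_MDL) (hFAR : S_FAR) (hDLOC : S_DLOC) (hBLK : S_BLK) (hDMEA : S_DMEA) (hPPO : S_PPO) (hPPA : S_PPA) (hMUK : S_MUK) :
    S_ZSM := by
  intro ν hν κ L c hκ hL hc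
  obtain ⟨-, hσ, -, ⟨C₀, hC₀, hmass⟩, -⟩ := hMUK ν hν
  have hx : 0 ≤ c * (C₀ * (11 * L) ^ 2) := by positivity
  have hen : en (ENNReal.ofReal (c * (C₀ * (11 * L) ^ 2))) ≠ 0 := by
    rw [en_ofReal hx]
    exact (ENNReal.ofReal_pos.2 (Real.exp_pos _)).ne'
  refine ⟨(en (ENNReal.ofReal (c * (C₀ * (11 * L) ^ 2))))⁻¹, ENNReal.inv_ne_top.2 hen, ?_⟩
  intro z g ε t U p hg hU hBU hR
  have hgρ : g ≤ L * g := by nlinarith
  have hρ : 0 < L * g := hg.trans_le hgρ
  have hE : LocE z g (ZB z g ε t) := (hFAR.1 z g ε t hg).1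
  have hN : MeasurableSet (NoCE z (L * g)) := hDMEA.2.2.2.2.1 z _
  have hR' := (hRTR ν hν κ c 1 L z g p hg).1 _ t hR
  rw [div_mul_cancel₀ _ hg.ne'] at hR'
  have h1 := hR' _ ((hMDL ν hν κ L c hκ hL hc).2.1 1 (L * g) z hρ) univ
    (hFAR.2.2.2.2.2.2.2.1 z _)
  rw [inter_univ, measure_univ, mul_one] at h1
  have hB : MeasurableSet (inK (ball z (11 * (L * g)))) := (isOpen_inK isOpen_ball).measurableSet
  have hg' := measurableSet_bigK g
  have hm : (ENNReal.ofReal c • (muK ν).restrict (inK (ball z (11 * (L * g))) ∩ bigK g)) univ ≤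
      ENNReal.ofReal (c * (C₀ * (11 * L) ^ 2)) := by
    rw [Measure.smul_apply, Measure.restrict_apply_univ, smul_eq_mul, ENNReal.ofReal_mul hc]
    refine mul_le_mul_right ((hmass z _ g (by positivity) hg).trans_eq ?_) _
    congr 2
    field_simp
  have h2 := (hPPA KC (ENNReal.ofReal c • (muK ν).restrict (inK (ball z (11 * (L * g))) \ bigK g))
    _).2.2.1 inferInstance ⟨hm.trans_lt ENNReal.ofReal_lt_top⟩ _ (hE.1.inter hN)
  rw [add_comm, ← smul_add, Measure.restrict_inter_add_sdiff _ hg'] at h2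
  obtain ⟨-, o2, -, -, -, o6, -⟩ := hPPO KC
    (ENNReal.ofReal c • (muK ν).restrict (inK U ∩ (bigK g)ᶜ)) inferInstance
  have h3 := o2 _ hB
  rw [Measure.restrict_smul, Measure.restrict_restrict hB, ← inter_assoc,
    inter_eq_left.2 (show inK _ ⊆ inK U from fun K hK => Subset.trans hK hBU)] at h3
  rw [Set.sdiff_eq, ← h3, Measure.map_apply (measurable_res hB) (hE.1.inter hN)] at h2
  have h4 := o6 (fun K => K ∉ bigK g) (Measure.ae_smul_measure ((ae_restrict_mem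
    ((isOpen_inK hU).measurableSet.inter hg'.compl)).mono fun K hK => hK.2) _)
  have h5 : PP (ENNReal.ofReal c • (muK ν).restrict (inK U ∩ (bigK g)ᶜ)) (ZB z g ε t) ≤ _ :=
    measure_mono_ae (t := Cfg.res (inK (ball z (11 * (L * g)))) ⁻¹' (ZB z g ε t ∩ NoCE z (L * g)))
    (h4.mono fun S hS hSE => ⟨hE.2 S _ (fun ξ _ _ => ?_) hSE, ?_⟩)
  · refine h5.trans ?_
    rw [← ENNReal.div_eq_inv_mul, ENNReal.le_div_iff_mul_le (Or.inl hen)
      (Or.inl ((en_le_one _).trans_lt ENNReal.one_lt_top).ne), mul_comm]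
    exact (mul_le_mul_left (en_anti hm) _).trans (h2.trans h1)
  · refine Subset.antisymm ?_ (inter_subset_inter_left _
      (TT_mono le_rfl (image_mono inter_subset_left)))
    rintro y ⟨hy, hyz⟩
    obtain ⟨_, ⟨K, hK, rfl⟩, h6, h7⟩ := mem_TT.1 hy
    refine ⟨mem_TT.2 ⟨_, ⟨K, ⟨hK, fun x hx => ?_⟩, rfl⟩, h6, h7⟩, hyz⟩
    have h8 := dist_lt_of_not_bigK (hS K hK) hx h7
    rw [mem_ball] at hyz ⊢
    linarith [dist_triangle x y z]
  · refine hBLK _ z z (z + (10 * (L * g) : ℝ)) _ _ (cpt_sets _) hρ le_rfl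
      (mem_closedBall_self hρ.le) ?_ ?_
    · rw [mem_closedBall, dist_self_add_left, Complex.norm_real,
        Real.norm_of_nonneg (by positivity)]
      linarith
    · have h6 : TT (L * g) (sets (S.res (inK (ball z (11 * (L * g)))))) = ∅ := by
        refine eq_empty_of_forall_notMem fun y hy => ?_
        obtain ⟨_, ⟨K, hK, rfl⟩, h6, -⟩ := mem_TT.1 hy
        exact hS K hK.1 (hgρ.trans h6)
      rw [Free, h6, closure_empty, compl_empty]
      exact joinedIn_univ.2 (PathConnectedSpace.joined _ _)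

end Pool.Agent.P.MP_d66c6d_pr
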